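import Pool.Agent.FRC.CentT

/-!
# FRC/AbW: no nontrivial abelian normal subgroup in `F`

Let `w0 = x⁻¹ * y⁻¹ * x * y ≠ 1`; `w0 ∈ W` by `hmin`.  Let `t` be a prime dividing `orderOf w0` (finite, `H.fo`) and
`Ω = {w ∈ W | w^t = 1}`, a subgroup (as `W` is commutative), normal in `G`, nontrivial.  `hmin` gives `w0 ∈ Ω`, so
`w0^t = 1`.  By `cent_t` for `Ω`: elements of `F` of `r'`-power order, `r' ≠ t`, commute with `w0`.
Case `t ≠ s`: `y` commutes with `w0` and `y⁻¹ * x * y = x * w0`; by induction `(y^n)⁻¹ * x * y^n = x * w0^n`; with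
`n = s^m`, `y^n = 1`: `w0^(s^m) = 1` and `w0^t = 1`, so `w0 = 1` (`PE.eq_one`).
Case `t = s`, so `t ≠ r`: `x` commutes with `w0` and `x⁻¹ * y⁻¹ * x = w0 * y⁻¹`; by induction
`(x^n)⁻¹ * y⁻¹ * x^n = w0^n * y⁻¹`; with `n = r^m`: `w0^(r^m) = 1`, so `w0 = 1`.
-/

set_option autoImplicit false

namespace Pool.Agent.FRC

universe u

variable {G : Type u} [Group G] {F : Subgroup G} {a : G} {p : ℕ}

private theorem abw_conj_pow {x y w : G} (h : y⁻¹ * x * y = x * w) (hc : Commute w y) (n : ℕ) :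
    (y ^ n)⁻¹ * x * y ^ n = x * w ^ n := by
  induction n with
  | zero => simp
  | succ n ih =>
    have hc' : Commute (w ^ n) y := hc.pow_left n
    have e1 : y⁻¹ * w ^ n * y = w ^ n := by
      have := hc'.eq
      calc y⁻¹ * w ^ n * y = y⁻¹ * (w ^ n * y) := by group
        _ = y⁻¹ * (y * w ^ n) := by rw [this]
        _ = w ^ n := by group
    calc (y ^ (n + 1))⁻¹ * x * y ^ (n + 1) = y⁻¹ * ((y ^ n)⁻¹ * x * y ^ n) * y := by
          rw [pow_succ]; group
      _ = y⁻¹ * (x * w ^ n) * y := by rw [ih]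
      _ = (y⁻¹ * x * y) * (y⁻¹ * w ^ n * y) := by group
      _ = x * w * w ^ n := by rw [h, e1]
      _ = x * w ^ (n + 1) := by rw [mul_assoc, ← pow_succ']

private theorem abw_conj_pow' {x z w : G} (h : x⁻¹ * z * x = w * z) (hc : Commute w x) (n : ℕ) :
    (x ^ n)⁻¹ * z * x ^ n = w ^ n * z := by
  induction n with
  | zero => simp
  | succ n ih =>
    have hc' : Commute (w ^ n) x := hc.pow_left n
    have e1 : x⁻¹ * w ^ n * x = w ^ n := by
      have := hc'.eq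
      calc x⁻¹ * w ^ n * x = x⁻¹ * (w ^ n * x) := by group
        _ = x⁻¹ * (x * w ^ n) := by rw [this]
        _ = w ^ n := by group
    calc (x ^ (n + 1))⁻¹ * z * x ^ (n + 1) = x⁻¹ * ((x ^ n)⁻¹ * z * x ^ n) * x := by
          rw [pow_succ]; group
      _ = x⁻¹ * (w ^ n * z) * x := by rw [ih]
      _ = (x⁻¹ * w ^ n * x) * (x⁻¹ * z * x) := by group
      _ = w ^ n * (w * z) := by rw [h, e1]
      _ = w ^ (n + 1) * z := by rw [← mul_assoc, ← pow_succ]

theorem ab_contra (H : HG p F a) {r s : ℕ} (hr : r.Prime) (hs : s.Prime) (hrs : r ≠ s) {x y : G} (hx : x ∈ F)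
    (hy : y ∈ F) (hxr : PE r x) (hys : PE s y) (hw : ¬ Commute x y)
    (hmin : ∀ N : Subgroup G, N.Normal → N ≤ F → N ≠ ⊥ → x⁻¹ * y⁻¹ * x * y ∈ N) {W : Subgroup G}
    (hWn : W.Normal) (hWF : W ≤ F) (hW1 : W ≠ ⊥) (hWa : ∀ v ∈ W, ∀ w ∈ W, Commute v w) : False := by
  obtain ⟨w0, hw0⟩ : ∃ w0, w0 = x⁻¹ * y⁻¹ * x * y := ⟨_, rfl⟩
  rw [← hw0] at hmin
  have hne : w0 ≠ 1 := by
    intro h
    apply hw
    rw [hw0] at h
    have : x * y = y * x := by
      calc x * y = y * x * (x⁻¹ * y⁻¹ * x * y) := by group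
        _ = y * x := by rw [h, mul_one]
    exact this
  have hwW : w0 ∈ W := hmin W hWn hWF hW1
  have hord : orderOf w0 ≠ 1 := by
    rw [Ne, orderOf_eq_one_iff]
    exact hne
  obtain ⟨t, ht, htd⟩ := Nat.exists_prime_and_dvd hord
  let Om : Subgroup G :=
    { carrier := {w | w ∈ W ∧ w ^ t = 1}
      mul_mem' := by
        rintro u v ⟨hu, hu'⟩ ⟨hv, hv'⟩
        exact ⟨W.mul_mem hu hv, by rw [(hWa u hu v hv).mul_pow, hu', hv', one_mul]⟩
      one_mem' := ⟨W.one_mem, one_pow t⟩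
      inv_mem' := by
        rintro u ⟨hu, hu'⟩
        exact ⟨W.inv_mem hu, by rw [inv_pow, hu', inv_one]⟩ }
  have hOmn : Om.Normal := ⟨by
    rintro n ⟨hn, hn'⟩ g
    exact ⟨hWn.conj_mem n hn g, by rw [conj_pow, hn', mul_one, mul_inv_cancel]⟩⟩
  have hOmW : Om ≤ W := fun w hw => hw.1
  have hOm1 : Om ≠ ⊥ := by
    intro hbot
    obtain ⟨m, hm⟩ := htd
    have hmem : w0 ^ m ∈ Om := ⟨W.pow_mem hwW m, by
      rw [← pow_mul, mul_comm, ← hm, pow_orderOf_eq_one]⟩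
    rw [hbot, Subgroup.mem_bot] at hmem
    have hpos := H.fo w0
    have hmpos : 0 < m := by
      rcases Nat.eq_zero_or_pos m with h | h
      · rw [h, mul_zero] at hm; omega
      · exact h
    have hdv : orderOf w0 ∣ m := orderOf_dvd_of_pow_eq_one hmem
    have hle := Nat.le_of_dvd hmpos hdv
    rw [hm] at hle
    have := ht.two_le
    nlinarith
  have hOmin : w0 ∈ Om := hmin Om hOmn (hOmW.trans hWF) hOm1
  have hwt : w0 ^ t = 1 := hOmin.2
  have hpet : PE t w0 := pe_of_pow hwt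
  by_cases hts : t = s
  · have htr : t ≠ r := fun h => hrs (h.symm.trans hts)
    have hc : Commute w0 x := cent_t H ht hr htr hOmn (hOmW.trans hWF)
      (fun v hv w hw => hWa v (hOmW hv) w (hOmW hw)) (fun v hv => hv.2) hx hxr hOmin
    have h0 : x⁻¹ * y⁻¹ * x = w0 * y⁻¹ := by rw [hw0]; group
    obtain ⟨m, hm⟩ := hxr
    have h1 := abw_conj_pow' h0 hc (r ^ m)
    rw [hm] at h1
    have h2 : w0 ^ (r ^ m) = 1 := by
      have : w0 ^ (r ^ m) * y⁻¹ = 1 * y⁻¹ := by rw [← h1]; group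
      exact mul_right_cancel this
    exact hne (PE.eq_one ht hr htr hpet ⟨m, h2⟩)
  · have hc : Commute w0 y := cent_t H ht hs hts hOmn (hOmW.trans hWF)
      (fun v hv w hw => hWa v (hOmW hv) w (hOmW hw)) (fun v hv => hv.2) hy hys hOmin
    have h0 : y⁻¹ * x * y = x * w0 := by rw [hw0]; group
    obtain ⟨m, hm⟩ := hys
    have h1 := abw_conj_pow h0 hc (s ^ m)
    rw [hm] at h1
    have h2 : w0 ^ (s ^ m) = 1 := by
      have : x * w0 ^ (s ^ m) = x * 1 := by rw [← h1]; group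
      exact mul_left_cancel this
    exact hne (PE.eq_one ht hs hts hpet ⟨m, h2⟩)

end Pool.Agent.FRC
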