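import Mathlib

/-!
# FRC/SolM: soluble groups

* `sol_min`: a nontrivial finite soluble group has a nontrivial normal elementary abelian subgroup (the elements of
  order dividing `t` of the last nontrivial term of the derived series).
* `sup_sol`: `A ⊔ L` is soluble if `A` is commutative and normalised by the soluble subgroup `L`.
-/

set_option autoImplicit false

namespace Pool.Agent.FRC

universe u

open scoped commutatorElement

theorem sol_min {H : Type u} [Group H] [Finite H] [Nontrivial H] (hs : IsSolvable H) :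
    ∃ t : ℕ, t.Prime ∧ ∃ T : Subgroup H, T.Normal ∧ T ≠ ⊥ ∧ (∀ v ∈ T, ∀ w ∈ T, Commute v w) ∧ ∀ v ∈ T, v ^ t = 1 := by
  classical
  have hs' : Group.IsSolvable H := hs
  have hex : ∃ n, derivedSeries H n = ⊥ := hs'.solvable
  have hn := Nat.find_spec hex
  have hmin : ∀ m, m < Nat.find hex → derivedSeries H m ≠ ⊥ := fun m hm => Nat.find_min hex hm
  have hn0 : Nat.find hex ≠ 0 := by
    intro h
    rw [h, derivedSeries_zero] at hn
    exact top_ne_bot hn
  obtain ⟨k, hk⟩ := Nat.exists_eq_succ_of_ne_zero hn0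
  have hA : derivedSeries H k ≠ ⊥ := hmin k (by rw [hk]; exact Nat.lt_succ_self k)
  rw [hk, Nat.succ_eq_add_one, derivedSeries_succ] at hn
  have hcom : ∀ v ∈ derivedSeries H k, ∀ w ∈ derivedSeries H k, Commute v w := by
    intro v hv w hw
    have h1 : ⁅v, w⁆ ∈ ⁅derivedSeries H k, derivedSeries H k⁆ := Subgroup.commutator_mem_commutator hv hw
    rw [hn, Subgroup.mem_bot] at h1
    exact commutatorElement_eq_one_iff_commute.1 h1
  have hcard : Nat.card (derivedSeries H k) ≠ 1 := by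
    intro h
    exact hA ((Subgroup.card_eq_one).1 h)
  obtain ⟨t, ht, htd⟩ := Nat.exists_prime_and_dvd hcard
  have : Fact t.Prime := ⟨ht⟩
  have hAn : (derivedSeries H k).Normal := derivedSeries_normal H k
  refine ⟨t, ht,
    { carrier := {v | v ∈ derivedSeries H k ∧ v ^ t = 1}
      mul_mem' := ?_
      one_mem' := ⟨one_mem _, one_pow t⟩
      inv_mem' := ?_ }, ⟨?_⟩, ?_, ?_, ?_⟩
  · rintro v w ⟨hv, hv1⟩ ⟨hw, hw1⟩
    refine ⟨mul_mem hv hw, ?_⟩
    rw [(hcom v hv w hw).mul_pow, hv1, hw1, one_mul]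
  · rintro v ⟨hv, hv1⟩
    refine ⟨inv_mem hv, ?_⟩
    rw [inv_pow, hv1, inv_one]
  · rintro v ⟨hv, hv1⟩ g
    refine ⟨hAn.conj_mem v hv g, ?_⟩
    rw [conj_pow, hv1, mul_one, mul_inv_cancel]
  · intro hbot
    obtain ⟨x, hx⟩ := exists_prime_orderOf_dvd_card' (G := derivedSeries H k) t htd
    have h1 : (x : H) ^ t = 1 := by
      have h2 : x ^ t = 1 := by rw [← hx]; exact pow_orderOf_eq_one x
      have h3 := congrArg (fun y : derivedSeries H k => (y : H)) h2
      simpa using h3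
    have h4 : (x : H) ∈ (⊥ : Subgroup H) := by
      rw [← hbot]
      exact ⟨x.2, h1⟩
    rw [Subgroup.mem_bot] at h4
    have h5 : x = 1 := Subtype.ext h4
    rw [h5, orderOf_one] at hx
    exact ht.one_lt.ne hx
  · rintro v ⟨hv, -⟩ w ⟨hw, -⟩
    exact hcom v hv w hw
  · rintro v ⟨-, hv⟩
    exact hv

theorem sup_sol {G : Type u} [Group G] {A L : Subgroup G} (hA : ∀ v ∈ A, ∀ w ∈ A, Commute v w)
    (hn : ∀ l ∈ L, ∀ v ∈ A, l * v * l⁻¹ ∈ A) (hL : IsSolvable L) : IsSolvable (A ⊔ L : Subgroup G) := by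
  have hLn : L ≤ Subgroup.normalizer (A : Set G) := by
    intro l hl
    rw [Subgroup.mem_normalizer_iff]
    intro h
    constructor
    · exact fun hh => hn l hl h hh
    · intro hh
      have h1 := hn l⁻¹ (inv_mem hl) _ hh
      have h2 : l⁻¹ * (l * h * l⁻¹) * l⁻¹⁻¹ = h := by group
      rwa [h2] at h1
  have hS : (A ⊔ L : Subgroup G) ≤ Subgroup.normalizer (A : Set G) := sup_le Subgroup.le_normalizer hLn
  have hN : (A.subgroupOf (A ⊔ L)).Normal := Subgroup.normal_subgroupOf_of_le_normalizer hS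
  have h1 : Group.IsSolvable (A.subgroupOf (A ⊔ L)) := by
    apply Group.isSolvable_of_comm
    rintro ⟨a, ha⟩ ⟨b, hb⟩
    apply Subtype.ext
    apply Subtype.ext
    exact hA _ ha _ hb
  have h2 : Group.IsSolvable ((A ⊔ L : Subgroup G) ⧸ A.subgroupOf (A ⊔ L)) := by
    have hL' : Group.IsSolvable L := hL
    apply Group.isSolvable_of_surjective (f := (QuotientGroup.mk' (A.subgroupOf (A ⊔ L))).comp
      (Subgroup.inclusion (le_sup_right : L ≤ A ⊔ L)))
    intro y
    obtain ⟨s, rfl⟩ := QuotientGroup.mk'_surjective _ y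
    have h3 : s ∈ A.subgroupOf (A ⊔ L) ⊔ L.subgroupOf (A ⊔ L) := by
      rw [← Subgroup.subgroupOf_sup le_sup_left le_sup_right, Subgroup.subgroupOf_self]
      exact Subgroup.mem_top s
    obtain ⟨a, ha, l, hl, rfl⟩ := Subgroup.mem_sup_of_normal_left.1 h3
    have h4 : QuotientGroup.mk' (A.subgroupOf (A ⊔ L)) a = 1 :=
      (QuotientGroup.eq_one_iff a).2 ha
    refine ⟨⟨l, Subgroup.mem_subgroupOf.1 hl⟩, ?_⟩
    rw [map_mul, h4, one_mul]
    rfl
  apply Group.isSolvable_of_ker_le_range (A.subgroupOf (A ⊔ L)).subtype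
    (QuotientGroup.mk' (A.subgroupOf (A ⊔ L)))
  rw [QuotientGroup.ker_mk', Subgroup.range_subtype]

end Pool.Agent.FRC
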