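import Pool.Agent.FRC.Orb2
import Pool.Agent.FRC.SolM
import Pool.Agent.FRB.LFx

/-!
# FRC/CentT: elements of order prime to `t` centralise a normal elementary abelian `t`-subgroup

Let `L = closure {z, a}` (finite, soluble) and `A = closure {y | ∃ l ∈ L, y = l * w * l⁻¹}`.  `A ≤ W` (`W` normal), so `A`
is commutative with exponent `t`; it is generated by a finite set, so finite (`FRB.lf_comm`); `L` normalises `A`.
`A ⊔ L` is finite (`FRB.lf_sup` with a finite generating set, or: `A ⊔ L = A * L`) and soluble (`sup_sol`).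
`K = (A ⊔ L) ⊓ F` is finite, soluble, contained in `F` and invariant under conjugation by `a` (`a ∈ L`, `F` normal), so
nilpotent (`H.nilp`); `w`, `z ∈ K` have coprime orders (`PE.cop`), so they commute (`cop_of_nilp`).
-/

set_option autoImplicit false

namespace Pool.Agent.FRC

universe u

variable {G : Type u} [Group G] {F : Subgroup G} {a : G} {p : ℕ}

theorem cent_t (H : HG p F a) {t r : ℕ} (ht : t.Prime) (hr : r.Prime) (htr : t ≠ r) {W : Subgroup G}
    (hWn : W.Normal) (hWF : W ≤ F) (hWa : ∀ v ∈ W, ∀ w ∈ W, Commute v w) (hWt : ∀ v ∈ W, v ^ t = 1) {z : G}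
    (hz : z ∈ F) (hzr : PE r z) {w : G} (hw : w ∈ W) : Commute w z := by
  classical
  have hLf : ((Subgroup.closure ({z, a} : Set G) : Subgroup G) : Set G).Finite := H.fin z a
  have hLs : IsSolvable (Subgroup.closure ({z, a} : Set G)) := H.sol z a
  set L : Subgroup G := Subgroup.closure ({z, a} : Set G) with hL
  have hzL : z ∈ L := Subgroup.subset_closure (by simp)
  have haL : a ∈ L := Subgroup.subset_closure (by simp)
  set T : Set G := (fun l => l * w * l⁻¹) '' (L : Set G) with hT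
  have hTf : T.Finite := hLf.image _
  set A : Subgroup G := Subgroup.closure T with hA
  have hTW : T ⊆ W := by
    rintro _ ⟨l, -, rfl⟩
    exact hWn.conj_mem w hw l
  have hAW : A ≤ W := (Subgroup.closure_le W).2 hTW
  have hwA : w ∈ A := Subgroup.subset_closure ⟨1, L.one_mem, by simp⟩
  have hAc : ∀ v ∈ A, ∀ v' ∈ A, Commute v v' := fun v hv v' hv' => hWa v (hAW hv) v' (hAW hv')
  -- `L` normalises `A`
  have hLA : ∀ l ∈ L, ∀ v ∈ A, l * v * l⁻¹ ∈ A := by
    intro l hl
    have h1 : A ≤ A.comap (MulAut.conj l).toMonoidHom := by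
      refine (Subgroup.closure_le _).2 ?_
      rintro _ ⟨m, hm, rfl⟩
      show l * (m * w * m⁻¹) * l⁻¹ ∈ A
      refine Subgroup.subset_closure ⟨l * m, L.mul_mem hl hm, ?_⟩
      show l * m * w * (l * m)⁻¹ = _
      group
    intro v hv
    exact h1 hv
  have hLFA : FRB.LF A := FRB.lf_comm hAc fun x hx => ⟨t, ht.pos, hWt x (hAW hx)⟩
  have hLFL : FRB.LF L := fun s hs => hLf.subset ((Subgroup.closure_le L).2 hs)
  have hLFS : FRB.LF (A ⊔ L) := FRB.lf_sup hLFA hLFL fun l hl v hv => by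
    have := hLA l⁻¹ (L.inv_mem hl) v hv
    rwa [inv_inv] at this
  have hSf : ((A ⊔ L : Subgroup G) : Set G).Finite := by
    have h1 := hLFS (hTf.toFinset ∪ {z, a}) (by
      intro x hx
      rw [Finset.mem_coe, Finset.mem_union] at hx
      rcases hx with hx | hx
      · have hx' : x ∈ T := hTf.mem_toFinset.1 hx
        exact (le_sup_left : A ≤ A ⊔ L) (Subgroup.subset_closure hx')
      · rw [Finset.mem_insert, Finset.mem_singleton] at hx
        rcases hx with rfl | rfl
        · exact (le_sup_right : L ≤ A ⊔ L) hzL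
        · exact (le_sup_right : L ≤ A ⊔ L) haL)
    refine h1.subset ?_
    have h2 : A ⊔ L ≤ Subgroup.closure (((hTf.toFinset ∪ {z, a} : Finset G)) : Set G) := by
      refine sup_le ?_ ?_
      · refine (Subgroup.closure_le _).2 fun x hx => ?_
        refine Subgroup.subset_closure ?_
        rw [Finset.mem_coe, Finset.mem_union]
        exact Or.inl (hTf.mem_toFinset.2 hx)
      · refine (Subgroup.closure_le _).2 fun x hx => ?_
        refine Subgroup.subset_closure ?_
        rw [Finset.mem_coe, Finset.mem_union, Finset.mem_insert, Finset.mem_singleton]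
        exact Or.inr hx
    exact h2
  have hSs : IsSolvable (A ⊔ L : Subgroup G) := sup_sol hAc hLA hLs
  have hKf : (((A ⊔ L) ⊓ F : Subgroup G) : Set G).Finite := hSf.subset fun x hx => hx.1
  have hKs : IsSolvable ((A ⊔ L) ⊓ F : Subgroup G) := by
    have h : Group.IsSolvable (A ⊔ L : Subgroup G) := hSs
    exact Group.isSolvable_of_isSolvable_injective
      (Subgroup.inclusion_injective (inf_le_left : (A ⊔ L) ⊓ F ≤ A ⊔ L))
  have hKa : ∀ k ∈ (A ⊔ L) ⊓ F, a * k * a⁻¹ ∈ (A ⊔ L) ⊓ F := by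
    rintro k ⟨hk1, hk2⟩
    have haS : a ∈ A ⊔ L := (le_sup_right : L ≤ A ⊔ L) haL
    exact ⟨(A ⊔ L).mul_mem ((A ⊔ L).mul_mem haS hk1) ((A ⊔ L).inv_mem haS), H.norm.conj_mem k hk2 a⟩
  have hN := H.nilp (K := (A ⊔ L) ⊓ F) inf_le_right hKa hKf hKs
  have hfin : Finite ((A ⊔ L) ⊓ F : Subgroup G) := hKf.to_subtype
  have hwK : w ∈ (A ⊔ L) ⊓ F := ⟨(le_sup_left : A ≤ A ⊔ L) hwA, hWF hw⟩
  have hzK : z ∈ (A ⊔ L) ⊓ F := ⟨(le_sup_right : L ≤ A ⊔ L) hzL, hz⟩
  have hc : (orderOf w).Coprime (orderOf z) := PE.cop ht hr htr (pe_of_pow (hWt w hw)) hzr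
  have h := cop_of_nilp hN (x := (⟨w, hwK⟩ : ((A ⊔ L) ⊓ F : Subgroup G))) (y := ⟨z, hzK⟩) (by
    rw [Subgroup.orderOf_mk, Subgroup.orderOf_mk]; exact hc)
  exact congrArg Subtype.val h.eq

end Pool.Agent.FRC
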