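import Pool.Agent.FRC.Defs2

/-!
# FRC/Conj2: elements outside the kernel are conjugate to powers of `a`

The map `z ↦ z⁻¹ * (b * z * b⁻¹)` with `b = a ^ k` is injective, hence onto, on the finite subgroup generated by the
conjugates of `f` under the powers of `a`.
-/

set_option autoImplicit false

namespace Pool.Agent.FRC

universe u

variable {G : Type u} [Group G] {F : Subgroup G} {a : G} {p : ℕ}

private theorem comm_a (H : HG p F a) {k : ℕ} (hk : ¬ p ∣ k) {z : G} (h : Commute (a ^ k) z) : Commute a z := by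
  have hc : Nat.Coprime k p := ((Nat.Prime.coprime_iff_not_dvd H.prime).2 hk).symm
  obtain ⟨l, hl⟩ := Nat.exists_mul_mod_eq_one_of_coprime hc H.prime.one_lt
  have h1 : (a ^ k) ^ l = a := by
    rw [← pow_mul, ← Nat.div_add_mod (k * l) p, hl.2, pow_add, pow_mul, H.pow, one_pow, one_mul, pow_one]
  have h2 := h.pow_left l
  rwa [h1] at h2

private theorem orb_conj {f z : G} (hz : z ∈ Orb a f) : a * z * a⁻¹ ∈ Orb a f := by
  unfold Orb at hz
  induction hz using Subgroup.closure_induction with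
  | mem x hx =>
    obtain ⟨i, rfl⟩ := hx
    exact Subgroup.subset_closure ⟨i + 1, by rw [pow_succ']; group⟩
  | one => simp
  | mul x y hx hy h1 h2 =>
    have h3 : a * (x * y) * a⁻¹ = (a * x * a⁻¹) * (a * y * a⁻¹) := by group
    rw [h3]; exact Subgroup.mul_mem _ h1 h2
  | inv x hx h1 =>
    have h3 : a * x⁻¹ * a⁻¹ = (a * x * a⁻¹)⁻¹ := by group
    rw [h3]; exact Subgroup.inv_mem _ h1

private theorem orb_conj_pow {f z : G} (hz : z ∈ Orb a f) (k : ℕ) : a ^ k * z * (a ^ k)⁻¹ ∈ Orb a f := by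
  induction k with
  | zero => simpa using hz
  | succ k ih =>
    have h3 : a ^ (k + 1) * z * (a ^ (k + 1))⁻¹ = a * (a ^ k * z * (a ^ k)⁻¹) * a⁻¹ := by
      rw [pow_succ']; group
    rw [h3]; exact orb_conj ih

theorem HG.fo (H : HG p F a) (x : G) : 0 < orderOf x := by
  rw [orderOf_pos_iff, ← finite_zpowers]
  refine (H.fin x x).subset ?_
  intro y hy
  have h1 : Subgroup.zpowers x ≤ Subgroup.closure ({x, x} : Set G) := by
    rw [Subgroup.zpowers_le]
    exact Subgroup.subset_closure (by simp)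
  exact h1 hy

theorem HG.conj (H : HG p F a) {g : G} (hg : g ∉ F) : ∃ z ∈ F, ∃ k : ℕ, ¬ p ∣ k ∧ g = z⁻¹ * a ^ k * z := by
  obtain ⟨f, hf, k, hk⟩ := H.gen g
  have hpk : ¬ p ∣ k := by
    rintro ⟨m, rfl⟩
    apply hg
    rw [hk, pow_mul, H.pow, one_pow, mul_one]
    exact hf
  have hKF : Orb a f ≤ F := by
    unfold Orb
    rw [Subgroup.closure_le]
    rintro y ⟨i, rfl⟩
    exact H.norm.conj_mem f hf _
  have hKfin : ((Orb a f : Subgroup G) : Set G).Finite := by
    refine (H.fin f a).subset ?_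
    have h1 : Orb a f ≤ Subgroup.closure ({f, a} : Set G) := by
      unfold Orb
      rw [Subgroup.closure_le]
      rintro y ⟨i, rfl⟩
      have hfm : f ∈ Subgroup.closure ({f, a} : Set G) := Subgroup.subset_closure (by simp)
      have ham : a ∈ Subgroup.closure ({f, a} : Set G) := Subgroup.subset_closure (by simp)
      exact Subgroup.mul_mem _ (Subgroup.mul_mem _ (Subgroup.pow_mem _ ham i) hfm)
        (Subgroup.inv_mem _ (Subgroup.pow_mem _ ham i))
    exact h1
  have : Finite (Orb a f) := hKfin.to_subtype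
  let φ : Orb a f → Orb a f := fun z =>
    ⟨(z : G)⁻¹ * (a ^ k * z * (a ^ k)⁻¹),
      Subgroup.mul_mem _ (Subgroup.inv_mem _ z.2) (orb_conj_pow z.2 k)⟩
  have hinj : Function.Injective φ := by
    intro z w hzw
    have h1 : (z : G)⁻¹ * (a ^ k * z * (a ^ k)⁻¹) = (w : G)⁻¹ * (a ^ k * w * (a ^ k)⁻¹) :=
      congrArg Subtype.val hzw
    have h2 : Commute (a ^ k) ((w : G) * (z : G)⁻¹) := by
      have h3 : (w : G) * (z : G)⁻¹ * (a ^ k * z * (a ^ k)⁻¹) = a ^ k * w * (a ^ k)⁻¹ := by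
        rw [mul_assoc, h1]; group
      have h4 : (w : G) * (z : G)⁻¹ * (a ^ k * z) = a ^ k * w := by
        have h5 := congrArg (fun t => t * a ^ k) h3
        simpa [mul_assoc] using h5
      have h6 : (w : G) * (z : G)⁻¹ * a ^ k = a ^ k * ((w : G) * (z : G)⁻¹) := by
        have h7 := congrArg (fun t => t * (z : G)⁻¹) h4
        simpa [mul_assoc] using h7
      exact h6.symm
    have h3 := comm_a H hpk h2
    have h4 : (w : G) * (z : G)⁻¹ = 1 := by
      apply H.fpf _ (F.mul_mem (hKF w.2) (F.inv_mem (hKF z.2)))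
      rw [h3.eq, mul_assoc, mul_inv_cancel, mul_one]
    have h5 : (w : G) = z := by
      rwa [mul_inv_eq_one] at h4
    exact Subtype.ext h5.symm
  have hsurj := Finite.injective_iff_surjective.1 hinj
  have hfm : f ∈ Orb a f := Subgroup.subset_closure ⟨0, by simp⟩
  obtain ⟨z, hz⟩ := hsurj ⟨f, hfm⟩
  have hz' : (z : G)⁻¹ * (a ^ k * z * (a ^ k)⁻¹) = f := congrArg Subtype.val hz
  refine ⟨z, hKF z.2, k, hpk, ?_⟩
  have h1 : f * a ^ k = (z : G)⁻¹ * (a ^ k * z * (a ^ k)⁻¹) * a ^ k := congrArg (fun t => t * a ^ k) hz'.symm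
  rw [hk, h1]
  group

theorem HG.of_nmem (H : HG p F a) {g : G} (hg : g ∉ F) : HG p F g := by
  obtain ⟨z, hz, k, hk, rfl⟩ := H.conj hg
  have hconj : ∀ i : ℕ, (z⁻¹ * a ^ k * z) ^ i = z⁻¹ * a ^ (k * i) * z := by
    intro i
    induction i with
    | zero => simp
    | succ i ih =>
      rw [pow_succ, ih, mul_add, pow_add, mul_one]
      group
  have hc : Nat.Coprime k p := ((Nat.Prime.coprime_iff_not_dvd H.prime).2 hk).symm
  obtain ⟨l, hl⟩ := Nat.exists_mul_mod_eq_one_of_coprime hc H.prime.one_lt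
  refine ⟨H.prime, H.norm, ?_, hg, ?_, ?_, H.fin, H.sol⟩
  · rw [hconj, mul_comm k p, pow_mul, H.pow, one_pow, mul_one, inv_mul_cancel]
  · intro h
    obtain ⟨f, hf, j, rfl⟩ := H.gen h
    refine ⟨f * a ^ j * ((z⁻¹ * a ^ k * z) ^ (l * j))⁻¹, ?_, l * j, by group⟩
    have h1 : a ^ (k * (l * j)) = a ^ j := by
      rw [← mul_assoc, pow_mul, ← Nat.div_add_mod (k * l) p, hl.2, pow_add, pow_mul, H.pow, one_pow, one_mul,
        pow_one]
    rw [hconj, h1]
    have h2 : f * a ^ j * (z⁻¹ * a ^ j * z)⁻¹ = f * (a ^ j * z⁻¹ * (a ^ j)⁻¹) * z := by group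
    rw [h2]
    exact F.mul_mem (F.mul_mem hf (H.norm.conj_mem _ (F.inv_mem hz) _)) hz
  · intro f hf h
    have h1 : Commute (a ^ k) (z * f * z⁻¹) := by
      have h2 : z⁻¹ * a ^ k * z * f = f * (z⁻¹ * a ^ k * z) := by
        have h3 := congrArg (fun t => t * (z⁻¹ * a ^ k * z)) h
        simpa [mul_assoc] using h3
      have h3 := congrArg (fun t => z * t * z⁻¹) h2
      show a ^ k * (z * f * z⁻¹) = z * f * z⁻¹ * a ^ k
      have h4 : z * (z⁻¹ * a ^ k * z * f) * z⁻¹ = a ^ k * (z * f * z⁻¹) := by group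
      have h5 : z * (f * (z⁻¹ * a ^ k * z)) * z⁻¹ = z * f * z⁻¹ * a ^ k := by group
      rw [← h4, ← h5]
      exact h3
    have h2 := comm_a H hk h1
    have h3 : z * f * z⁻¹ = 1 := by
      apply H.fpf _ (H.norm.conj_mem f hf z)
      rw [h2.eq, mul_assoc, mul_inv_cancel, mul_one]
    have h4 : f = z⁻¹ * (z * f * z⁻¹) * z := by group
    rw [h4, h3]; group

end Pool.Agent.FRC
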