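import Pool.Agent.FRC.Orb2

/-!
# FRC/ConjC: commuting elements of coprime orders

Case `h ∉ F`: `H.of_nmem` gives `HG p F h`; `x * y ∈ F`; the subgroup `Orb h (x * y)` contains `x * y` and
`h * (x * y) * h⁻¹`.  `x` and `y` are powers of `x * y` (they commute and have coprime finite orders), so `y` and
`h * x * h⁻¹` (a power of `h * (x * y) * h⁻¹`) are in `Orb h (x * y)`; `orderOf (h * x * h⁻¹) = orderOf x`; `Orb_cop`.
Case `h ∈ F`: `x₁ = a⁻¹ * x * a` commutes with `y` by the first case (`a⁻¹ ∉ F`), has the order of `x` and lies in `F`;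
`h * a ∉ F` and `h * x * h⁻¹ = (h * a) * x₁ * (h * a)⁻¹`: the first case again.
-/

set_option autoImplicit false

namespace Pool.Agent.FRC

universe u

variable {G : Type u} [Group G] {F : Subgroup G} {a : G} {p : ℕ}

private theorem pow_coprime {x y : G} (hxy : Commute x y) (hc : (orderOf x).Coprime (orderOf y)) :
    ∃ m : ℕ, (x * y) ^ m = x := by
  obtain ⟨m, h1, h2⟩ := Nat.chineseRemainder hc 1 0
  refine ⟨m, ?_⟩
  have hx : x ^ m = x := by
    have := pow_eq_pow_iff_modEq.mpr h1
    simpa using this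
  have hy : y ^ m = 1 := by
    have := pow_eq_pow_iff_modEq.mpr h2
    simpa using this
  rw [hxy.mul_pow, hx, hy, mul_one]

private theorem ord_conj (h x : G) : orderOf (h * x * h⁻¹) = orderOf x := by
  have := orderOf_injective (MulAut.conj h).toMonoidHom (MulAut.conj h).injective x
  simpa using this

private theorem case1 (H : HG p F a) {x y : G} (hx : x ∈ F) (hy : y ∈ F) (hxy : Commute x y)
    (hc : (orderOf x).Coprime (orderOf y)) {h : G} (hh : h ∉ F) : Commute (h * x * h⁻¹) y := by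
  have K : HG p F h := H.of_nmem hh
  obtain ⟨m, hm⟩ := pow_coprime hxy hc
  obtain ⟨l, hl⟩ := pow_coprime hxy.symm hc.symm
  rw [← hxy.eq] at hl
  have hw : x * y ∈ F := F.mul_mem hx hy
  have h1 : h * x * h⁻¹ ∈ Orb h (x * y) := by
    have h2 := (Orb h (x * y)).pow_mem (Orb_conj_mem h (x * y)) m
    rw [conj_pow, hm] at h2
    exact h2
  have h3 : y ∈ Orb h (x * y) := by
    have h2 := (Orb h (x * y)).pow_mem (Orb_mem h (x * y)) l
    rw [hl] at h2
    exact h2
  exact Orb_cop K hw h1 h3 (by rw [ord_conj]; exact hc)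

theorem conj_comm (H : HG p F a) {x y : G} (hx : x ∈ F) (hy : y ∈ F) (hxy : Commute x y)
    (hc : (orderOf x).Coprime (orderOf y)) (h : G) : Commute (h * x * h⁻¹) y := by
  by_cases hh : h ∈ F
  · have ha : a⁻¹ ∉ F := fun h' => H.nmem (by simpa using F.inv_mem h')
    have h1 := case1 H hx hy hxy hc ha
    have h2 : a⁻¹ * x * (a⁻¹)⁻¹ ∈ F := H.norm.conj_mem x hx a⁻¹
    have h3 : h * a ∉ F := fun h' => H.nmem (by
      have := F.mul_mem (F.inv_mem hh) h'
      simpa using this)
    have h4 := case1 H h2 hy h1 (by rw [ord_conj]; exact hc) h3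
    have h5 : h * a * (a⁻¹ * x * (a⁻¹)⁻¹) * (h * a)⁻¹ = h * x * h⁻¹ := by group
    rw [h5] at h4
    exact h4
  · exact case1 H hx hy hxy hc hh

end Pool.Agent.FRC
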