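import Pool.Agent.FRC.Orb2

/-!
# FRC/GoodE: good elements

`K = Orb a c` is a finite nontrivial `s`-group, so its center contains an element `y` of order `s`; `y` commutes with
`c ∈ K` and with `a * y * a⁻¹ ∈ K`.
-/

set_option autoImplicit false

namespace Pool.Agent.FRC

universe u

variable {G : Type u} [Group G] {F : Subgroup G} {a : G} {p : ℕ}

theorem good (H : HG p F a) {s : ℕ} (hs : s.Prime) {c : G} (hc : c ∈ F) (hcs : PE s c) (hc1 : c ≠ 1) :
    ∃ y ∈ F, y ^ s = 1 ∧ y ≠ 1 ∧ Commute y c ∧ Commute y (a * y * a⁻¹) := by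
  have : Fact s.Prime := ⟨hs⟩
  have : Finite (Orb a c) := (Orb_fin H c).to_subtype
  have hK : IsPGroup s (Orb a c) := by
    intro g
    obtain ⟨n, hn⟩ := Orb_pg H hs hc hcs g.1 g.2
    exact ⟨n, Subtype.ext (by simpa using hn)⟩
  have : Nontrivial (Orb a c) :=
    ⟨⟨⟨c, Orb_mem a c⟩, 1, fun h => hc1 (by simpa using congrArg Subtype.val h)⟩⟩
  have hcn : Nontrivial (Subgroup.center (Orb a c)) := hK.center_nontrivial
  obtain ⟨n, hn, hcard⟩ := (hK.to_subgroup (Subgroup.center (Orb a c))).nontrivial_iff_card.1 hcn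
  obtain ⟨y, hy⟩ := exists_prime_orderOf_dvd_card' (G := Subgroup.center (Orb a c)) s
    (by rw [hcard]; exact dvd_pow_self s hn.ne')
  have hcomm : ∀ g ∈ Orb a c, Commute (y : Orb a c).1 g := by
    intro g hg
    have h := Subgroup.mem_center_iff.1 y.2 ⟨g, hg⟩
    exact (congrArg Subtype.val h).symm
  refine ⟨(y : Orb a c).1, Orb_le H hc (y : Orb a c).2, ?_, ?_, hcomm c (Orb_mem a c),
    hcomm _ (Orb_inv a c (y : Orb a c).2)⟩
  · have h : y ^ s = 1 := by rw [← hy]; exact pow_orderOf_eq_one y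
    have h2 := congrArg (fun t : Subgroup.center (Orb a c) => ((t : Orb a c) : G)) h
    simpa using h2
  · intro h
    have h1 : y = 1 := Subtype.ext (Subtype.ext h)
    rw [h1, orderOf_one] at hy
    exact hs.one_lt.ne hy

end Pool.Agent.FRC
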