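import Pool.Agent.FRC.PEa

/-!
# FRC/Irr: a minimal `c`-invariant subgroup of a finite `q`-group is elementary abelian
-/

set_option autoImplicit false

namespace Pool.Agent.FRC

universe u

private theorem irr_min {G : Type u} [Group G] {c : G} (n : ℕ) : ∀ R : Subgroup G, (R : Set G).Finite → R ≠ ⊥ →
    (∀ y ∈ R, c * y * c⁻¹ ∈ R) → Nat.card R = n →
    ∃ R0 ≤ R, R0 ≠ ⊥ ∧ (∀ v ∈ R0, c * v * c⁻¹ ∈ R0) ∧
      ∀ S ≤ R0, S ≠ ⊥ → (∀ v ∈ S, c * v * c⁻¹ ∈ S) → S = R0 := by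
  induction n using Nat.strong_induction_on with
  | _ n ih =>
    intro R hf h1 hc hn
    by_cases h : ∃ S ≤ R, S ≠ ⊥ ∧ (∀ v ∈ S, c * v * c⁻¹ ∈ S) ∧ S ≠ R
    · obtain ⟨S, hSR, hS1, hSc, hne⟩ := h
      have hSf : (S : Set G).Finite := hf.subset hSR
      have hlt : Nat.card S < n := by
        rw [← hn]
        have : Finite R := hf.to_subtype
        have h2 : (S : Set G) ⊂ (R : Set G) := HasSubset.Subset.ssubset_of_ne hSR (fun e => hne (SetLike.coe_injective e))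
        exact Set.ncard_lt_ncard h2 hf
      obtain ⟨R0, h3, h4, h5, h6⟩ := ih _ hlt S hSf hS1 hSc rfl
      exact ⟨R0, h3.trans hSR, h4, h5, h6⟩
    · push Not at h
      exact ⟨R, le_rfl, h1, hc, fun S hS h2 h3 => h S hS h2 h3⟩

theorem irr {G : Type u} [Group G] {q : ℕ} (hq : q.Prime) {R : Subgroup G} (hRf : (R : Set G).Finite) (hR1 : R ≠ ⊥)
    (hR : PG q R) {c : G} (hc : ∀ y ∈ R, c * y * c⁻¹ ∈ R) :
    ∃ R0 ≤ R, R0 ≠ ⊥ ∧ (∀ v ∈ R0, ∀ w ∈ R0, Commute v w) ∧ (∀ v ∈ R0, v ^ q = 1) ∧ (∀ v ∈ R0, c * v * c⁻¹ ∈ R0) ∧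
      ∀ S ≤ R0, S ≠ ⊥ → (∀ v ∈ S, c * v * c⁻¹ ∈ S) → S = R0 := by
  obtain ⟨R0, h0R, h01, h0c, hmin⟩ := irr_min _ R hRf hR1 hc rfl
  have h0f : (R0 : Set G).Finite := hRf.subset h0R
  have hF : Finite R0 := h0f.to_subtype
  have hFact : Fact q.Prime := ⟨hq⟩
  have hP : IsPGroup q R0 := fun v => (hR v (h0R v.2)).imp fun n hn => Subtype.ext hn
  have hNt : Nontrivial R0 := (Subgroup.nontrivial_iff_ne_bot R0).2 h01
  -- surjectivity of conjugation
  have hsurj : ∀ v ∈ R0, ∃ w ∈ R0, v = c * w * c⁻¹ := by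
    intro v hv
    let f : R0 → R0 := fun w => ⟨c * w * c⁻¹, h0c w w.2⟩
    have hfi : Function.Injective f := by
      intro w w' h
      have h1 : c * (w : G) * c⁻¹ = c * (w' : G) * c⁻¹ := congrArg Subtype.val h
      exact Subtype.ext (mul_left_cancel (mul_right_cancel h1))
    obtain ⟨w, hw⟩ := Finite.surjective_of_injective hfi ⟨v, hv⟩
    exact ⟨w, w.2, (congrArg Subtype.val hw).symm⟩
  have hcen : (Subgroup.center R0).map R0.subtype = R0 := by
    refine hmin _ (Subgroup.map_subtype_le _) ?_ ?_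
    · intro h
      have h2 : Subgroup.center R0 = ⊥ := by
        rw [Subgroup.map_eq_bot_iff_of_injective _ R0.subtype_injective] at h
        exact h
      have h3 := hP.center_nontrivial
      exact (Subgroup.nontrivial_iff_ne_bot _).1 h3 h2
    · rintro _ ⟨z, hz, rfl⟩
      refine ⟨⟨c * z * c⁻¹, h0c z z.2⟩, ?_, rfl⟩
      rw [SetLike.mem_coe, Subgroup.mem_center_iff]
      rintro ⟨v, hv⟩
      obtain ⟨w, hw, rfl⟩ := hsurj v hv
      have h4 := (Subgroup.mem_center_iff.1 hz) ⟨w, hw⟩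
      have h5 : w * (z : G) = (z : G) * w := congrArg Subtype.val h4
      refine Subtype.ext ?_
      show c * w * c⁻¹ * (c * z * c⁻¹) = c * z * c⁻¹ * (c * w * c⁻¹)
      have e1 : c * w * c⁻¹ * (c * z * c⁻¹) = c * (w * z) * c⁻¹ := by group
      have e2 : c * z * c⁻¹ * (c * w * c⁻¹) = c * (z * w) * c⁻¹ := by group
      rw [e1, e2, h5]
  have hcomm : ∀ v ∈ R0, ∀ w ∈ R0, Commute v w := by
    intro v hv w hw
    have h6 : v ∈ (Subgroup.center R0).map R0.subtype := by rw [hcen]; exact hv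
    obtain ⟨z, hz, rfl⟩ := h6
    have h7 := (Subgroup.mem_center_iff.1 hz) ⟨w, hw⟩
    exact (congrArg Subtype.val h7).symm
  let Q : Subgroup G :=
    { carrier := {v | v ∈ R0 ∧ v ^ q = 1}
      one_mem' := ⟨R0.one_mem, one_pow q⟩
      mul_mem' := by
        rintro v w ⟨hv, hv'⟩ ⟨hw, hw'⟩
        exact ⟨R0.mul_mem hv hw, by rw [(hcomm v hv w hw).mul_pow, hv', hw', one_mul]⟩
      inv_mem' := by
        rintro v ⟨hv, hv'⟩
        exact ⟨R0.inv_mem hv, by rw [inv_pow, hv', inv_one]⟩ }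
  have hQ : Q = R0 := by
    refine hmin Q (fun v hv => hv.1) ?_ ?_
    · obtain ⟨v, hv1⟩ := exists_ne (1 : R0)
      obtain ⟨n, hn⟩ := (pe_iff hq).1 (hR v (h0R v.2))
      have hn0 : n ≠ 0 := by
        rintro rfl
        rw [pow_zero, orderOf_eq_one_iff] at hn
        exact hv1 (Subtype.ext hn)
      intro h
      have h8 : (v : G) ^ (q ^ (n - 1)) ∈ Q := by
        refine ⟨R0.pow_mem v.2 _, ?_⟩
        rw [← pow_mul, ← pow_succ, Nat.sub_add_cancel (Nat.pos_of_ne_zero hn0), ← hn, pow_orderOf_eq_one]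
      rw [h, Subgroup.mem_bot] at h8
      have h9 := orderOf_dvd_of_pow_eq_one h8
      rw [hn] at h9
      have h10 := (Nat.pow_dvd_pow_iff_le_right hq.one_lt).1 h9
      omega
    · rintro v ⟨hv, hv'⟩
      refine ⟨h0c v hv, ?_⟩
      rw [conj_pow, hv']
      group
  refine ⟨R0, h0R, h01, hcomm, fun v hv => ?_, h0c, hmin⟩
  have h11 : v ∈ Q := by rw [hQ]; exact hv
  exact h11.2

end Pool.Agent.FRC
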