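import Pool.Agent.FRC.LemG
import Pool.Agent.FRC.GoodE
import Pool.Agent.FRC.Irr

/-!
# FRC/Contra: an element of order `s` does not normalise a nontrivial finite `q`-subgroup of `F`, `q < s`

Assembly of `irr`, `good`, `no_rank2`, `Oq_min` and `lemG`.
-/

set_option autoImplicit false

namespace Pool.Agent.FRC

universe u

variable {G : Type u} [Group G] {F : Subgroup G} {a : G} {p : ℕ}

theorem contra (H : HG p F a) (hE : EPF F) {q s : ℕ} (hq : q.Prime) (hs : s.Prime) (hqs : q < s) {c0 : G}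
    (hc0 : c0 ∈ F) (hc : orderOf c0 = s) {R : Subgroup G} (hRF : R ≤ F) (hRf : (R : Set G).Finite) (hR1 : R ≠ ⊥)
    (hR : PG q R) (hRc : ∀ y ∈ R, c0 * y * c0⁻¹ ∈ R) : False := by
  obtain ⟨R0, hR0R, hR01, hcomm, hexp, hinv, hmin⟩ := irr hq hRf hR1 hR hRc
  have hndvd : ¬ s ∣ q - 1 := by
    intro h
    have h1 := Nat.le_of_dvd (by have := hq.two_le; omega) h
    omega
  have hc0s : c0 ^ s = 1 := by rw [← hc]; exact pow_orderOf_eq_one c0
  have hc01 : c0 ≠ 1 := by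
    intro h
    rw [h, orderOf_one] at hc
    exact hs.one_lt.ne hc
  have hPEc : PE s c0 := pe_of_pow hc0s
  have hR0F : ∀ v ∈ R0, v ∈ F := fun v hv => hRF (hR0R hv)
  have hnc : ∀ v ∈ R0, v ≠ 1 → ¬ Commute c0 v := by
    intro v hv hv1 hcv
    rcases epf_comm hE hs hq hqs.ne' hc0 (hR0F v hv) hPEc (pe_of_pow (hexp v hv)) hcv with h | h
    · exact hc01 h
    · exact hv1 h
  have hnz : ∀ v ∈ R0, v ≠ 1 → c0 * v * c0⁻¹ ∉ Subgroup.zpowers v := by
    intro v hv hv1 hm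
    exact hndvd (dvd_of_cyc hq hs (hexp v hv) hv1 hc0s hm (hnc v hv hv1))
  obtain ⟨y, hyF, hys, hy1, hyc, hya⟩ := good H hs hc0 hPEc hc01
  obtain ⟨z, hz, hz1⟩ : ∃ z ∈ R0, z ≠ 1 := by
    by_contra hcon
    push Not at hcon
    exact hR01 ((Subgroup.eq_bot_iff_forall R0).2 hcon)
  -- the group `H1`
  set H1 : Subgroup G := Subgroup.closure ({c0, y * z} : Set G) with hH1
  have h1f : (H1 : Set G).Finite := H.fin c0 (y * z)
  have h1s : IsSolvable H1 := H.sol c0 (y * z)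
  have h1F : H1 ≤ F := by
    rw [hH1, Subgroup.closure_le]
    rintro x (rfl | rfl)
    · exact hc0
    · exact F.mul_mem hyF (hR0F z hz)
  have h1fin : Finite H1 := h1f.to_subtype
  have hcH : c0 ∈ H1 := Subgroup.subset_closure (Set.mem_insert _ _)
  have hyzH : y * z ∈ H1 := Subgroup.subset_closure (Set.mem_insert_of_mem _ rfl)
  have hpow : ∀ n : ℕ, ∀ v ∈ R0, c0 ^ n * v * (c0 ^ n)⁻¹ ∈ R0 := by
    intro n
    induction n with
    | zero =>
      intro v hv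
      simpa using hv
    | succ n ih =>
      intro v hv
      have h := hinv _ (ih v hv)
      have e : c0 ^ (n + 1) * v * (c0 ^ (n + 1))⁻¹ = c0 * (c0 ^ n * v * (c0 ^ n)⁻¹) * c0⁻¹ := by
        rw [pow_succ']
        group
      rw [e]
      exact h
  have hinv' : ∀ v ∈ R0, c0⁻¹ * v * c0 ∈ R0 := by
    intro v hv
    have h := hpow (s - 1) v hv
    have e : c0 ^ (s - 1) = c0⁻¹ := by
      rw [eq_inv_iff_mul_eq_one, ← pow_succ, Nat.sub_add_cancel hs.one_lt.le]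
      exact hc0s
    rw [e, inv_inv] at h
    exact h
  have hkH : c0⁻¹ * z⁻¹ * c0 * z ∈ H1 := by
    have e : c0⁻¹ * z⁻¹ * c0 * z = c0⁻¹ * ((y * z)⁻¹ * c0 * (y * z)) := by
      have h : y⁻¹ * c0 * y = c0 := by
        rw [mul_assoc, ← hyc.eq, inv_mul_cancel_left]
      calc c0⁻¹ * z⁻¹ * c0 * z = c0⁻¹ * (z⁻¹ * c0 * z) := by group
        _ = c0⁻¹ * (z⁻¹ * (y⁻¹ * c0 * y) * z) := by rw [h]
        _ = _ := by group
    rw [e]
    exact H1.mul_mem (H1.inv_mem hcH) (H1.mul_mem (H1.mul_mem (H1.inv_mem hyzH) hcH) hyzH)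
  have hkR : c0⁻¹ * z⁻¹ * c0 * z ∈ R0 := R0.mul_mem (hinv' _ (R0.inv_mem hz)) hz
  have hk1 : c0⁻¹ * z⁻¹ * c0 * z ≠ 1 := by
    intro h
    apply hnc z hz hz1
    have h2 : c0 * z = z * c0 := by
      calc c0 * z = z * c0 * (c0⁻¹ * z⁻¹ * c0 * z) := by group
        _ = z * c0 := by rw [h, mul_one]
    exact h2
  have hS : R0 ⊓ H1 = R0 := by
    refine hmin _ inf_le_left ?_ ?_
    · intro h
      apply hk1
      have h2 : c0⁻¹ * z⁻¹ * c0 * z ∈ R0 ⊓ H1 := ⟨hkR, hkH⟩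
      rw [h, Subgroup.mem_bot] at h2
      exact h2
    · intro v hv
      exact ⟨hinv v hv.1, H1.mul_mem (H1.mul_mem hcH hv.2) (H1.inv_mem hcH)⟩
  have hR0H : R0 ≤ H1 := inf_eq_left.1 hS
  have hzH : z ∈ H1 := hR0H hz
  have hyH : y ∈ H1 := by
    have h := H1.mul_mem hyzH (H1.inv_mem hzH)
    rwa [mul_inv_cancel_right] at h
  have hwR : c0 * z * c0⁻¹ ∈ R0 := hinv z hz
  have hEH : EP H1 := ep_of_epf hE h1F
  -- elements of `R0` in `Oq s H1`
  have hOR : ∀ v (hv : v ∈ R0), (⟨v, hR0H hv⟩ : H1) ∈ Oq s H1 → v = 1 := by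
    intro v hv h
    have h1 : PE s (⟨v, hR0H hv⟩ : H1) := Oq_pg s H1 _ h
    have h2 : PE q (⟨v, hR0H hv⟩ : H1) := pe_of_pow (Subtype.ext (hexp v hv))
    exact congrArg Subtype.val (PE.eq_one hs hq hqs.ne' h1 h2)
  have hzw : Commute (⟨z, hzH⟩ : H1) ⟨c0 * z * c0⁻¹, hR0H hwR⟩ :=
    Subtype.ext (hcomm z hz _ hwR)
  have hzq : (⟨z, hzH⟩ : H1) ^ q = 1 := Subtype.ext (hexp z hz)
  have hwq : (⟨c0 * z * c0⁻¹, hR0H hwR⟩ : H1) ^ q = 1 := Subtype.ext (hexp _ hwR)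
  by_cases hyO : (⟨y, hyH⟩ : H1) ∈ Oq s H1
  · have h1 : Oq s H1 = ⊥ := by
      refine no_rank2 hEH hq hs hqs.ne hzq hwq hzw ?_ ?_ inferInstance (Oq_pg s H1)
      · intro h
        exact hz1 (congrArg Subtype.val h)
      · rintro ⟨k, hk⟩
        apply hnz z hz hz1
        refine ⟨k, ?_⟩
        have h2 := congrArg Subtype.val hk
        exact h2
    rw [h1, Subgroup.mem_bot] at hyO
    exact hy1 (congrArg Subtype.val hyO)
  · obtain ⟨t, ht, hts, T, hTn, hT1, hTc, hTt⟩ := Oq_min h1s hyO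
    by_cases htq : t = q
    · have h1 := (lemG H hE hs hyF hys hy1 H.nmem hya h1F h1f hyH hyO ht hts hTn hT1 hTc hTt).1
      rw [htq] at h1
      exact hndvd h1
    · apply hT1
      have hEQ : EP (H1 ⧸ Oq s H1) := ep_quot hEH _
      refine no_rank2 hEQ (t := q) (q := t) hq ht (Ne.symm htq)
        (u := QuotientGroup.mk' (Oq s H1) ⟨z, hzH⟩)
        (w := QuotientGroup.mk' (Oq s H1) ⟨c0 * z * c0⁻¹, hR0H hwR⟩) ?_ ?_ ?_ ?_ ?_ hTn
        (fun v hv => pe_of_pow (hTt v hv))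
      · rw [← map_pow, hzq, map_one]
      · rw [← map_pow, hwq, map_one]
      · exact hzw.map _
      · intro h
        rw [QuotientGroup.mk'_apply, QuotientGroup.eq_one_iff] at h
        exact hz1 (hOR z hz h)
      · rintro ⟨k, hk⟩
        apply hnz z hz hz1
        refine ⟨k, ?_⟩
        have hk' : (QuotientGroup.mk' (Oq s H1) ⟨z, hzH⟩) ^ k =
            QuotientGroup.mk' (Oq s H1) ⟨c0 * z * c0⁻¹, hR0H hwR⟩ := hk
        have hzk : z ^ k ∈ R0 := R0.zpow_mem hz k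
        have h2 : QuotientGroup.mk' (Oq s H1)
            ((⟨c0 * z * c0⁻¹, hR0H hwR⟩ : H1) * (⟨z, hzH⟩ ^ k)⁻¹) = 1 := by
          rw [map_mul, map_inv, map_zpow, hk', mul_inv_cancel]
        rw [QuotientGroup.mk'_apply, QuotientGroup.eq_one_iff] at h2
        have h3 : c0 * z * c0⁻¹ * (z ^ k)⁻¹ = 1 := by
          refine hOR _ (R0.mul_mem hwR (R0.inv_mem hzk)) ?_
          exact h2
        show z ^ k = c0 * z * c0⁻¹
        rw [mul_inv_eq_one] at h3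
        exact h3.symm

end Pool.Agent.FRC
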