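import Pool.Agent.FRC.ConjC

/-!
# FRC/EpfM: all elements of `F` have prime power order

Let `x ∈ F`, `n = orderOf x > 0` (`H.fo`).  If `n = 1` or `n` is a prime power, done (`PE`).  Otherwise `n = u * v` with
`u, v > 1` coprime (e.g. `u = l ^ (n.factorization l)` for a prime `l ∣ n`; `Nat.ordProj`, `Nat.ordCompl`).
`x1 = x^u` (order `v`) and `x2 = x^v` (order `u`) are nontrivial, commute and have coprime orders.  `conj_comm` twice: all
conjugates of `x1` commute with all conjugates of `x2` (`h x1 h⁻¹` commutes with `k x2 k⁻¹` iff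
`(k⁻¹ h) x1 (k⁻¹ h)⁻¹` commutes with `x2`).  So the normal closures `X1`, `X2` commute elementwise
(`Subgroup.closure_induction` twice, or centralizers).  Both are normal, nontrivial, contained in `F`, so contain `w0`;
`W = X1 ⊓ X2` is normal, `≠ ⊥` and commutative: contradiction with `hab`.
-/

set_option autoImplicit false

namespace Pool.Agent.FRC

universe u

variable {G : Type u} [Group G] {F : Subgroup G} {a : G} {p : ℕ}

theorem epf (H : HG p F a) {w0 : G} (hw0 : w0 ≠ 1)
    (hmin : ∀ N : Subgroup G, N.Normal → N ≤ F → N ≠ ⊥ → w0 ∈ N)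
    (hab : ∀ W : Subgroup G, W.Normal → W ≤ F → W ≠ ⊥ → (∀ v ∈ W, ∀ w ∈ W, Commute v w) → False) : EPF F := by
  intro x hx
  have hn := H.fo x
  by_contra hcon
  push Not at hcon
  have hx1 : x ≠ 1 := by
    rintro rfl
    exact hcon 2 Nat.prime_two (pe_one 2)
  have hn1 : orderOf x ≠ 1 := by rwa [Ne, orderOf_eq_one_iff]
  obtain ⟨l, hl, hld⟩ := Nat.exists_prime_and_dvd hn1
  obtain ⟨u, v, huv, hu1, hv1, hcop⟩ : ∃ u v : ℕ, u * v = orderOf x ∧ u ≠ 1 ∧ v ≠ 1 ∧ u.Coprime v := by
    refine ⟨l ^ (orderOf x).factorization l, orderOf x / l ^ (orderOf x).factorization l,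
      Nat.ordProj_mul_ordCompl_eq_self _ _, ?_, ?_, ?_⟩
    · have h1 : 0 < (orderOf x).factorization l := hl.factorization_pos_of_dvd hn.ne' hld
      exact (Nat.one_lt_pow h1.ne' hl.one_lt).ne'
    · intro h
      have h2 := Nat.ordProj_mul_ordCompl_eq_self (orderOf x) l
      rw [h, mul_one] at h2
      exact hcon l hl ⟨(orderOf x).factorization l, by rw [h2, pow_orderOf_eq_one]⟩
    · exact Nat.Coprime.pow_left _ (Nat.coprime_ordCompl hl hn.ne')
  have hu0 : u ≠ 0 := by
    rintro rfl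
    rw [zero_mul] at huv
    omega
  have hv0 : v ≠ 0 := by
    rintro rfl
    rw [mul_zero] at huv
    omega
  have o1 : orderOf (x ^ u) = v := by
    rw [orderOf_pow_of_dvd hu0 ⟨v, huv.symm⟩, ← huv, Nat.mul_div_cancel_left _ (Nat.pos_of_ne_zero hu0)]
  have o2 : orderOf (x ^ v) = u := by
    rw [orderOf_pow_of_dvd hv0 ⟨u, by rw [mul_comm]; exact huv.symm⟩, ← huv,
      Nat.mul_div_cancel _ (Nat.pos_of_ne_zero hv0)]
  have hF1 : x ^ u ∈ F := F.pow_mem hx u
  have hF2 : x ^ v ∈ F := F.pow_mem hx v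
  have hc12 : Commute (x ^ u) (x ^ v) := (Commute.refl x).pow_pow u v
  have hconj : ∀ h k : G, Commute (h * x ^ u * h⁻¹) (k * x ^ v * k⁻¹) := by
    intro h k
    have h1 := conj_comm H hF1 hF2 hc12 (by rw [o1, o2]; exact hcop.symm) (k⁻¹ * h)
    have h2 := congrArg (fun z => k * z * k⁻¹) h1.eq
    show h * x ^ u * h⁻¹ * (k * x ^ v * k⁻¹) = k * x ^ v * k⁻¹ * (h * x ^ u * h⁻¹)
    calc h * x ^ u * h⁻¹ * (k * x ^ v * k⁻¹)
        = k * (k⁻¹ * h * x ^ u * (k⁻¹ * h)⁻¹ * x ^ v) * k⁻¹ := by group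
      _ = k * (x ^ v * (k⁻¹ * h * x ^ u * (k⁻¹ * h)⁻¹)) * k⁻¹ := h2
      _ = k * x ^ v * k⁻¹ * (h * x ^ u * h⁻¹) := by group
  have : F.Normal := H.norm
  have hX1 : Subgroup.normalClosure ({x ^ u} : Set G) ≤ F :=
    Subgroup.normalClosure_le_normal (by simpa using hF1)
  have m1 : x ^ u ∈ Subgroup.normalClosure ({x ^ u} : Set G) :=
    Subgroup.subset_normalClosure (Set.mem_singleton _)
  have m2 : x ^ v ∈ Subgroup.normalClosure ({x ^ v} : Set G) :=
    Subgroup.subset_normalClosure (Set.mem_singleton _)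
  have b1 : Subgroup.normalClosure ({x ^ u} : Set G) ≠ ⊥ := by
    intro h
    rw [h, Subgroup.mem_bot] at m1
    rw [m1, orderOf_one] at o1
    exact hv1 o1.symm
  have b2 : Subgroup.normalClosure ({x ^ v} : Set G) ≠ ⊥ := by
    intro h
    rw [h, Subgroup.mem_bot] at m2
    rw [m2, orderOf_one] at o2
    exact hu1 o2.symm
  have hX2 : Subgroup.normalClosure ({x ^ v} : Set G) ≤ F :=
    Subgroup.normalClosure_le_normal (by simpa using hF2)
  have w1 := hmin _ Subgroup.normalClosure_normal hX1 b1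
  have w2 := hmin _ Subgroup.normalClosure_normal hX2 b2
  have c1 : Subgroup.normalClosure ({x ^ u} : Set G) ≤
      Subgroup.centralizer (Group.conjugatesOfSet ({x ^ v} : Set G)) := by
    rw [Subgroup.normalClosure, Subgroup.closure_le]
    intro y hy
    obtain ⟨y0, hy0, hyc⟩ := Group.mem_conjugatesOfSet_iff.mp hy
    rw [Set.mem_singleton_iff] at hy0
    subst hy0
    obtain ⟨h, rfl⟩ := isConj_iff.mp hyc
    rw [SetLike.mem_coe, Subgroup.mem_centralizer_iff]
    intro z hz
    obtain ⟨z0, hz0, hzc⟩ := Group.mem_conjugatesOfSet_iff.mp hz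
    rw [Set.mem_singleton_iff] at hz0
    subst hz0
    obtain ⟨k, rfl⟩ := isConj_iff.mp hzc
    exact (hconj h k).eq.symm
  have c2 : Subgroup.normalClosure ({x ^ v} : Set G) ≤
      Subgroup.centralizer (Subgroup.normalClosure ({x ^ u} : Set G) : Set G) := by
    nth_rw 1 [Subgroup.normalClosure]
    rw [Subgroup.closure_le]
    intro z hz
    rw [SetLike.mem_coe, Subgroup.mem_centralizer_iff]
    intro y hy
    exact ((Subgroup.mem_centralizer_iff.mp (c1 hy)) z hz).symm
  refine hab (Subgroup.normalClosure ({x ^ u} : Set G) ⊓ Subgroup.normalClosure ({x ^ v} : Set G))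
    inferInstance (inf_le_left.trans hX1) ?_ ?_
  · intro h
    have : w0 ∈ Subgroup.normalClosure ({x ^ u} : Set G) ⊓ Subgroup.normalClosure ({x ^ v} : Set G) :=
      ⟨w1, w2⟩
    rw [h, Subgroup.mem_bot] at this
    exact hw0 this
  · intro y hy z hz
    exact (Subgroup.mem_centralizer_iff.mp (c2 hz.2)) y hy.1

end Pool.Agent.FRC
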