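import Pool.Agent.FRC.MainM
import Pool.Agent.FRC.AbW
import Pool.Agent.FRC.EpfM

/-!
# FRC/Core2: the subdirectly irreducible case

If every nontrivial normal subgroup contained in `F` contains the commutator of `x` and `y`, where `x`, `y` have
`r`-power and `s`-power order for distinct primes `r`, `s`, then `x` and `y` commute.
-/

set_option autoImplicit false

namespace Pool.Agent.FRC

universe u

variable {G : Type u} [Group G] {F : Subgroup G} {a : G} {p : ℕ}

private theorem core2_aux (H : HG p F a) (hE : EPF F) {r : ℕ} (hr : r.Prime) {x w : G} (hx : x ∈ F)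
    (hxr : PE r x) (hx1 : x ≠ 1) (hmin : ∀ N : Subgroup G, N.Normal → N ≤ F → N ≠ ⊥ → w ∈ N) : PE r w := by
  obtain ⟨x', hx'F, hx'r, hx'1, -, hc⟩ := good H hr hx hxr hx1
  have hpg := ncl H hE hr hx'F hx'r hc
  have hn := H.norm
  refine hpg w (hmin _ Subgroup.normalClosure_normal ?_ ?_)
  · exact Subgroup.normalClosure_le_normal (by simpa using hx'F)
  · intro hb
    apply hx'1
    have h1 : x' ∈ Subgroup.normalClosure ({x'} : Set G) := Subgroup.subset_normalClosure (Set.mem_singleton _)
    rw [hb] at h1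
    exact Subgroup.mem_bot.1 h1

theorem core2 (H : HG p F a) {r s : ℕ} (hr : r.Prime) (hs : s.Prime) (hrs : r ≠ s) {x y : G} (hx : x ∈ F)
    (hy : y ∈ F) (hxr : PE r x) (hys : PE s y)
    (hmin : ∀ N : Subgroup G, N.Normal → N ≤ F → N ≠ ⊥ → x⁻¹ * y⁻¹ * x * y ∈ N) : Commute x y := by
  by_contra hw
  have hw0 : x⁻¹ * y⁻¹ * x * y ≠ 1 := by
    intro h
    apply hw
    have h2 : x * y = y * x := by
      calc x * y = y * x * (x⁻¹ * y⁻¹ * x * y) := by group
        _ = y * x := by rw [h, mul_one]
    exact h2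
  have hE : EPF F := epf H hw0 hmin
    (fun W hWn hWF hW1 hWa => ab_contra H hr hs hrs hx hy hxr hys hw hmin hWn hWF hW1 hWa)
  have hx1 : x ≠ 1 := by
    rintro rfl
    exact hw (Commute.one_left y)
  have hy1 : y ≠ 1 := by
    rintro rfl
    exact hw (Commute.one_right x)
  exact hw0 (PE.eq_one hr hs hrs (core2_aux H hE hr hx hxr hx1 hmin) (core2_aux H hE hs hy hys hy1 hmin))

end Pool.Agent.FRC
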