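import Mathlib

/-!
# FRC/Cyc: an element of order `q` normalising a cyclic group of order `t`

`x * v * x⁻¹ = v^k` (an integer `k`, or a natural number since `v^t = 1`); by induction `x^n * v * x^{-n} = v^(k^n)`, so
`v = v^(k^q)` and `k^q = 1` in `ZMod t` (`orderOf v = t`).  `k ≠ 1` in `ZMod t` since `x`, `v` do not commute.  So the unit
`k` of `ZMod t` has order `q` (prime), which divides `t - 1` (`ZMod.orderOf_dvd_card_sub_one` or `ZMod.pow_card_sub_one_eq_one`).
-/

set_option autoImplicit false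

namespace Pool.Agent.FRC

universe u

theorem dvd_of_cyc {G : Type u} [Group G] {t q : ℕ} (ht : t.Prime) (hq : q.Prime) {v x : G} (hv : v ^ t = 1)
    (hv1 : v ≠ 1) (hx : x ^ q = 1) (hm : x * v * x⁻¹ ∈ Subgroup.zpowers v) (hc : ¬ Commute x v) : q ∣ t - 1 := by
  have := Fact.mk ht
  have hord : orderOf v = t := orderOf_eq_prime hv hv1
  obtain ⟨k, hk⟩ := Subgroup.mem_zpowers_iff.1 hm
  have hpow : ∀ n : ℕ, x ^ n * v * (x ^ n)⁻¹ = v ^ (k ^ n) := by
    intro n
    induction n with
    | zero => simp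
    | succ n ih =>
      have h1 : x ^ (n + 1) * v * (x ^ (n + 1))⁻¹ = x ^ n * (x * v * x⁻¹) * (x ^ n)⁻¹ := by
        rw [pow_succ]
        group
      rw [h1, ← hk, ← conj_zpow, ih, ← zpow_mul, pow_succ]
  have h2 : ((k : ZMod t)) ^ q = 1 := by
    have h3 := hpow q
    rw [hx, one_mul, inv_one, mul_one] at h3
    have h4 : v ^ (k ^ q - 1) = 1 := by
      rw [zpow_sub, ← h3, zpow_one, mul_inv_cancel]
    have h5 := orderOf_dvd_iff_zpow_eq_one.2 h4
    rw [hord] at h5
    have h6 := (ZMod.intCast_zmod_eq_zero_iff_dvd (k ^ q - 1) t).2 h5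
    push_cast at h6
    exact sub_eq_zero.1 h6
  have h3 : (k : ZMod t) ≠ 1 := by
    intro h
    apply hc
    have h4 : ((k - 1 : ℤ) : ZMod t) = 0 := by
      push_cast
      rw [h, sub_self]
    have h5 := (ZMod.intCast_zmod_eq_zero_iff_dvd (k - 1) t).1 h4
    have h6 : v ^ (k - 1) = 1 := by
      rw [← orderOf_dvd_iff_zpow_eq_one, hord]
      exact h5
    have h7 : v ^ k = v := by
      rw [zpow_sub, zpow_one] at h6
      exact mul_inv_eq_one.1 h6
    rw [h7] at hk
    have h8 : v * x = x * v := by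
      rw [eq_mul_inv_iff_mul_eq] at hk
      exact hk
    exact h8.symm
  have h4 : orderOf (k : ZMod t) = q := by
    have := Fact.mk hq
    exact orderOf_eq_prime h2 h3
  have h5 : (k : ZMod t) ≠ 0 := by
    intro h
    rw [h, zero_pow hq.ne_zero] at h2
    exact zero_ne_one h2
  rw [← h4]
  exact orderOf_dvd_of_pow_eq_one (ZMod.pow_card_sub_one_eq_one h5)

end Pool.Agent.FRC
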