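import Mathlib

/-!
# FRC/Defs2: definitions for part 2 (kernel of a binary finite Frobenius group with complement of prime order)
-/

set_option autoImplicit false

namespace Pool.Agent.FRC

/-- Standing hypotheses: `G = F⟨a⟩`, `a` of prime order `p` acting on `F` without fixed points, two elements generate
a finite soluble group. -/
structure HG (p : ℕ) {G : Type*} [Group G] (F : Subgroup G) (a : G) : Prop where
  prime : p.Prime
  norm : F.Normal
  pow : a ^ p = 1
  nmem : a ∉ F
  gen : ∀ g : G, ∃ f ∈ F, ∃ k : ℕ, g = f * a ^ k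
  fpf : ∀ f ∈ F, a * f * a⁻¹ = f → f = 1
  fin : ∀ x y : G, ((Subgroup.closure ({x, y} : Set G) : Subgroup G) : Set G).Finite
  sol : ∀ x y : G, IsSolvable (Subgroup.closure ({x, y} : Set G))

/-- `x` has `r`-power order. -/
def PE (r : ℕ) {G : Type*} [Group G] (x : G) : Prop := ∃ n : ℕ, x ^ (r ^ n) = 1

/-- All elements of `S` have `r`-power order. -/
def PG (r : ℕ) {G : Type*} [Group G] (S : Subgroup G) : Prop := ∀ x ∈ S, PE r x

/-- All elements have prime power order. -/
def EP (H : Type*) [Group H] : Prop := ∀ x : H, ∃ t : ℕ, t.Prime ∧ PE t x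

/-- All elements of `F` have prime power order. -/
def EPF {G : Type*} [Group G] (F : Subgroup G) : Prop := ∀ x ∈ F, ∃ t : ℕ, t.Prime ∧ PE t x

/-- The largest normal `q`-subgroup. -/
def Oq (q : ℕ) (H : Type*) [Group H] : Subgroup H := sSup {P : Subgroup H | P.Normal ∧ PG q P}

/-- The subgroup generated by the conjugates of `x` under powers of `a`. -/
def Orb {G : Type*} [Group G] (a x : G) : Subgroup G :=
  Subgroup.closure {y | ∃ i : ℕ, y = a ^ i * x * (a ^ i)⁻¹}

end Pool.Agent.FRC
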