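import Pool.Agent.FRB.Rad

/-!
# FRC/Defs5: hypotheses for kernels whose elements have orders composed of primes `= 1 (mod 5)`
-/

set_option autoImplicit false

namespace Pool.Agent.FRC

open Pool.Agent.FRB

/-- The standing hypotheses. -/
structure Hyp5 {X : Type*} [Group X] (a : MulAut X) : Prop where
  tors : ∀ x : X, 0 < orderOf x
  primes : ∀ x : X, ∀ r : ℕ, r.Prime → r ∣ orderOf x → r % 5 = 1
  pow5 : ∀ x : X, a (a (a (a (a x)))) = x
  fpf : ∀ x : X, a x = x → x = 1
  two : ∀ x y : X, ((Subgroup.closure ({x, y} : Set X) : Subgroup X) : Set X).Finite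
  twoS : ∀ x y : X, IsSolvable (Subgroup.closure ({x, y} : Set X))
  orb : ∀ x : X, ((Subgroup.closure ({x, a x, a (a x), a (a (a x)), a (a (a (a x)))} : Set X) :
    Subgroup X) : Set X).Finite
  orbS : ∀ x : X, IsSolvable (Subgroup.closure ({x, a x, a (a x), a (a (a x)), a (a (a (a x)))} : Set X))

/-- Elements of `r`-power order whose cyclic subgroup is `a`-invariant. -/
def EE (r : ℕ) {X : Type*} [Group X] (a : MulAut X) : Set X :=
  {x | (∃ n : ℕ, x ^ (r ^ n) = 1) ∧ a x ∈ Subgroup.zpowers x}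

/-- The subgroup generated by the sets `EE s a` for the primes `s ≠ r`. -/
def Rp (r : ℕ) {X : Type*} [Group X] (a : MulAut X) : Subgroup X :=
  Subgroup.closure {x | ∃ s : ℕ, s.Prime ∧ s ≠ r ∧ x ∈ EE s a}

end Pool.Agent.FRC
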