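import Mathlib

/-!
# FRC/STb: an invariant Sylow subgroup; fixed points in quotients

`inv_sylow`: `Subgroup.zpowers a` is a `p`-group acting on `K` with exactly one fixed point, so `|K| = 1 (mod p)`
(`IsPGroup.card_modEq_card_fixedPoints`), so `p` does not divide `|K|`, nor the number of Sylow `r`-subgroups
(it divides `|K|`: `Sylow.card_dvd_index`, `Subgroup.index_dvd_card`).  `zpowers a` acts on `Sylow r K`
(`Sylow.pointwiseMulAction`); again by `IsPGroup.card_modEq_card_fixedPoints` there is a fixed point.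
(If `a = 1` then `K` is trivial.)

`fix_quot`: `a` induces an automorphism without fixed points on `K ⧸ N`: if `x⁻¹ * a x ∈ N` then `x ∈ N`, because
`z ↦ z⁻¹ * a z` is injective on `K`, maps the finite set `N` into, hence onto, itself.
-/

set_option autoImplicit false

namespace Pool.Agent.FRC

universe u

open scoped Pointwise

theorem inv_sylow {K : Type u} [Group K] [Finite K] {p : ℕ} (hp : p.Prime) (a : MulAut K) (hap : a ^ p = 1)
    (hfpf : ∀ x : K, a x = x → x = 1) (r : ℕ) [Fact r.Prime] :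
    ∃ P : Sylow r K, ∀ x ∈ (P : Subgroup K), a x ∈ (P : Subgroup K) := by
  haveI : Fact p.Prime := ⟨hp⟩
  have hG : IsPGroup p (Subgroup.zpowers a) := by
    intro g
    refine ⟨1, ?_⟩
    obtain ⟨g, k, rfl⟩ := g
    apply Subtype.ext
    change (a ^ k) ^ (p ^ 1) = 1
    rw [pow_one, ← zpow_natCast, ← zpow_mul, mul_comm, zpow_mul, zpow_natCast, hap, one_zpow]
  have hfix : MulAction.fixedPoints (Subgroup.zpowers a) K = {1} := by
    ext x
    simp only [MulAction.mem_fixedPoints, Set.mem_singleton_iff]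
    constructor
    · intro h
      exact hfpf x (h ⟨a, Subgroup.mem_zpowers a⟩)
    · rintro rfl g
      exact smul_one g
  have hK : Nat.card K ≡ 1 [MOD p] := by
    have := hG.card_modEq_card_fixedPoints K
    rw [hfix] at this
    simpa using this
  have hpK : ¬ p ∣ Nat.card K := by
    intro h
    have h1 : Nat.card K ≡ 0 [MOD p] := (Nat.modEq_zero_iff_dvd).2 h
    have h2 : 1 ≡ 0 [MOD p] := hK.symm.trans h1
    have h3 := (Nat.modEq_zero_iff_dvd).1 h2
    exact hp.one_lt.ne' (Nat.dvd_one.1 h3)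
  have hS : ¬ p ∣ Nat.card (Sylow r K) := by
    intro h
    obtain ⟨P⟩ : Nonempty (Sylow r K) := inferInstance
    exact hpK (h.trans ((Sylow.card_dvd_index P).trans (Subgroup.index_dvd_card _)))
  obtain ⟨P, hP⟩ := hG.nonempty_fixed_point_of_prime_not_dvd_card (Sylow r K) hS
  refine ⟨P, fun x hx => ?_⟩
  have h := hP ⟨a, Subgroup.mem_zpowers a⟩
  have h2 : (⟨a, Subgroup.mem_zpowers a⟩ : Subgroup.zpowers a) • (P : Subgroup K) =
      (P : Subgroup K) := congrArg (fun Q : Sylow r K => (Q : Subgroup K)) h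
  have h3 : (⟨a, Subgroup.mem_zpowers a⟩ : Subgroup.zpowers a) • x ∈
      (⟨a, Subgroup.mem_zpowers a⟩ : Subgroup.zpowers a) • (P : Subgroup K) :=
    Subgroup.smul_mem_pointwise_smul _ _ _ hx
  rw [h2] at h3
  exact h3

theorem fix_quot {K : Type u} [Group K] [Finite K] (a : MulAut K) (hfpf : ∀ x : K, a x = x → x = 1)
    (N : Subgroup K) (hN : ∀ x ∈ N, a x ∈ N) {x : K} (hx : x⁻¹ * a x ∈ N) : x ∈ N := by
  let φ : N → N := fun z => ⟨(z : K)⁻¹ * a z, N.mul_mem (N.inv_mem z.2) (hN z z.2)⟩
  have hinj : ∀ z w : K, z⁻¹ * a z = w⁻¹ * a w → z = w := by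
    intro z w h
    have h1 : a (z * w⁻¹) = z * w⁻¹ := by
      rw [map_mul, map_inv]
      have : a z = z * (w⁻¹ * a w) := by rw [← h]; group
      rw [this]; group
    have h2 := hfpf _ h1
    exact mul_inv_eq_one.1 h2
  have hφ : Function.Injective φ := by
    intro z w h
    exact Subtype.ext (hinj _ _ (congrArg Subtype.val h))
  have hsurj : Function.Surjective φ := Finite.surjective_of_injective hφ
  obtain ⟨z, hz⟩ := hsurj ⟨x⁻¹ * a x, hx⟩
  have h := hinj _ _ (congrArg Subtype.val hz)
  rw [← h]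
  exact z.2

end Pool.Agent.FRC
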