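import Pool.Agent.FRC.STa
import Pool.Agent.FRC.STb

/-!
# FRC/STc: a finite soluble group with a fixed-point-free automorphism of prime order is nilpotent

`nilp`: strong induction on `|K|` over all groups of the universe.  Let `K` be nontrivial.  The last nontrivial term `A`
of the derived series is commutative, characteristic, nontrivial (`IsSolvable`).  Let `s` be a prime divisor of `|A|`,
`V = {v ∈ A | v^s = 1}`, a nontrivial characteristic subgroup (so normal and `a`-invariant), commutative.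
`K ⧸ V` with the induced automorphism satisfies the hypotheses (`fix_quot`), so it is nilpotent by induction.
Let `r ≠ s` be a prime, `R` an `a`-invariant Sylow `r`-subgroup (`inv_sylow`).  By `cop_comm`, `R` centralises `V`.
The image of `R` in `K ⧸ V` is a Sylow subgroup of a nilpotent group, so normal, so `R V` is normal in `K`; `R` is the
set of all elements of `R V` of `r`-power order (`R V` is a direct product of the `r`-group `R` and the `s`-group `V`), so
`R` is normal in `K`.  For `r = s`: a Sylow `s`-subgroup contains the normal `s`-subgroup `V` and its image in `K ⧸ V` is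
normal, so it is normal.  So all Sylow subgroups are normal and `K` is nilpotent (`Group.isNilpotent_of_finite_tfae`).

Consequences: `cop_of_fpf` (elements of coprime orders of a finite nilpotent group commute) and `pgroup_of_fpf`
(in a finite nilpotent group the elements of `r`-power order form the normal Sylow subgroup).
-/

set_option autoImplicit false

namespace Pool.Agent.FRC

universe u

/-- elements of prime power order lie in a normal Sylow subgroup -/
private theorem stc_mem {K : Type u} [Group K] [Finite K] {r : ℕ} [Fact r.Prime] (P : Sylow r K)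
    (hP : (P : Subgroup K).Normal) {x : K} (hx : ∃ n : ℕ, x ^ (r ^ n) = 1) : x ∈ (P : Subgroup K) := by
  have hp : IsPGroup r (Subgroup.zpowers x) := by
    obtain ⟨n, hn⟩ := hx
    rintro ⟨y, hy⟩
    obtain ⟨k, rfl⟩ := Subgroup.mem_zpowers_iff.1 hy
    refine ⟨n, Subtype.ext ?_⟩
    show (x ^ k) ^ (r ^ n) = 1
    rw [← zpow_natCast, zpow_comm, zpow_natCast, hn, one_zpow]
  obtain ⟨Q, hQ⟩ := hp.exists_le_sylow
  have := Sylow.unique_of_normal P hP
  have h1 : Q = P := Subsingleton.elim _ _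
  rw [← h1]
  exact hQ (Subgroup.mem_zpowers x)

theorem cop_of_nilp {K : Type u} [Group K] [Finite K] (hK : Group.IsNilpotent K) {x y : K}
    (h : (orderOf x).Coprime (orderOf y)) : Commute x y := by
  obtain ⟨φ⟩ := (Group.isNilpotent_of_finite_tfae.out 0 4 rfl rfl).1 hK
  have hinj : Function.Injective φ.symm := φ.symm.injective
  show x * y = y * x
  apply hinj
  rw [map_mul, map_mul]
  funext p P
  rw [Pi.mul_apply, Pi.mul_apply, Pi.mul_apply, Pi.mul_apply]
  have hpp : Fact (p : ℕ).Prime := ⟨Nat.prime_of_mem_primeFactors p.2⟩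
  have key : ∀ (z : K) (m : ℕ), z ^ m = 1 → ¬ (p : ℕ) ∣ m → φ.symm z p P = 1 := by
    intro z m hz hm
    have h1 : (φ.symm z p P) ^ m = 1 := by
      have h2 : (φ.symm z) ^ m = 1 := by rw [← map_pow, hz, map_one]
      have h3 := congrFun (congrFun h2 p) P
      rw [Pi.pow_apply, Pi.pow_apply] at h3
      exact h3
    obtain ⟨k, hk⟩ := P.2 (φ.symm z p P)
    have h4 := orderOf_dvd_of_pow_eq_one h1
    have h5 := orderOf_dvd_of_pow_eq_one hk
    have h6 : Nat.Coprime m ((p : ℕ) ^ k) :=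
      Nat.Coprime.pow_right k (((Nat.Prime.coprime_iff_not_dvd hpp.out).2 hm).symm)
    have h7 : orderOf (φ.symm z p P) = 1 := Nat.eq_one_of_dvd_coprimes h6 h4 h5
    exact orderOf_eq_one_iff.1 h7
  by_cases hx : (p : ℕ) ∣ orderOf x
  · have hy : ¬ (p : ℕ) ∣ orderOf y := by
      intro hy
      exact Nat.not_coprime_of_dvd_of_dvd hpp.out.one_lt hx hy h
    rw [key y _ (pow_orderOf_eq_one y) hy, mul_one, one_mul]
  · rw [key x _ (pow_orderOf_eq_one x) hx, mul_one, one_mul]

theorem pgroup_of_nilp {K : Type u} [Group K] [Finite K] (hK : Group.IsNilpotent K) {r : ℕ} (hr : r.Prime)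
    {S : Set K} (hS : Subgroup.closure S = ⊤) (h : ∀ x ∈ S, ∃ n : ℕ, x ^ (r ^ n) = 1) (x : K) :
    ∃ n : ℕ, x ^ (r ^ n) = 1 := by
  have : Fact r.Prime := ⟨hr⟩
  obtain ⟨P⟩ : Nonempty (Sylow r K) := inferInstance
  have hP : (P : Subgroup K).Normal := (Group.isNilpotent_of_finite_tfae.out 0 3 rfl rfl).1 hK r ‹_› P
  have h1 : Subgroup.closure S ≤ (P : Subgroup K) := by
    rw [Subgroup.closure_le]
    intro z hz
    exact stc_mem P hP (h z hz)
  have h2 : x ∈ (P : Subgroup K) := by
    apply h1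
    rw [hS]
    trivial
  obtain ⟨n, hn⟩ := P.2 ⟨x, h2⟩
  exact ⟨n, congrArg Subtype.val hn⟩

/-- a non-trivial characteristic elementary abelian subgroup of a non-trivial soluble group -/
private theorem stc_V (K : Type u) [Group K] [Finite K] [Nontrivial K] (hsol : Group.IsSolvable K) :
    ∃ (s : ℕ) (V : Subgroup K), s.Prime ∧ V ≠ ⊥ ∧ (∀ v ∈ V, ∀ w ∈ V, Commute v w) ∧ (∀ v ∈ V, v ^ s = 1) ∧
      ∀ φ : MulAut K, ∀ v ∈ V, φ v ∈ V := by
  classical
  obtain ⟨N, hN⟩ := (Group.isSolvable_def K).1 hsol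
  have hex : ∃ n, derivedSeries K n = ⊥ := ⟨N, hN⟩
  have h0 : Nat.find hex ≠ 0 := by
    intro h
    have h1 := Nat.find_spec hex
    rw [h, derivedSeries_zero] at h1
    exact (bot_ne_top : (⊥ : Subgroup K) ≠ ⊤) h1.symm
  obtain ⟨m, hm⟩ := Nat.exists_eq_succ_of_ne_zero h0
  have hA : derivedSeries K m ≠ ⊥ := Nat.find_min hex (by omega)
  have hA1 : ⁅derivedSeries K m, derivedSeries K m⁆ = ⊥ := by
    have h1 := Nat.find_spec hex
    rw [hm] at h1
    rwa [derivedSeries_succ] at h1
  set A : Subgroup K := derivedSeries K m with hAdef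
  have hcomm : ∀ v ∈ A, ∀ w ∈ A, Commute v w := by
    intro v hv w hw
    have h1 := Subgroup.commutator_mem_commutator hv hw
    rw [hA1, Subgroup.mem_bot] at h1
    exact commutatorElement_eq_one_iff_commute.1 h1
  have hchar : ∀ φ : MulAut K, ∀ v ∈ A, φ v ∈ A := by
    intro φ v hv
    have h1 : A.Characteristic := derivedSeries_characteristic K m
    have h2 := h1.fixed φ
    rw [← h2] at hv
    exact hv
  have hcard : Nat.card A ≠ 1 := by
    rw [Ne, Subgroup.card_eq_one]
    exact hA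
  obtain ⟨s, hs, hsd⟩ := Nat.exists_prime_and_dvd hcard
  have : Fact s.Prime := ⟨hs⟩
  obtain ⟨x, hx⟩ := exists_prime_orderOf_dvd_card' s hsd
  let V : Subgroup K :=
    { carrier := {v | v ∈ A ∧ v ^ s = 1}
      mul_mem' := by
        rintro a b ⟨ha, ha'⟩ ⟨hb, hb'⟩
        refine ⟨A.mul_mem ha hb, ?_⟩
        rw [(hcomm a ha b hb).mul_pow, ha', hb', mul_one]
      one_mem' := ⟨A.one_mem, one_pow _⟩
      inv_mem' := by
        rintro a ⟨ha, ha'⟩
        refine ⟨A.inv_mem ha, ?_⟩
        rw [inv_pow, ha', inv_one] }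
  refine ⟨s, V, hs, ?_, ?_, ?_, ?_⟩
  · intro hV
    have h1 : (x : K) ∈ V := by
      refine ⟨x.2, ?_⟩
      have h2 : x ^ s = 1 := by rw [← hx]; exact pow_orderOf_eq_one x
      exact congrArg Subtype.val h2
    rw [hV, Subgroup.mem_bot] at h1
    have h3 : x = 1 := Subtype.ext h1
    rw [h3, orderOf_one] at hx
    exact hs.one_lt.ne hx
  · exact fun v hv w hw => hcomm v hv.1 w hw.1
  · exact fun v hv => hv.2
  · intro φ v hv
    refine ⟨hchar φ v hv.1, ?_⟩
    rw [← map_pow, hv.2, map_one]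

theorem nilp {p : ℕ} (hp : p.Prime) (n : ℕ) : ∀ (K : Type u) [Group K] [Finite K], IsSolvable K →
    ∀ a : MulAut K, a ^ p = 1 → (∀ x : K, a x = x → x = 1) → Nat.card K = n → Group.IsNilpotent K := by
  induction n using Nat.strong_induction_on with
  | _ n ih =>
  intro K _ _ hsol a hap hfpf hn
  rcases subsingleton_or_nontrivial K with hK | hK
  · infer_instance
  obtain ⟨s, V, hs, hV, hVab, hVs, hVc⟩ := stc_V K hsol
  have hVn : V.Normal := ⟨fun v hv g => by
    have h1 := hVc (MulAut.conj g) v hv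
    rwa [MulAut.conj_apply] at h1⟩
  have hmap : V.map (a : K ≃* K).toMonoidHom = V := by
    apply le_antisymm
    · rintro _ ⟨v, hv, rfl⟩
      exact hVc a v hv
    · intro v hv
      exact ⟨(a⁻¹ : MulAut K) v, hVc _ v hv, MulAut.apply_inv_self K a v⟩
  let b : MulAut (K ⧸ V) := QuotientGroup.congr V V a hmap
  have hb : ∀ (k : ℕ) (x : K), (b ^ k) (QuotientGroup.mk x) = QuotientGroup.mk ((a ^ k) x) := by
    intro k
    induction k with
    | zero => intro x; rfl
    | succ k ihk =>
      intro x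
      rw [pow_succ, pow_succ, MulAut.mul_apply, MulAut.mul_apply, ← ihk]
      rfl
  have hbp : b ^ p = 1 := by
    ext q
    obtain ⟨x, rfl⟩ := QuotientGroup.mk_surjective q
    rw [hb, hap]
    rfl
  have hbf : ∀ q : K ⧸ V, b q = q → q = 1 := by
    intro q hq
    obtain ⟨x, rfl⟩ := QuotientGroup.mk_surjective q
    have h1 : (QuotientGroup.mk x : K ⧸ V) = QuotientGroup.mk (a x) := hq.symm
    rw [QuotientGroup.eq] at h1
    rw [QuotientGroup.eq_one_iff]
    exact fix_quot a hfpf V (hVc a) h1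
  have hcard : Nat.card (K ⧸ V) < n := by
    have h1 := Subgroup.card_eq_card_quotient_mul_card_subgroup V
    have h2 : 1 < Nat.card V := (Subgroup.one_lt_card_iff_ne_bot V).2 hV
    have h3 : 0 < Nat.card (K ⧸ V) := Nat.card_pos
    rw [hn] at h1
    rw [h1]
    exact lt_mul_of_one_lt_right h3 h2
  have hsol' : Group.IsSolvable K := hsol
  have hsq : Group.IsSolvable (K ⧸ V) := inferInstance
  have hnil : Group.IsNilpotent (K ⧸ V) := ih _ hcard (K ⧸ V) hsq b hbp hbf rfl
  refine (Group.isNilpotent_of_finite_tfae.out 3 0 rfl rfl).1 ?_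
  intro r hr P
  have hnorm : ∀ Q : Sylow r K, ∀ ρ ∈ (Q : Subgroup K), ∀ g : K, ∃ ρ' ∈ (Q : Subgroup K), ∃ v ∈ V,
      g * ρ * g⁻¹ = ρ' * v := by
    intro Q ρ hρ g
    have h1 : ((Q.mapSurjective (QuotientGroup.mk'_surjective V) : Sylow r (K ⧸ V)) :
        Subgroup (K ⧸ V)).Normal :=
      (Group.isNilpotent_of_finite_tfae.out 0 3 rfl rfl).1 hnil r hr _
    rw [Sylow.coe_mapSurjective] at h1
    have h2 := h1.conj_mem (QuotientGroup.mk' V ρ) ⟨ρ, hρ, rfl⟩ (QuotientGroup.mk' V g)
    rw [← map_mul, ← map_inv, ← map_mul] at h2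
    obtain ⟨ρ', hρ', h3⟩ := h2
    have h4 : (QuotientGroup.mk ρ' : K ⧸ V) = QuotientGroup.mk (g * ρ * g⁻¹) := h3
    rw [QuotientGroup.eq] at h4
    exact ⟨ρ', hρ', ρ'⁻¹ * (g * ρ * g⁻¹), h4, by group⟩
  by_cases hrs : r = s
  · subst hrs
    have hVP : V ≤ (P : Subgroup K) := by
      have h1 : IsPGroup r V := by
        rintro ⟨v, hv⟩
        refine ⟨1, Subtype.ext ?_⟩
        show v ^ (r ^ 1) = 1
        rw [pow_one]
        exact hVs v hv
      obtain ⟨Q, hQ⟩ := h1.exists_le_sylow
      obtain ⟨g, hg⟩ := MulAction.exists_smul_eq K Q P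
      intro v hv
      have h2 : g⁻¹ * v * g⁻¹⁻¹ ∈ V := hVn.conj_mem v hv g⁻¹
      have h3 := hQ h2
      rw [← hg, Sylow.coe_subgroup_smul]
      refine Subgroup.mem_pointwise_smul_iff_inv_smul_mem.2 ?_
      rw [← map_inv, MulAut.smul_def, MulAut.conj_apply]
      exact h3
    refine ⟨fun ρ hρ g => ?_⟩
    obtain ⟨ρ', hρ', v, hv, h1⟩ := hnorm P ρ hρ g
    rw [h1]
    exact Subgroup.mul_mem _ hρ' (hVP hv)
  · obtain ⟨R, hR⟩ := inv_sylow hp a hap hfpf r
    have hcop : Nat.Coprime (Nat.card (R : Subgroup K)) s := by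
      obtain ⟨k, hk⟩ := IsPGroup.iff_card.1 R.2
      rw [hk]
      exact Nat.Coprime.pow_left k ((Nat.coprime_primes hr.out hs).2 hrs)
    have hcm := cop_comm hp a hap hfpf V R (hVc a) hR hVab (fun ρ _ v hv => hVn.conj_mem v hv ρ) s hVs hcop
    have hRn : (R : Subgroup K).Normal := by
      refine ⟨fun ρ hρ g => ?_⟩
      obtain ⟨ρ', hρ', v, hv, h1⟩ := hnorm R ρ hρ g
      obtain ⟨k, hk⟩ := R.2 ⟨ρ, hρ⟩
      obtain ⟨k', hk'⟩ := R.2 ⟨ρ', hρ'⟩
      have e1 : ρ ^ (r ^ k) = 1 := congrArg Subtype.val hk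
      have e2 : ρ' ^ (r ^ k') = 1 := congrArg Subtype.val hk'
      have e3 : (g * ρ * g⁻¹) ^ (r ^ (k + k')) = 1 := by
        rw [conj_pow, pow_add, pow_mul, e1, one_pow, mul_one, mul_inv_cancel]
      have e4 : v ^ (r ^ (k + k')) = 1 := by
        rw [h1, (hcm ρ' hρ' v hv).mul_pow, pow_add, mul_comm (r ^ k), pow_mul ρ', e2, one_pow, one_mul] at e3
        rw [pow_add, mul_comm (r ^ k)]
        exact e3
      have e5 : orderOf v = 1 := by
        refine Nat.eq_one_of_dvd_coprimes ?_ (orderOf_dvd_of_pow_eq_one e4)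
          (orderOf_dvd_of_pow_eq_one (hVs v hv))
        exact Nat.Coprime.pow_left _ ((Nat.coprime_primes hr.out hs).2 hrs)
      rw [h1, orderOf_eq_one_iff.1 e5, mul_one]
      exact hρ'
    have := Sylow.unique_of_normal R hRn
    have h2 : P = R := Subsingleton.elim _ _
    rw [h2]
    exact hRn

end Pool.Agent.FRC
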