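import Pool.Agent.FRC.Defs5
import Pool.Agent.FRC.STc

/-!
# FRC/EEa: generation by, and commutation of, eigen-elements for different primes

* `sub_nilp`: a finite soluble `a`-invariant subgroup `S` is nilpotent: `nilp` with `p = 5` for the automorphism
  `res a S hS H.pow5` of `S` (its fifth power is 1 by `H.pow5`; no fixed points by `H.fpf`).
* `orb_pgroup`: if `x^(r^n) = 1` then the closure `O` of the orbit of `x` (`inv_orb`-like: it is `a`-invariant, finite,
  soluble) consists of elements of `r`-power order (`pgroup_of_nilp` with the generating set of conjugates... the five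
  generators have the same order as `x`).
* `t_gen`: `x^(r^n) = 1`, `r` prime, implies `x ∈ closure (EE r a)`: clear if `x = 1`; otherwise `r` divides `orderOf x`,
  so `r % 5 = 1` (`H.primes`) and there is a root `k` (`exists_root`).  The type `O` with `res a O` satisfies
  `FRB.Hyp r` (`tors` by `orb_pgroup`); by `FRB.gen` (with `S = ⊤`) it is generated by eigen-elements `Eig r k _ i`, whose
  images in `X` lie in `EE r a` (`Eig.mem`).
* `EE_comm`: `x ∈ EE r a`, `y ∈ EE s a`, `r ≠ s` primes: `closure {x,y}` is `a`-invariant (`inv_closure`), finite and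
  soluble, so nilpotent; `x`, `y` have coprime orders, so they commute (`cop_of_nilp` in the subgroup).
* `all_gen`: every `x` is a product of powers of itself of prime power order (`x` of order `n`: `zpowers x` is generated
  by the elements `x^(n / r^(v_r n))`, r | n; induct on the number of prime factors or use
  `Nat.exists_eq_pow_mul_and_not_dvd` and Bezout), and each lies in some `closure (EE r a)` by `t_gen`.
-/

set_option autoImplicit false

namespace Pool.Agent.FRC

open Pool.Agent.FRB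

universe u

variable {X : Type u} [Group X] {a : MulAut X}

private theorem inv_orb5 (H : Hyp5 a) (x : X) :
    Inv a (Subgroup.closure ({x, a x, a (a x), a (a (a x)), a (a (a (a x)))} : Set X)) := by
  apply FRB.inv_closure
  intro y hy
  apply Subgroup.subset_closure
  simp only [Set.mem_insert_iff, Set.mem_singleton_iff] at hy ⊢
  rcases hy with rfl | rfl | rfl | rfl | rfl
  · exact Or.inr (Or.inl rfl)
  · exact Or.inr (Or.inr (Or.inl rfl))
  · exact Or.inr (Or.inr (Or.inr (Or.inl rfl)))
  · exact Or.inr (Or.inr (Or.inr (Or.inr rfl)))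
  · exact Or.inl (H.pow5 x)

theorem sub_nilp (H : Hyp5 a) {S : Subgroup X} (hS : Inv a S) (hf : (S : Set X).Finite) (hs : IsSolvable S) :
    Group.IsNilpotent S := by
  have hfin : Finite S := hf.to_subtype
  refine nilp (p := 5) (by norm_num) (Nat.card S) S hs (res a S hS H.pow5) ?_ ?_ rfl
  · ext x
    have h1 : (((res a S hS H.pow5) ^ 5) x : X) = a (a (a (a (a x)))) := rfl
    rw [h1, H.pow5]
    rfl
  · intro x hx
    apply Subtype.ext
    exact H.fpf x (congrArg Subtype.val hx)

theorem orb_pgroup (H : Hyp5 a) {r : ℕ} (hr : r.Prime) {x : X} (hx : ∃ n : ℕ, x ^ (r ^ n) = 1) :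
    ∀ y ∈ Subgroup.closure ({x, a x, a (a x), a (a (a x)), a (a (a (a x)))} : Set X), ∃ n : ℕ, y ^ (r ^ n) = 1 := by
  intro y hy
  have hfin : Finite (Subgroup.closure ({x, a x, a (a x), a (a (a x)), a (a (a (a x)))} : Set X)) :=
    (H.orb x).to_subtype
  have hn := sub_nilp H (inv_orb5 H x) (H.orb x) (H.orbS x)
  obtain ⟨n, hn1⟩ := hx
  have hpw : ∀ z : X, z ^ (r ^ n) = 1 → (a z) ^ (r ^ n) = 1 := fun z hz => by
    rw [← map_pow, hz, map_one]
  have hall : ∀ z ∈ ({x, a x, a (a x), a (a (a x)), a (a (a (a x)))} : Set X), z ^ (r ^ n) = 1 := by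
    intro z hz
    simp only [Set.mem_insert_iff, Set.mem_singleton_iff] at hz
    rcases hz with rfl | rfl | rfl | rfl | rfl
    · exact hn1
    · exact hpw _ hn1
    · exact hpw _ (hpw _ hn1)
    · exact hpw _ (hpw _ (hpw _ hn1))
    · exact hpw _ (hpw _ (hpw _ (hpw _ hn1)))
  obtain ⟨m, hm⟩ := pgroup_of_nilp hn hr (Subgroup.closure_closure_coe_preimage
    (k := ({x, a x, a (a x), a (a (a x)), a (a (a (a x)))} : Set X)))
    (fun z hz => ⟨n, Subtype.ext (hall z hz)⟩) ⟨y, hy⟩
  exact ⟨m, congrArg Subtype.val hm⟩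

theorem t_gen (H : Hyp5 a) {r : ℕ} (hr : r.Prime) {x : X} (hx : ∃ n : ℕ, x ^ (r ^ n) = 1) :
    x ∈ Subgroup.closure (EE r a) := by
  by_cases h1 : x = 1
  · rw [h1]
    exact one_mem _
  have hp := orb_pgroup H hr hx
  have hI := inv_orb5 H x
  have hf := H.orb x
  have hxO : x ∈ Subgroup.closure ({x, a x, a (a x), a (a (a x)), a (a (a (a x)))} : Set X) :=
    Subgroup.subset_closure (by simp)
  revert hp hI hf hxO
  generalize Subgroup.closure ({x, a x, a (a x), a (a (a x)), a (a (a (a x)))} : Set X) = O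
  intro hp hI hf hxO
  have hfin : Finite O := hf.to_subtype
  obtain ⟨n, hn⟩ := hx
  have hdvd : orderOf x ∣ r ^ n := orderOf_dvd_of_pow_eq_one hn
  have hrx : r ∣ orderOf x := by
    obtain ⟨j, -, hj⟩ := (Nat.dvd_prime_pow hr).1 hdvd
    rcases Nat.eq_zero_or_pos j with h0 | h0
    · rw [h0, pow_zero, orderOf_eq_one_iff] at hj
      exact absurd hj h1
    · rw [hj]
      exact dvd_pow_self r h0.ne'
  obtain ⟨k, hk⟩ := exists_root hr (H.primes x r hr hrx)
  have hyp : Hyp r (res a O hI H.pow5) :=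
    { tors := fun y => by
        obtain ⟨m, hm⟩ := hp y y.2
        exact ⟨m, Subtype.ext hm⟩
      pow5 := fun y => Subtype.ext (H.pow5 y)
      fpf := fun y hy => Subtype.ext (H.fpf y (congrArg Subtype.val hy))
      two := fun y z => Set.toFinite _
      orb := fun y => Set.toFinite _ }
  have hg := FRB.gen hk hyp (S := ⊤) (fun y _ => trivial) (x := ⟨x, hxO⟩) trivial
  have hmap : Subgroup.map O.subtype (Subgroup.closure {e : O | e ∈ (⊤ : Subgroup O) ∧
      (Eig r k (res a O hI H.pow5) 1 e ∨ Eig r k (res a O hI H.pow5) 2 e ∨ Eig r k (res a O hI H.pow5) 3 e ∨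
        Eig r k (res a O hI H.pow5) 4 e)}) ≤ Subgroup.closure (EE r a) := by
    rw [Subgroup.map_le_iff_le_comap, Subgroup.closure_le]
    rintro e ⟨-, he⟩
    have key : ∀ i : ℕ, Eig r k (res a O hI H.pow5) i e → (e : X) ∈ Subgroup.closure (EE r a) := by
      intro i hi
      apply Subgroup.subset_closure
      obtain ⟨m, hm⟩ := Subgroup.mem_zpowers_iff.1 (hi.mem hk)
      obtain ⟨N, hN, -⟩ := hi
      refine ⟨⟨N, congrArg Subtype.val hN⟩, Subgroup.mem_zpowers_iff.2 ⟨m, ?_⟩⟩
      exact congrArg Subtype.val hm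
    rcases he with h | h | h | h
    · exact key 1 h
    · exact key 2 h
    · exact key 3 h
    · exact key 4 h
  exact hmap (Subgroup.mem_map_of_mem O.subtype hg)

theorem EE_comm (H : Hyp5 a) {r s : ℕ} (hr : r.Prime) (hs : s.Prime) (hrs : r ≠ s) {x y : X} (hx : x ∈ EE r a)
    (hy : y ∈ EE s a) : Commute x y := by
  have hxC : x ∈ Subgroup.closure ({x, y} : Set X) := Subgroup.subset_closure (by simp)
  have hyC : y ∈ Subgroup.closure ({x, y} : Set X) := Subgroup.subset_closure (by simp)
  have hI : Inv a (Subgroup.closure ({x, y} : Set X)) := by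
    apply FRB.inv_closure
    intro z hz
    simp only [Set.mem_insert_iff, Set.mem_singleton_iff] at hz
    rcases hz with rfl | rfl
    · exact (Subgroup.zpowers_le.2 hxC) hx.2
    · exact (Subgroup.zpowers_le.2 hyC) hy.2
  have hn := sub_nilp H hI (H.two x y) (H.twoS x y)
  have hfin : Finite (Subgroup.closure ({x, y} : Set X)) := (H.two x y).to_subtype
  obtain ⟨n, hn1⟩ := hx.1
  obtain ⟨m, hm1⟩ := hy.1
  have hc : (orderOf (⟨x, hxC⟩ : Subgroup.closure ({x, y} : Set X))).Coprime
      (orderOf (⟨y, hyC⟩ : Subgroup.closure ({x, y} : Set X))) := by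
    rw [Subgroup.orderOf_mk, Subgroup.orderOf_mk]
    exact Nat.Coprime.of_dvd (orderOf_dvd_of_pow_eq_one hn1) (orderOf_dvd_of_pow_eq_one hm1)
      (Nat.Coprime.pow n m ((Nat.coprime_primes hr hs).2 hrs))
  have h := cop_of_nilp hn hc
  exact congrArg Subtype.val h

private theorem pow_gen (H : Hyp5 a) (n : ℕ) : ∀ x : X, orderOf x = n →
    x ∈ Subgroup.closure {y | ∃ r : ℕ, r.Prime ∧ y ∈ EE r a} := by
  induction n using Nat.strong_induction_on with
  | _ n ih =>
    intro x hx
    by_cases h1 : x = 1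
    · rw [h1]
      exact one_mem _
    have hn1 : n ≠ 1 := by
      rw [← hx]
      exact fun h => h1 (orderOf_eq_one_iff.1 h)
    have hn0 : n ≠ 0 := by
      rw [← hx]
      exact (H.tors x).ne'
    have hr : n.minFac.Prime := Nat.minFac_prime hn1
    obtain ⟨e, m, hm, hnm⟩ := Nat.exists_eq_pow_mul_and_not_dvd hn0 n.minFac hr.ne_one
    obtain ⟨r, hrdef⟩ : ∃ r, r = n.minFac := ⟨_, rfl⟩
    rw [← hrdef] at hr hm hnm
    have he : e ≠ 0 := by
      rintro rfl
      rw [pow_zero, one_mul] at hnm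
      apply hm
      rw [← hnm, hrdef]
      exact Nat.minFac_dvd n
    have hcop : Nat.Coprime (r ^ e) m := Nat.Coprime.pow_left e ((Nat.Prime.coprime_iff_not_dvd hr).2 hm)
    have hm0 : 0 < m := by
      rcases Nat.eq_zero_or_pos m with h | h
      · rw [h, mul_zero] at hnm
        exact absurd hnm hn0
      · exact h
    have hr1 : 1 < r ^ e := Nat.one_lt_pow he hr.one_lt
    have hA : x ^ m ∈ Subgroup.closure {y | ∃ r : ℕ, r.Prime ∧ y ∈ EE r a} := by
      have h2 : (x ^ m) ^ (r ^ e) = 1 := by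
        rw [← pow_mul, mul_comm, ← hnm, ← hx, pow_orderOf_eq_one]
      have h3 := t_gen H hr ⟨e, h2⟩
      have h4 : EE r a ⊆ {y | ∃ r : ℕ, r.Prime ∧ y ∈ EE r a} := fun y hy => ⟨r, hr, hy⟩
      exact Subgroup.closure_mono h4 h3
    have hB : x ^ (r ^ e) ∈ Subgroup.closure {y | ∃ r : ℕ, r.Prime ∧ y ∈ EE r a} := by
      have h2 : orderOf (x ^ (r ^ e)) = m := by
        rw [orderOf_pow_of_dvd (by positivity) (by rw [hx, hnm]; exact dvd_mul_right _ _), hx, hnm,
          Nat.mul_div_cancel_left m (by positivity)]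
      have h3 : m < n := by
        rw [hnm]
        exact lt_mul_of_one_lt_left hm0 hr1
      exact ih m h3 _ h2
    have hbez : ((r ^ e : ℕ) : ℤ) * Nat.gcdA (r ^ e) m + (m : ℤ) * Nat.gcdB (r ^ e) m = 1 := by
      have h4 := Nat.gcd_eq_gcd_ab (r ^ e) m
      rw [hcop] at h4
      exact_mod_cast h4.symm
    have h5 : x = (x ^ (r ^ e)) ^ (Nat.gcdA (r ^ e) m) * (x ^ m) ^ (Nat.gcdB (r ^ e) m) := by
      rw [← zpow_natCast x (r ^ e), ← zpow_natCast x m, ← zpow_mul, ← zpow_mul, ← zpow_add, hbez, zpow_one]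
    rw [h5]
    exact mul_mem (zpow_mem hB _) (zpow_mem hA _)

theorem all_gen (H : Hyp5 a) (x : X) : x ∈ Subgroup.closure {y | ∃ r : ℕ, r.Prime ∧ y ∈ EE r a} :=
  pow_gen H (orderOf x) x rfl

end Pool.Agent.FRC
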