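import Pool.Agent.FRC.RpQ

/-!
# FRC/Fin5: kernels whose elements have orders composed of primes `= 1 (mod 5)` are locally finite

`comp_lf`: the subgroup generated by `EE r a` is locally finite, by the theorem of FRB for the quotient `X ⧸ Rp r a` and the
extension theorem `lf_ext`.  `top_lf`: `X` is generated by these normal subgroups.
-/

set_option autoImplicit false

namespace Pool.Agent.FRC

open Pool.Agent.FRB

universe u

variable {X : Type u} [Group X] {a : MulAut X}

private theorem clos_inj {G H : Type*} [Group G] [Group H] (f : G →* H) (hf : Function.Injective f)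
    (s : Set G) (h : ((Subgroup.closure (f '' s) : Subgroup H) : Set H).Finite) :
    ((Subgroup.closure s : Subgroup G) : Set G).Finite := by
  rw [← MonoidHom.map_closure, Subgroup.coe_map] at h
  exact Set.Finite.of_finite_image h hf.injOn

private theorem clos_map {G H : Type*} [Group G] [Group H] (f : G →* H) (s : Set G)
    (h : ((Subgroup.closure s : Subgroup G) : Set G).Finite) :
    ((Subgroup.closure (f '' s) : Subgroup H) : Set H).Finite := by
  rw [← MonoidHom.map_closure, Subgroup.coe_map]
  exact h.image f

private theorem lf_of_coe {S : Subgroup X} (h : LF (⊤ : Subgroup S)) : LF S := by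
  classical
  intro s hs
  have h1 : (s : Set X) = S.subtype '' ((s.subtype (fun x => x ∈ S) : Finset S) : Set S) := by
    ext x
    constructor
    · intro hx
      exact ⟨⟨x, hs hx⟩, by simpa using hx, rfl⟩
    · rintro ⟨y, hy, rfl⟩
      simpa using hy
  rw [h1]
  exact clos_map S.subtype _ (h _ (by intro x _; exact Subgroup.mem_top x))

private theorem nrm (H : Hyp5 a) {r : ℕ} (hr : r.Prime) (y : X) :
    ∀ x ∈ Subgroup.closure (EE r a), y⁻¹ * x * y ∈ Subgroup.closure (EE r a) := by
  have key : ∀ y ∈ Subgroup.closure {y | ∃ t : ℕ, t.Prime ∧ y ∈ EE t a}, ∀ x ∈ Subgroup.closure (EE r a),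
      y⁻¹ * x * y ∈ Subgroup.closure (EE r a) ∧ y * x * y⁻¹ ∈ Subgroup.closure (EE r a) := by
    intro y hy
    induction hy using Subgroup.closure_induction with
    | mem z hz =>
      obtain ⟨t, ht, hz⟩ := hz
      intro x hx
      rcases eq_or_ne t r with rfl | htr
      · have hz1 := Subgroup.subset_closure hz
        exact ⟨Subgroup.mul_mem _ (Subgroup.mul_mem _ (Subgroup.inv_mem _ hz1) hx) hz1,
          Subgroup.mul_mem _ (Subgroup.mul_mem _ hz1 hx) (Subgroup.inv_mem _ hz1)⟩
      · have hc : Commute z x := by
          induction hx using Subgroup.closure_induction with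
          | mem w hw => exact EE_comm H ht hr htr hz hw
          | one => exact Commute.one_right z
          | mul u v _ _ hu hv => exact hu.mul_right hv
          | inv u _ hu => exact hu.inv_right
        constructor
        · rw [mul_assoc, ← hc.eq, inv_mul_cancel_left]
          exact hx
        · rw [hc.eq, mul_inv_cancel_right]
          exact hx
    | one =>
      intro x hx
      simpa using hx
    | mul u v _ _ hu hv =>
      intro x hx
      constructor
      · have h1 := (hv _ (hu x hx).1).1
        rwa [show v⁻¹ * (u⁻¹ * x * u) * v = (u * v)⁻¹ * x * (u * v) by group] at h1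
      · have h1 := (hu _ (hv x hx).2).2
        rwa [show u * (v * x * v⁻¹) * u⁻¹ = (u * v) * x * (u * v)⁻¹ by group] at h1
    | inv u _ hu =>
      intro x hx
      rw [inv_inv]
      exact ⟨(hu x hx).2, (hu x hx).1⟩
  exact fun x hx => (key y (all_gen H y) x hx).1

theorem comp_lf (H : Hyp5 a) {r : ℕ} (hr : r.Prime) : LF (Subgroup.closure (EE r a)) := by
  classical
  by_cases hE : EE r a ⊆ {1}
  · intro s hs
    have h1 : Subgroup.closure (s : Set X) ≤ ⊥ := by
      refine (Subgroup.closure_le _).2 fun x hx => ?_
      have h2 : Subgroup.closure (EE r a) ≤ ⊥ := (Subgroup.closure_le _).2 fun z hz => by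
        have := hE hz
        rw [Set.mem_singleton_iff] at this
        rw [this]
        exact Subgroup.one_mem _
      exact h2 (hs hx)
    rw [le_bot_iff.1 h1, Subgroup.coe_bot]
    exact Set.finite_singleton 1
  · obtain ⟨x, hx, hx1⟩ := Set.not_subset.1 hE
    rw [Set.mem_singleton_iff] at hx1
    obtain ⟨⟨n, hn⟩, -⟩ := hx
    have hd : orderOf x ∣ r ^ n := orderOf_dvd_of_pow_eq_one hn
    have hro : r ∣ orderOf x := by
      obtain ⟨m, -, hm⟩ := (Nat.dvd_prime_pow hr).1 hd
      rcases m with _ | m
      · rw [pow_zero, orderOf_eq_one_iff] at hm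
        exact absurd hm hx1
      · rw [hm]
        exact dvd_pow_self r (Nat.succ_ne_zero m)
    obtain ⟨k, hk⟩ := exists_root hr (H.primes x r hr hro)
    have hN : (Rp r a).Normal := Rp_normal H hr
    have hQ := lf_of_hyp hk (Rp_quo H hr)
    apply lf_of_coe
    have hN' : ((Rp r a).subgroupOf (Subgroup.closure (EE r a))).Normal := Subgroup.normal_subgroupOf
    refine lf_ext ((Rp r a).subgroupOf (Subgroup.closure (EE r a))) ?_ ?_
    · refine lf_comm ?_ ?_
      · intro u hu v hv
        rw [Subgroup.mem_subgroupOf] at hu hv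
        exact Subtype.ext (Rp_comm H hr u.2 hv).eq
      · intro u _
        refine ⟨orderOf (u : X), H.tors _, Subtype.ext ?_⟩
        rw [Subgroup.coe_pow, pow_orderOf_eq_one, Subgroup.coe_one]
    · intro t
      let f : (Subgroup.closure (EE r a)) ⧸ ((Rp r a).subgroupOf (Subgroup.closure (EE r a))) →* X ⧸ Rp r a :=
        QuotientGroup.map _ _ (Subgroup.closure (EE r a)).subtype (fun x hx => hx)
      have hf : Function.Injective f := by
        refine (injective_iff_map_eq_one f).2 fun q hq => ?_
        induction q using QuotientGroup.induction_on with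
        | H y =>
          have h1 : ((y : X) : X ⧸ Rp r a) = 1 := hq
          rw [QuotientGroup.eq_one_iff] at h1 ⊢
          rw [Subgroup.mem_subgroupOf]
          exact h1
      refine clos_inj f hf _ ?_
      rw [← Finset.coe_image]
      exact hQ _ (fun _ _ => Subgroup.mem_top _)

theorem top_lf (H : Hyp5 a) : LF (⊤ : Subgroup X) := by
  have h1 : (⊤ : Subgroup X) = sSup {L : Subgroup X | ∃ r : ℕ, r.Prime ∧ L = Subgroup.closure (EE r a)} := by
    refine le_antisymm ?_ le_top
    intro x _
    have h2 := all_gen H x
    refine (?_ : Subgroup.closure {y | ∃ r : ℕ, r.Prime ∧ y ∈ EE r a} ≤ _) h2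
    refine (Subgroup.closure_le _).2 ?_
    rintro y ⟨r, hr, hy⟩
    have h3 : Subgroup.closure (EE r a) ∈ {L : Subgroup X | ∃ r : ℕ, r.Prime ∧ L = Subgroup.closure (EE r a)} :=
      ⟨r, hr, rfl⟩
    exact le_sSup h3 (Subgroup.subset_closure hy)
  rw [h1]
  refine lf_sSup (Y := ⊤) (fun L _ => le_top) ?_ ?_
  · rintro L ⟨r, hr, rfl⟩ y _ x hx
    exact nrm H hr y x hx
  · rintro L ⟨r, hr, rfl⟩
    exact comp_lf H hr

end Pool.Agent.FRC
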