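import Pool.Agent.FRC.PrimG
import Pool.Agent.FRB.Main

/-!
# FRC/FiveB: assembly for complements of order 5
-/

set_option autoImplicit false

namespace Pool.Agent.FRC

open Pool.Agent.FRB

universe u

variable {G : Type u} [Group G] {F : Subgroup G} {a : G} {p : ℕ}

/-- The closure in a subgroup is finite if the closure of the image is. -/
private theorem fin_of_image (S : Subgroup G) (T : Set S)
    (h : ((Subgroup.closure ((fun x : S => (x : G)) '' T) : Subgroup G) : Set G).Finite) :
    ((Subgroup.closure T : Subgroup S) : Set S).Finite := by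
  have e : (Subgroup.closure T).map S.subtype =
      Subgroup.closure ((fun x : S => (x : G)) '' T) := MonoidHom.map_closure S.subtype T
  rw [← e, Subgroup.coe_map] at h
  exact h.of_finite_image (Set.injOn_of_injective S.subtype_injective)

private theorem fin_image (S : Subgroup G) (T : Set S)
    (h : ((Subgroup.closure T : Subgroup S) : Set S).Finite) :
    ((Subgroup.closure ((fun x : S => (x : G)) '' T) : Subgroup G) : Set G).Finite := by
  have e : (Subgroup.closure T).map S.subtype =
      Subgroup.closure ((fun x : S => (x : G)) '' T) := MonoidHom.map_closure S.subtype T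
  rw [← e, Subgroup.coe_map]
  exact h.image _

theorem hg_mk (hp : p.Prime) (hFn : F.Normal) (ha : orderOf a = p)
    (hgen : ∀ g : G, ∃ f ∈ F, ∃ k : ℕ, g = f * a ^ k) (hfpf : ∀ f ∈ F, a * f * a⁻¹ = f → f = 1)
    (hbin : ∀ x y : G, ((Subgroup.closure ({x, y} : Set G) : Subgroup G) : Set G).Finite)
    (hsol : ∀ x y : G, IsSolvable (Subgroup.closure ({x, y} : Set G))) : HG p F a := by
  refine ⟨hp, hFn, by rw [← ha, pow_orderOf_eq_one], ?_, hgen, hfpf, hbin, hsol⟩
  intro h
  have h1 : a = 1 := hfpf a h (by group)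
  rw [h1, orderOf_one] at ha
  exact hp.one_lt.ne ha

/-- If the kernel is an `r`-group the two-generated subgroups are soluble. -/
theorem sol_of_pgroup {r : ℕ} (hr : r.Prime) (hFn : F.Normal)
    (hgen : ∀ g : G, ∃ f ∈ F, ∃ k : ℕ, g = f * a ^ k)
    (hbin : ∀ x y : G, ((Subgroup.closure ({x, y} : Set G) : Subgroup G) : Set G).Finite)
    (hF : ∀ f ∈ F, ∃ n : ℕ, f ^ (r ^ n) = 1) (x y : G) : IsSolvable (Subgroup.closure ({x, y} : Set G)) := by
  have hKf : Finite (Subgroup.closure ({x, y} : Set G)) := (hbin x y).to_subtype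
  have : Fact r.Prime := ⟨hr⟩
  have hN : IsPGroup r (F.subgroupOf (Subgroup.closure ({x, y} : Set G))) := by
    intro z
    obtain ⟨n, hn⟩ := hF ((z : Subgroup.closure ({x, y} : Set G)) : G) z.2
    exact ⟨n, Subtype.ext (Subtype.ext hn)⟩
  have h1 : Group.IsNilpotent (F.subgroupOf (Subgroup.closure ({x, y} : Set G))) := hN.isNilpotent
  have h2 : Group.IsSolvable (F.subgroupOf (Subgroup.closure ({x, y} : Set G))) := IsNilpotent.to_isSolvable
  have h3 : Group.IsSolvable (G ⧸ F) := by
    refine isSolvable_of_comm fun u v => ?_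
    induction u using QuotientGroup.induction_on with
    | H u =>
      induction v using QuotientGroup.induction_on with
      | H v =>
        obtain ⟨f, hf, k, hk⟩ := hgen u
        obtain ⟨f', hf', k', hk'⟩ := hgen v
        have e1 : (u : G ⧸ F) = ((a ^ k : G) : G ⧸ F) := by
          rw [hk, QuotientGroup.mk_mul, (QuotientGroup.eq_one_iff f).2 hf, one_mul]
        have e2 : (v : G ⧸ F) = ((a ^ k' : G) : G ⧸ F) := by
          rw [hk', QuotientGroup.mk_mul, (QuotientGroup.eq_one_iff f').2 hf', one_mul]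
        rw [e1, e2, ← QuotientGroup.mk_mul, ← QuotientGroup.mk_mul, ← pow_add, ← pow_add, add_comm]
  refine solvable_of_ker_le_range (F.subgroupOf (Subgroup.closure ({x, y} : Set G))).subtype
    ((QuotientGroup.mk' F).comp (Subgroup.closure ({x, y} : Set G)).subtype) ?_
  intro z hz
  rw [MonoidHom.mem_ker, MonoidHom.comp_apply] at hz
  have h4 : (z : G) ∈ F := (QuotientGroup.eq_one_iff (z : G)).1 hz
  exact ⟨⟨z, h4⟩, rfl⟩

/-- The subgroup of elements of `F` of `r`-power order. -/
def Prim (H : HG p F a) {r : ℕ} (hr : r.Prime) : Subgroup G where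
  carrier := {x | x ∈ F ∧ PE r x}
  mul_mem' := fun hx hy => ⟨F.mul_mem hx.1 hy.1, prim_mul H hr hx.1 hy.1 hx.2 hy.2⟩
  one_mem' := ⟨F.one_mem, pe_one r⟩
  inv_mem' := fun hx => ⟨F.inv_mem hx.1, hx.2.inv⟩

theorem Prim_normal (H : HG p F a) {r : ℕ} (hr : r.Prime) : (Prim H hr).Normal :=
  ⟨fun _ hn g => ⟨H.norm.conj_mem _ hn.1 g, hn.2.conj g⟩⟩

theorem Prim_closure (H : HG p F a) {r : ℕ} (hr : r.Prime) :
    Subgroup.closure {x : G | x ∈ F ∧ PE r x} = Prim H hr :=
  Subgroup.closure_eq (Prim H hr)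

/-- Two elements of `F` generate a nilpotent subgroup. -/
theorem bin_nilp (H : HG p F a) {x y : G} (hx : x ∈ F) (hy : y ∈ F) :
    Group.IsNilpotent (Subgroup.closure ({x, y} : Set G)) := by
  have hKf : Finite (Subgroup.closure ({x, y} : Set G)) := (H.fin x y).to_subtype
  have hKF : Subgroup.closure ({x, y} : Set G) ≤ F := by
    rw [Subgroup.closure_le]
    rintro z (rfl | rfl)
    · exact hx
    · exact hy
  refine ((Group.isNilpotent_of_finite_tfae (G := Subgroup.closure ({x, y} : Set G))).out 0 3).2 ?_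
  intro r hr P
  have hS := Prim_normal H hr.out
  have h1 : ((Prim H hr.out).subgroupOf (Subgroup.closure ({x, y} : Set G))).Normal := hS.subgroupOf _
  have h2 : IsPGroup r ((Prim H hr.out).subgroupOf (Subgroup.closure ({x, y} : Set G))) := by
    intro z
    obtain ⟨n, hn⟩ := (show (((z : Subgroup.closure ({x, y} : Set G)) : G) ∈ F ∧ PE r _) from z.2).2
    exact ⟨n, Subtype.ext (Subtype.ext hn)⟩
  have h3 : (P : Subgroup (Subgroup.closure ({x, y} : Set G))) ≤
      (Prim H hr.out).subgroupOf (Subgroup.closure ({x, y} : Set G)) := by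
    intro z hz
    obtain ⟨n, hn⟩ := P.2 ⟨z, hz⟩
    have h4 : (z : G) ^ (r ^ n) = 1 := congrArg (fun w => (((w : P) : Subgroup.closure ({x, y} : Set G)) : G)) hn
    exact ⟨hKF z.2, n, h4⟩
  rw [← P.3 h2 h3]
  exact h1

/-- Elements of `F` all of whose prime divisors of the order satisfy `P` generate a locally finite subgroup as soon
as the corresponding primary components are locally finite. -/
theorem lf_of_primes (H : HG p F a) (P : ℕ → Prop)
    (h : ∀ r : ℕ, r.Prime → P r → LF (Subgroup.closure {x : G | x ∈ F ∧ PE r x})) :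
    LF (Subgroup.closure {x : G | x ∈ F ∧ ∀ r : ℕ, r.Prime → r ∣ orderOf x → P r}) := by
  set 𝓕 : Set (Subgroup G) := {S | ∃ r : ℕ, r.Prime ∧ P r ∧ S = Subgroup.closure {x : G | x ∈ F ∧ PE r x}} with h𝓕
  have h1 : LF (sSup 𝓕) := by
    refine lf_sSup (Y := F) ?_ ?_ ?_
    · rintro L ⟨r, _, _, rfl⟩
      rw [Subgroup.closure_le]
      exact fun x hx => hx.1
    · rintro L ⟨r, hr, _, rfl⟩ y _ x hx
      rw [Prim_closure H hr] at hx ⊢
      have h2 := (Prim_normal H hr).conj_mem x hx y⁻¹
      rwa [inv_inv] at h2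
    · rintro L ⟨r, hr, hP, rfl⟩
      exact h r hr hP
  refine lf_mono ?_ h1
  rw [Subgroup.closure_le]
  have key : ∀ n : ℕ, ∀ x : G, orderOf x = n → x ∈ F → (∀ r : ℕ, r.Prime → r ∣ orderOf x → P r) → x ∈ sSup 𝓕 := by
    intro n
    induction n using Nat.strong_induction_on with
    | _ n ih =>
      intro x hxn hxF hxP
      have hn0 : n ≠ 0 := by
        rw [← hxn]
        exact (H.fo x).ne'
      by_cases hn1 : n = 1
      · rw [hn1, orderOf_eq_one_iff] at hxn
        rw [hxn]
        exact Subgroup.one_mem _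
      obtain ⟨l, hl, hln⟩ := Nat.exists_prime_and_dvd hn1
      set e : ℕ := n.factorization l with he
      have h3 : l ^ e ∣ n := Nat.ordProj_dvd n l
      set m : ℕ := n / l ^ e with hm
      have h4 : l ^ e * m = n := Nat.ordProj_mul_ordCompl_eq_self n l
      have h5 : Nat.Coprime (l ^ e) m := (Nat.coprime_ordCompl hl hn0).pow_left e
      have he0 : e ≠ 0 := by
        have := (hl.dvd_iff_one_le_factorization hn0).1 hln
        omega
      have hm0 : m ≠ 0 := by
        rintro h6
        rw [h6, mul_zero] at h4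
        exact hn0 h4.symm
      have h7 : x ^ m ∈ sSup 𝓕 := by
        have h8 : Subgroup.closure {x : G | x ∈ F ∧ PE l x} ≤ sSup 𝓕 :=
          le_sSup ⟨l, hl, hxP l hl (by rw [hxn]; exact hln), rfl⟩
        refine h8 (Subgroup.subset_closure ⟨F.pow_mem hxF _, e, ?_⟩)
        rw [← pow_mul, mul_comm, h4, ← hxn, pow_orderOf_eq_one]
      have h9 : x ^ (l ^ e) ∈ sSup 𝓕 := by
        have h10 : orderOf (x ^ (l ^ e)) = m := by
          rw [orderOf_pow' _ (pow_ne_zero _ hl.ne_zero), hxn, Nat.gcd_eq_right h3]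
        refine ih m ?_ _ h10 (F.pow_mem hxF _) ?_
        · rw [← h4]
          have h11 : 1 < l ^ e := Nat.one_lt_pow he0 hl.one_lt
          nlinarith [Nat.pos_of_ne_zero hm0]
        · intro r hr hrm
          rw [h10] at hrm
          refine hxP r hr ?_
          rw [hxn, ← h4]
          exact hrm.mul_left _
      have h12 : x = (x ^ (l ^ e)) ^ (Nat.gcdA (l ^ e) m) * (x ^ m) ^ (Nat.gcdB (l ^ e) m) := by
        rw [← zpow_natCast x (l ^ e), ← zpow_natCast x m, ← zpow_mul, ← zpow_mul, ← zpow_add]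
        have h13 := Nat.gcd_eq_gcd_ab (l ^ e) m
        rw [h5] at h13
        rw [← h13]
        simp
      rw [h12]
      exact Subgroup.mul_mem _ (Subgroup.zpow_mem _ h9 _) (Subgroup.zpow_mem _ h7 _)
  intro x hx
  exact key _ x rfl hx.1 hx.2

/-- The primary components for `r = 1 (mod 5)` are locally finite if the complement has order 5. -/
theorem lf_five (H : HG 5 F a) {r : ℕ} (hr : r.Prime) (hr5 : r % 5 = 1) :
    LF (Subgroup.closure {x : G | x ∈ F ∧ PE r x}) := by
  classical
  rw [Prim_closure H hr]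
  set Fr : Subgroup G := Prim H hr with hFr
  have hFrn : Fr.Normal := Prim_normal H hr
  have hFrF : Fr ≤ F := fun x hx => hx.1
  set G' : Subgroup G := Fr ⊔ Subgroup.zpowers a with hG'
  have haG : a ∈ G' := (le_sup_right : Subgroup.zpowers a ≤ G') (Subgroup.mem_zpowers a)
  have hFG : Fr ≤ G' := le_sup_left
  have ha1 : a ≠ 1 := fun h => H.nmem (h ▸ F.one_mem)
  have ha5 : orderOf a = 5 := by
    have : Fact (Nat.Prime 5) := ⟨H.prime⟩
    exact orderOf_eq_prime H.pow ha1
  have hmain := FRB.main (G := G') (Fr.subgroupOf G') ⟨a, haG⟩ (hFrn.subgroupOf G')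
    (by rw [Subgroup.orderOf_mk, ha5])
    (by
      rintro ⟨g, hg⟩
      obtain ⟨y, hy, z, hz, rfl⟩ := Subgroup.mem_sup_of_normal_left.1 hg
      obtain ⟨k, rfl⟩ := (isOfFinOrder_iff_pow_eq_one.2 ⟨5, by norm_num, H.pow⟩).mem_zpowers_iff_mem_range_orderOf.1 hz |>
        fun h => (Finset.mem_image.1 h).imp fun k hk => hk.2
      exact ⟨⟨y, hFG hy⟩, hy, k, rfl⟩)
    (by
      rintro ⟨f, hf⟩ hf' h
      have h1 := H.fpf f (hFrF hf') (congrArg Subtype.val h)
      exact Subtype.ext h1)
    (by
      intro x y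
      apply fin_of_image
      rw [Set.image_pair]
      exact H.fin _ _)
    r hr hr5
    (by
      rintro ⟨f, hf⟩ hf'
      obtain ⟨n, hn⟩ := (show f ∈ F ∧ PE r f from hf').2
      exact ⟨n, Subtype.ext hn⟩)
  intro s hs
  have h1 := hmain (s.subtype (· ∈ G'))
  have h2 := fin_image G' _ h1
  have h3 : (fun x : G' => (x : G)) '' ((s.subtype (· ∈ G') : Finset G') : Set G') = (s : Set G) := by
    ext x
    constructor
    · rintro ⟨y, hy, rfl⟩
      simpa using hy
    · intro hx
      exact ⟨⟨x, hFG (hs hx)⟩, by simpa using hx, rfl⟩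
  rwa [h3] at h2

/-- From the kernel to the whole group. -/
theorem lf_top_of_kernel (H : HG p F a) (h : LF F) :
    ∀ s : Finset G, ((Subgroup.closure (s : Set G) : Subgroup G) : Set G).Finite := by
  have hFn := H.norm
  have h1 : Finite (G ⧸ F) := by
    have hp := H.prime.pos
    refine Finite.of_surjective (fun k : Fin p => ((a ^ (k : ℕ) : G) : G ⧸ F)) ?_
    intro q
    induction q using QuotientGroup.induction_on with
    | H g =>
      obtain ⟨f, hf, k, rfl⟩ := H.gen g
      refine ⟨⟨k % p, Nat.mod_lt _ hp⟩, ?_⟩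
      show ((a ^ (k % p) : G) : G ⧸ F) = ((f * a ^ k : G) : G ⧸ F)
      rw [QuotientGroup.mk_mul, (QuotientGroup.eq_one_iff f).2 hf, one_mul,
        ← pow_mod_orderOf, ← pow_mod_orderOf a k, Nat.mod_mod_of_dvd _ (orderOf_dvd_of_pow_eq_one H.pow)]
  have h2 := lf_ext F h (fun s => Set.toFinite _)
  exact fun s => h2 s (fun _ _ => Subgroup.mem_top _)

end Pool.Agent.FRC
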