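import Mathlib

/-!
# FRC/R2: an elementary abelian group of rank 2 acting on an abelian group

`u`, `w` commute, `u^t = w^t = 1`, they normalise the commutative subgroup `Q`; `u` and all `w u^i` act on `Q` without
fixed points.  Then `v^t = 1` for `v ∈ Q`.
Proof.  For `e ∈ {u, w u^i}` (so `e^t = 1`) and `v ∈ Q` put `N e v = ∏_{j < t} e^j v e^{-j} ∈ Q` (product in the
commutative group `Q`).  Conjugation by `e` permutes the factors cyclically (`e^t = 1`), so `N e v` commutes with `e`, so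
`N e v = 1`.  Now `1 = ∏_{i < t} N (w u^i) v = ∏_{j < t} ∏_{i < t} w^j u^{ij} v u^{-ij} w^{-j}` (`(w u^i)^j = w^j u^{ij}`).
For `j = 0` the inner product is `v^t`.  For `0 < j < t` the map `i ↦ i j mod t` is a permutation of `{0..t-1}` and
`u^t = 1`, so the inner product is `w^j (N u v) w^{-j} = 1`.  Hence `v^t = 1`.
In Lean: use `MulAut`/`MonoidHom` on the type `Q` with the commutative group structure given by `hQ`
(`let _ : CommGroup Q := { (inferInstance : Group Q) with mul_comm := .. }`), `Finset.prod_comm`, sums over `ZMod t`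
or `Finset.range t`.
-/

set_option autoImplicit false

namespace Pool.Agent.FRC

universe u

private theorem norm_one {A : Type u} [CommGroup A] {t : ℕ} (e : Monoid.End A) (he : e ^ t = 1)
    (hf : ∀ v, e v = v → v = 1) (v : A) : ∏ j ∈ Finset.range t, (e ^ j) v = 1 := by
  apply hf
  rw [map_prod]
  have h1 : ∏ j ∈ Finset.range t, e ((e ^ j) v) = ∏ j ∈ Finset.range t, (e ^ (j + 1)) v := by
    refine Finset.prod_congr rfl fun j _ => ?_
    rw [pow_succ']
    rfl
  rw [h1]
  have h2 := Finset.prod_range_succ (fun j => (e ^ j) v) t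
  have h3 := Finset.prod_range_succ' (fun j => (e ^ j) v) t
  rw [h2, he, pow_zero] at h3
  exact (mul_right_cancel h3).symm

private theorem rank2_aux {A : Type u} [CommGroup A] {t : ℕ} (ht : t.Prime) (α β : Monoid.End A)
    (hα : α ^ t = 1) (hβ : β ^ t = 1) (hc : Commute β α) (hfα : ∀ v, α v = v → v = 1)
    (hfβ : ∀ i : ℕ, ∀ v, (β * α ^ i) v = v → v = 1) (v : A) : v ^ t = 1 := by
  have h1 : ∀ i : ℕ, ∏ j ∈ Finset.range t, ((β * α ^ i) ^ j) v = 1 := fun i => by
    refine norm_one _ ?_ (hfβ i) v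
    rw [(hc.pow_right i).mul_pow, hβ, one_mul, ← pow_mul, mul_comm, pow_mul, hα, one_pow]
  have h2 : ∏ i ∈ Finset.range t, ∏ j ∈ Finset.range t, ((β * α ^ i) ^ j) v = 1 :=
    Finset.prod_eq_one fun i _ => h1 i
  rw [Finset.prod_comm, Finset.prod_eq_single 0] at h2
  · simpa using h2
  · intro j hj hj0
    have hjt : j < t := Finset.mem_range.1 hj
    have hcop : j.Coprime (orderOf α) :=
      Nat.Coprime.coprime_dvd_right (orderOf_dvd_of_pow_eq_one hα)
        ((Nat.Prime.coprime_iff_not_dvd ht).2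
          (Nat.not_dvd_of_pos_of_lt (Nat.pos_of_ne_zero hj0) hjt)).symm
    obtain ⟨m, hm⟩ := exists_pow_eq_self_of_coprime hcop
    have h3 : ∏ i ∈ Finset.range t, ((α ^ j) ^ i) v = 1 := by
      refine norm_one _ ?_ ?_ v
      · rw [← pow_mul, mul_comm, pow_mul, hα, one_pow]
      · intro x hx
        apply hfα
        have h4 : ∀ n : ℕ, ((α ^ j) ^ n) x = x := by
          intro n
          induction n with
          | zero => rfl
          | succ n ih =>
            rw [pow_succ]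
            change ((α ^ j) ^ n) ((α ^ j) x) = x
            rw [hx, ih]
        have h5 := h4 m
        rw [hm] at h5
        exact h5
    calc ∏ i ∈ Finset.range t, ((β * α ^ i) ^ j) v
        = ∏ i ∈ Finset.range t, (β ^ j) (((α ^ j) ^ i) v) := by
          refine Finset.prod_congr rfl fun i _ => ?_
          rw [(hc.pow_right i).mul_pow, ← pow_mul, ← pow_mul, mul_comm i j]
          rfl
      _ = (β ^ j) (∏ i ∈ Finset.range t, ((α ^ j) ^ i) v) := (map_prod _ _ _).symm
      _ = 1 := by rw [h3, map_one]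
  · intro h
    exact absurd (Finset.mem_range.2 ht.pos) h

theorem rank2_pow {G : Type u} [Group G] {Q : Subgroup G} (hQ : ∀ v ∈ Q, ∀ w ∈ Q, Commute v w) {t : ℕ} (ht : t.Prime)
    {u w : G} (hu : u ^ t = 1) (hw : w ^ t = 1) (huw : Commute u w) (huQ : ∀ v ∈ Q, u * v * u⁻¹ ∈ Q)
    (hwQ : ∀ v ∈ Q, w * v * w⁻¹ ∈ Q) (hfu : ∀ v ∈ Q, Commute u v → v = 1)
    (hfw : ∀ i : ℕ, ∀ v ∈ Q, Commute (w * u ^ i) v → v = 1) : ∀ v ∈ Q, v ^ t = 1 := by
  intro v hv
  let _ : CommGroup Q :=
    { (inferInstance : Group Q) with mul_comm := fun a b => Subtype.ext (hQ a a.2 b b.2) }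
  let c : ∀ e : G, (∀ v ∈ Q, e * v * e⁻¹ ∈ Q) → Monoid.End Q := fun e he =>
    { toFun := fun v => ⟨e * v * e⁻¹, he v v.2⟩
      map_one' := Subtype.ext (by simp)
      map_mul' := fun a b => Subtype.ext (by simp) }
  have hc1 : ∀ e he (x : Q), ((c e he x : Q) : G) = e * x * e⁻¹ := fun e he x => rfl
  have hc : ∀ e he (n : ℕ) (x : Q), ((((c e he) ^ n) x : Q) : G) = e ^ n * x * (e ^ n)⁻¹ := by
    intro e he n x
    induction n with
    | zero => simp
    | succ n ih =>
      rw [pow_succ']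
      change e * ((((c e he) ^ n) x : Q) : G) * e⁻¹ = _
      rw [ih, pow_succ']
      group
  have h := rank2_aux ht (c u huQ) (c w hwQ) ?_ ?_ ?_ ?_ ?_ (⟨v, hv⟩ : Q)
  · exact congrArg Subtype.val h
  · refine MonoidHom.ext fun x => Subtype.ext ?_
    refine (hc u huQ t x).trans ?_
    rw [hu, inv_one, one_mul, mul_one]
    rfl
  · refine MonoidHom.ext fun x => Subtype.ext ?_
    refine (hc w hwQ t x).trans ?_
    rw [hw, inv_one, one_mul, mul_one]
    rfl
  · refine MonoidHom.ext fun x => Subtype.ext ?_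
    change w * (u * (x : G) * u⁻¹) * w⁻¹ = u * (w * (x : G) * w⁻¹) * u⁻¹
    have e1 : w * (u * (x : G) * u⁻¹) * w⁻¹ = (w * u) * x * (w * u)⁻¹ := by group
    have e2 : u * (w * (x : G) * w⁻¹) * u⁻¹ = (u * w) * x * (u * w)⁻¹ := by group
    rw [e1, e2, huw.eq]
  · intro x hx
    have h1 : u * (x : G) * u⁻¹ = x := congrArg Subtype.val hx
    exact Subtype.ext (hfu x x.2 (mul_inv_eq_iff_eq_mul.1 h1))
  · intro i x hx
    have h1 : w * (((((c u huQ) ^ i) x : Q)) : G) * w⁻¹ = x := congrArg Subtype.val hx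
    rw [hc] at h1
    refine Subtype.ext (hfw i x x.2 ?_)
    have h2 : w * (u ^ i * (x : G) * (u ^ i)⁻¹) * w⁻¹ = (w * u ^ i) * x * (w * u ^ i)⁻¹ := by group
    rw [h2] at h1
    exact mul_inv_eq_iff_eq_mul.1 h1

end Pool.Agent.FRC
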