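import Pool.Agent.FRC.PEa
import Pool.Agent.FRC.R2

/-!
# FRC/NR2: no elementary abelian subgroup of rank 2 acts on a nontrivial group of coprime order

Suppose `Q ≠ ⊥`.  `Q` is a finite nontrivial `q`-group (`IsPGroup q Q`), so `Z = (Subgroup.center Q).map Q.subtype` is
nontrivial (`IsPGroup.center_nontrivial`), commutative and normal in `H` (the center is characteristic in the normal
subgroup `Q`).  `u` acts on `Z` without fixed points by `ep_comm` (`u ≠ 1` has order `t`, elements of `Z` have `q`-power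
order), and so does `w * u^i`, whose `t`-th power is `1` and which is `≠ 1` because `w ∉ zpowers u`.  By `rank2_pow`,
`v^t = 1` for `v ∈ Z`, so `v = 1` (`PE.eq_one`).  Contradiction.
-/

set_option autoImplicit false

namespace Pool.Agent.FRC

universe u

theorem no_rank2 {H : Type u} [Group H] [Finite H] (hE : EP H) {t q : ℕ} (ht : t.Prime) (hq : q.Prime) (htq : t ≠ q)
    {u w : H} (hu : u ^ t = 1) (hw : w ^ t = 1) (huw : Commute u w) (hu1 : u ≠ 1) (hwu : w ∉ Subgroup.zpowers u)
    {Q : Subgroup H} (hQn : Q.Normal) (hQ : PG q Q) : Q = ⊥ := by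
  by_contra hne
  have : Fact q.Prime := ⟨hq⟩
  have : Q.Normal := hQn
  have hpe : ∀ v ∈ Q, PE q v := hQ
  have hpG : IsPGroup q Q := by
    rintro ⟨x, hx⟩
    obtain ⟨k, hk⟩ := hQ x hx
    exact ⟨k, Subtype.ext hk⟩
  have hnt : Nontrivial Q := (Subgroup.nontrivial_iff_ne_bot Q).2 hne
  have hcn : Nontrivial (Subgroup.center Q) := hpG.center_nontrivial
  set Z : Subgroup H := (Subgroup.center Q).map Q.subtype with hZ
  have hZn : Z.Normal := inferInstance
  have hZQ : ∀ v ∈ Z, v ∈ Q := by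
    rintro v ⟨z, -, rfl⟩
    exact z.2
  have hZc : ∀ v ∈ Z, ∀ w ∈ Z, Commute v w := by
    rintro v ⟨z, hz, rfl⟩ w ⟨z', -, rfl⟩
    have h1 := Subgroup.mem_center_iff.1 hz z'
    exact (congrArg Subtype.val h1).symm
  have hup : PE t u := pe_of_pow hu
  have key : ∀ v ∈ Z, v ^ t = 1 := by
    refine rank2_pow hZc ht hu hw huw (fun v hv => hZn.conj_mem v hv u)
      (fun v hv => hZn.conj_mem v hv w) (fun v hv hc => ?_) (fun i v hv hc => ?_)
    · exact (ep_comm hE ht hq htq hup (hpe v (hZQ v hv)) hc).resolve_left hu1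
    · have h1 : (w * u ^ i) ^ t = 1 := by
        rw [(huw.symm.pow_right i).mul_pow, hw, ← pow_mul, mul_comm i t, pow_mul, hu, one_pow,
          one_mul]
      refine (ep_comm hE ht hq htq (pe_of_pow h1) (hpe v (hZQ v hv)) hc).resolve_left fun h2 => ?_
      apply hwu
      have h3 : w = (u ^ i)⁻¹ := eq_inv_of_mul_eq_one_left h2
      rw [h3]
      exact Subgroup.inv_mem _ (Subgroup.pow_mem _ (Subgroup.mem_zpowers u) i)
  obtain ⟨⟨z, hz⟩, hz1⟩ := exists_ne (1 : Subgroup.center Q)
  apply hz1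
  have hzZ : (z : H) ∈ Z := ⟨z, hz, rfl⟩
  have h4 : (z : H) = 1 := PE.eq_one ht hq htq (pe_of_pow (key _ hzZ)) (hpe _ z.2)
  exact Subtype.ext (Subtype.ext h4)

end Pool.Agent.FRC
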