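import Pool.Agent.FRC.OqB
import Pool.Agent.FRC.NR2

/-!
# FRC/Key: the key lemma

The quotient by `Oq q H` has a normal elementary abelian `t`-subgroup `T`, `t ≠ q` (`Oq_min`).  The image of `u` is a
power of the image of `x` by `no_rank2`, and commutes with `T` since the element `(x^k)⁻¹ * (h * u * h⁻¹)` has
`q`-power order.
-/

set_option autoImplicit false

namespace Pool.Agent.FRC

universe u

theorem key {H : Type u} [Group H] [Finite H] (hs : IsSolvable H) (hE : EP H) {q : ℕ} (hq : q.Prime) {x u : H}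
    (hx : x ^ q = 1) (hu : u ^ q = 1) (hxu : Commute x u)
    (hpg : ∀ h : H, PG q (Subgroup.closure ({x, h * u * h⁻¹} : Set H))) (hxO : x ∉ Oq q H) : u ∈ Oq q H := by
  by_contra huO
  obtain ⟨t, ht, htq, T, hTn, hTb, hTc, hTt⟩ := Oq_min hs hxO
  have hEQ : EP (H ⧸ Oq q H) := ep_quot hE _
  set π : H →* H ⧸ Oq q H := QuotientGroup.mk' (Oq q H) with hπ
  have hπ1 : ∀ y : H, π y = 1 → y ∈ Oq q H := fun y hy => (QuotientGroup.eq_one_iff y).1 hy
  have hx1 : π x ≠ 1 := fun h => hxO (hπ1 x h)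
  have hu1 : π u ≠ 1 := fun h => huO (hπ1 u h)
  have hTpg : PG t T := fun v hv => pe_of_pow (hTt v hv)
  have hxq : (π x) ^ q = 1 := by rw [← map_pow, hx, map_one]
  have huq : (π u) ^ q = 1 := by rw [← map_pow, hu, map_one]
  by_cases hz : π u ∈ Subgroup.zpowers (π x)
  · obtain ⟨k, hk⟩ := Subgroup.mem_zpowers_iff.1 hz
    obtain ⟨v, hv1⟩ := Subgroup.ne_bot_iff_exists_ne_one.1 hTb
    have hvT : v.1 ∈ T := v.2
    obtain ⟨h, hh⟩ := QuotientGroup.mk'_surjective (Oq q H) v.1
    have hhπ : π h = v.1 := hh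
    have hhT : π h ∈ T := by rw [hhπ]; exact hvT
    have hh1 : π h ≠ 1 := by
      rw [hhπ]
      intro hc
      exact hv1 (Subtype.ext hc)
    have hnc : ¬ Commute (π u) (π h) := by
      intro hc
      rcases ep_comm hEQ hq ht htq.symm (pe_of_pow huq) (hTpg _ hhT) hc with h1 | h1
      · exact hu1 h1
      · exact hh1 h1
    apply hnc
    have hzq : PE q ((x ^ k)⁻¹ * (h * u * h⁻¹)) := by
      refine hpg h _ (Subgroup.mul_mem _ (Subgroup.inv_mem _ (Subgroup.zpow_mem _ ?_ k)) ?_)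
      · exact Subgroup.subset_closure (Or.inl rfl)
      · exact Subgroup.subset_closure (Or.inr rfl)
    have hzq' := hzq.map π
    have e1 : π ((x ^ k)⁻¹ * (h * u * h⁻¹)) = (π u)⁻¹ * π h * π u * (π h)⁻¹ := by
      rw [map_mul, map_inv, map_zpow, hk, map_mul, map_mul, map_inv]
      group
    rw [e1] at hzq'
    have hmT : (π u)⁻¹ * π h * π u * (π h)⁻¹ ∈ T := by
      refine T.mul_mem ?_ (T.inv_mem hhT)
      have := hTn.conj_mem (π h) hhT (π u)⁻¹
      rwa [inv_inv] at this
    have h1 := PE.eq_one hq ht htq.symm hzq' (hTpg _ hmT)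
    have h2 : (π u)⁻¹ * π h * π u = π h := by
      rwa [mul_inv_eq_one] at h1
    have h3 : π h * π u = π u * π h := by
      calc π h * π u = π u * ((π u)⁻¹ * π h * π u) := by group
        _ = π u * π h := by rw [h2]
    exact h3.symm
  · exact hTb (no_rank2 hEQ hq ht htq.symm hxq huq (hxu.map π) hx1 hz hTn hTpg)

end Pool.Agent.FRC
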