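import Mathlib

/-!
# FRC/LemL: choosing `c` inside `⟨x, x^c⟩`

Strong induction on the order of `M = ⟨x, c⁻¹ x c⟩`: the map `m ↦ (π x)⁻¹ m⁻¹ (π x) m` is injective on `T`, hence a
permutation of the finite group `T ⊓ π(M)`, so `π c` lifts to some `c' ∈ M`, and `⟨x, c'⁻¹ x c'⟩ ≤ M`.
-/

set_option autoImplicit false

namespace Pool.Agent.FRC

universe u v

private theorem lemLaux {H : Type u} {K : Type v} [Group H] [Group K] [Finite H] (π : H →* K)
    (hπ : Function.Surjective π) {x : H} {T : Subgroup K} (hTn : T.Normal)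
    (hfpf : ∀ v ∈ T, Commute (π x) v → v = 1) (n : ℕ) :
    ∀ c : H, Nat.card (Subgroup.closure ({x, c⁻¹ * x * c} : Set H)) = n → π c ∈ T → π c ≠ 1 →
      ∃ c : H, π c ∈ T ∧ π c ≠ 1 ∧ c ∈ Subgroup.closure ({x, c⁻¹ * x * c} : Set H) := by
  induction n using Nat.strong_induction_on with
  | _ n ih =>
    intro c hcard hcT hc1
    have hxM : x ∈ Subgroup.closure ({x, c⁻¹ * x * c} : Set H) := Subgroup.subset_closure (by simp)
    have hxcM : c⁻¹ * x * c ∈ Subgroup.closure ({x, c⁻¹ * x * c} : Set H) :=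
      Subgroup.subset_closure (by simp)
    generalize hM : Subgroup.closure ({x, c⁻¹ * x * c} : Set H) = M at hcard hxM hxcM
    have hK : Finite K := Finite.of_surjective π hπ
    have hφT : ∀ m ∈ T, (π x)⁻¹ * m⁻¹ * π x * m ∈ T := by
      intro m hm
      refine T.mul_mem ?_ hm
      have := hTn.conj_mem m⁻¹ (T.inv_mem hm) (π x)⁻¹
      simpa using this
    have hφinj : ∀ m ∈ T, ∀ k ∈ T,
        (π x)⁻¹ * m⁻¹ * π x * m = (π x)⁻¹ * k⁻¹ * π x * k → m = k := by
      intro m hm k hk h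
      have h1 : m⁻¹ * π x * m = k⁻¹ * π x * k := by
        have h2 := congrArg (fun z => π x * z) h
        simpa [mul_assoc] using h2
      have h3 : k * m⁻¹ = 1 := by
        apply hfpf _ (T.mul_mem hk (T.inv_mem hm))
        show π x * (k * m⁻¹) = k * m⁻¹ * π x
        calc π x * (k * m⁻¹) = k * (k⁻¹ * π x * k) * m⁻¹ := by group
          _ = k * (m⁻¹ * π x * m) * m⁻¹ := by rw [h1]
          _ = k * m⁻¹ * π x := by group
      exact (mul_inv_eq_one.1 h3).symm
    have hπx : π x ∈ M.map π := Subgroup.mem_map_of_mem π hxM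
    have hφ1 : ∀ m ∈ T ⊓ M.map π, (π x)⁻¹ * m⁻¹ * π x * m ∈ T ⊓ M.map π := by
      intro m hm
      refine ⟨hφT m hm.1, ?_⟩
      exact (M.map π).mul_mem ((M.map π).mul_mem ((M.map π).mul_mem ((M.map π).inv_mem hπx)
        ((M.map π).inv_mem hm.2)) hπx) hm.2
    have hc2 : (π x)⁻¹ * (π c)⁻¹ * π x * π c ∈ T ⊓ M.map π := by
      refine ⟨hφT _ hcT, ?_⟩
      have h1 : x⁻¹ * (c⁻¹ * x * c) ∈ M := M.mul_mem (M.inv_mem hxM) hxcM
      have h2 := Subgroup.mem_map_of_mem π h1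
      simpa [mul_assoc] using h2
    have hψinj : Function.Injective (fun m : (T ⊓ M.map π : Subgroup K) =>
        (⟨(π x)⁻¹ * (m : K)⁻¹ * π x * (m : K), hφ1 m m.2⟩ : (T ⊓ M.map π : Subgroup K))) := by
      intro a b hab
      exact Subtype.ext (hφinj a a.2.1 b b.2.1 (congrArg Subtype.val hab))
    obtain ⟨m, hm2⟩ := Finite.surjective_of_injective hψinj ⟨_, hc2⟩
    have hm3 : (m : K) = π c := hφinj m m.2.1 (π c) hcT (congrArg Subtype.val hm2)
    obtain ⟨c', hc'M, hc'm⟩ := Subgroup.mem_map.1 m.2.2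
    have hc'c : π c' = π c := hc'm.trans hm3
    have hc'T : π c' ∈ T := by rw [hc'c]; exact hcT
    have hc'1 : π c' ≠ 1 := by rw [hc'c]; exact hc1
    have hle : Subgroup.closure ({x, c'⁻¹ * x * c'} : Set H) ≤ M := by
      rw [Subgroup.closure_le]
      intro y hy
      rcases hy with rfl | hy
      · exact hxM
      · rw [Set.mem_singleton_iff] at hy
        rw [hy]
        exact M.mul_mem (M.mul_mem (M.inv_mem hc'M) hxM) hc'M
    by_cases hcase : c' ∈ Subgroup.closure ({x, c'⁻¹ * x * c'} : Set H)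
    · exact ⟨c', hc'T, hc'1, hcase⟩
    · refine ih (Nat.card (Subgroup.closure ({x, c'⁻¹ * x * c'} : Set H))) ?_ c' rfl hc'T hc'1
      rw [← hcard]
      have hlt : (Subgroup.closure ({x, c'⁻¹ * x * c'} : Set H) : Set H) ⊂ (M : Set H) :=
        ⟨hle, fun h => hcase (h hc'M)⟩
      exact Set.ncard_lt_ncard hlt (Set.toFinite _)

theorem lemL {H : Type u} {K : Type v} [Group H] [Group K] [Finite H] (π : H →* K) (hπ : Function.Surjective π) {x : H}
    {T : Subgroup K} (hTn : T.Normal) (hT : T ≠ ⊥) (hfpf : ∀ v ∈ T, Commute (π x) v → v = 1) :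
    ∃ c : H, π c ∈ T ∧ π c ≠ 1 ∧ c ∈ Subgroup.closure ({x, c⁻¹ * x * c} : Set H) := by
  obtain ⟨t, ht⟩ := (Subgroup.ne_bot_iff_exists_ne_one).1 hT
  obtain ⟨c, hc⟩ := hπ (t : K)
  refine lemLaux π hπ hTn hfpf _ c rfl (by rw [hc]; exact t.2) (by
    rw [hc]
    intro h
    exact ht (Subtype.ext h))

end Pool.Agent.FRC
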