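import Pool.Agent.FRC.PEa

/-!
# FRC/LiftR: lifting a pair of commuting elements of order `t` through a `q`-group

Let `C = closure {v, w}` (commutative, exponent `t`, finite: contained in `range π`; a `t`-group) and `L = C.comap π`.
Let `P` be a Sylow `t`-subgroup of `L`.  The image of `P` in `C` (the map `L → C` is surjective because `v`, `w` are in the
range) is a Sylow subgroup of the `t`-group `C` (`Sylow.mapSurjective`, or: its index divides `[L : P]`, which is prime to
`t`, and is a power of `t`), so it is `C`.  Choose `v'`, `w'` in `P` over `v`, `w`.  `π` is injective on `P` (elements of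
the kernel have `q`-power order, elements of `P` have `t`-power order: `PE.eq_one`).  So `v'^t = w'^t = 1`, `v'` and
`w'` commute, and `w' ∉ zpowers v'` because `w ∉ zpowers v`.
-/

set_option autoImplicit false

namespace Pool.Agent.FRC

universe u v

theorem lift_rank2 {M : Type u} {K : Type v} [Group M] [Group K] [Finite M] (π : M →* K) {q t : ℕ} (hq : q.Prime)
    (ht : t.Prime) (hqt : q ≠ t) (hker : PG q π.ker) {v w : K} (hv : v ∈ π.range) (hw : w ∈ π.range)
    (hvt : v ^ t = 1) (hwt : w ^ t = 1) (hvw : Commute v w) (hv1 : v ≠ 1) (hwv : w ∉ Subgroup.zpowers v) :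
    ∃ v' w' : M, v' ^ t = 1 ∧ w' ^ t = 1 ∧ Commute v' w' ∧ v' ≠ 1 ∧ w' ∉ Subgroup.zpowers v' := by
  have : Fact t.Prime := ⟨ht⟩
  set C : Subgroup K := Subgroup.closure ({v, w} : Set K) with hC
  have hvC : v ∈ C := Subgroup.subset_closure (by simp)
  have hwC : w ∈ C := Subgroup.subset_closure (by simp)
  have hCr : C ≤ π.range := by
    rw [hC, Subgroup.closure_le]
    intro x hx
    rcases hx with rfl | hx
    · exact hv
    · rw [Set.mem_singleton_iff] at hx
      rw [hx]
      exact hw
  have hcw : ∀ x ∈ C, Commute x v ∧ Commute x w := by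
    intro x hx
    rw [hC] at hx
    induction hx using Subgroup.closure_induction with
    | mem y hy =>
      rcases hy with rfl | hy
      · exact ⟨Commute.refl _, hvw⟩
      · rw [Set.mem_singleton_iff] at hy
        rw [hy]
        exact ⟨hvw.symm, Commute.refl _⟩
    | one => exact ⟨Commute.one_left _, Commute.one_left _⟩
    | mul a b _ _ ha hb => exact ⟨ha.1.mul_left hb.1, ha.2.mul_left hb.2⟩
    | inv a _ ha => exact ⟨ha.1.inv_left, ha.2.inv_left⟩
  have hcc : ∀ x ∈ C, ∀ y ∈ C, Commute x y := by
    intro x hx y hy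
    have hx' := hcw x hx
    rw [hC] at hy
    induction hy using Subgroup.closure_induction with
    | mem y hy =>
      rcases hy with rfl | hy
      · exact hx'.1
      · rw [Set.mem_singleton_iff] at hy
        rw [hy]
        exact hx'.2
    | one => exact Commute.one_right _
    | mul a b _ _ ha hb => exact ha.mul_right hb
    | inv a _ ha => exact ha.inv_right
  have hct : ∀ x ∈ C, x ^ t = 1 := by
    intro x hx
    rw [hC] at hx
    induction hx using Subgroup.closure_induction with
    | mem y hy =>
      rcases hy with rfl | hy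
      · exact hvt
      · rw [Set.mem_singleton_iff] at hy
        rw [hy]
        exact hwt
    | one => simp
    | mul a b ha' hb' ha hb => rw [(hcc a ha' b hb').mul_pow, ha, hb, one_mul]
    | inv a _ ha => rw [inv_pow, ha, inv_one]
  set f : C.comap π →* C := π.subgroupComap C with hf
  have hfs : Function.Surjective f := by
    rintro ⟨x, hx⟩
    obtain ⟨y, hy⟩ := hCr hx
    exact ⟨⟨y, by rw [Subgroup.mem_comap, hy]; exact hx⟩, Subtype.ext hy⟩
  let P : Sylow t (C.comap π) := default
  have hCt : IsPGroup t (⊤ : Subgroup C) := by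
    intro x
    refine ⟨1, ?_⟩
    rw [pow_one]
    apply Subtype.ext
    apply Subtype.ext
    exact hct _ x.1.2
  have htop : (⊤ : Subgroup C) = (P.mapSurjective hfs : Subgroup C) :=
    (P.mapSurjective hfs).3 hCt le_top
  have hex : ∀ x : K, ∀ hx : x ∈ C, ∃ y ∈ (P : Subgroup (C.comap π)), π (y : M) = x := by
    intro x hx
    have h1 : (⟨x, hx⟩ : C) ∈ (P.mapSurjective hfs : Subgroup C) := by
      rw [← htop]
      exact Subgroup.mem_top _
    rw [Sylow.coe_mapSurjective] at h1
    obtain ⟨y, hy, hy2⟩ := h1
    exact ⟨y, hy, congrArg Subtype.val hy2⟩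
  have hPt : ∀ y ∈ (P : Subgroup (C.comap π)), PE t (y : M) := by
    intro y hy
    obtain ⟨k, hk⟩ := P.2 ⟨y, hy⟩
    refine ⟨k, ?_⟩
    have := congrArg (fun z : (P : Subgroup (C.comap π)) => ((z : C.comap π) : M)) hk
    simpa using this
  have hinj : ∀ y ∈ (P : Subgroup (C.comap π)), π (y : M) = 1 → (y : M) = 1 := by
    intro y hy h
    exact PE.eq_one hq ht hqt (hker _ h) (hPt y hy)
  obtain ⟨v', hv', hv2⟩ := hex v hvC
  obtain ⟨w', hw', hw2⟩ := hex w hwC
  refine ⟨v', w', ?_, ?_, ?_, ?_, ?_⟩
  · have := hinj (v' ^ t) (pow_mem hv' t) (by push_cast; rw [map_pow, hv2, hvt])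
    simpa using this
  · have := hinj (w' ^ t) (pow_mem hw' t) (by push_cast; rw [map_pow, hw2, hwt])
    simpa using this
  · have := hinj (v' * w' * v'⁻¹ * w'⁻¹)
      (mul_mem (mul_mem (mul_mem hv' hw') (inv_mem hv')) (inv_mem hw'))
      (by
        push_cast
        rw [map_mul, map_mul, map_mul, map_inv, map_inv, hv2, hw2, hvw.eq]
        group)
    push_cast at this
    have h2 : (v' : M) * w' = w' * v' := by
      have h3 := congrArg (fun z : M => z * w' * v') this
      simpa [mul_assoc] using h3
    exact h2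
  · intro h
    apply hv1
    rw [← hv2, h, map_one]
  · rintro ⟨n, hn⟩
    apply hwv
    refine ⟨n, ?_⟩
    have := congrArg π hn
    simpa [hv2, hw2] using this

end Pool.Agent.FRC
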