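import Pool.Agent.FRC.Orb2
import Pool.Agent.FRC.Key
import Pool.Agent.FRC.LemL
import Pool.Agent.FRC.LiftR
import Pool.Agent.FRC.Cyc

/-!
# FRC/LemG: the two-generator trick

`x` has prime order `q` and commutes with `u = g * x * g⁻¹`, `g ∉ F`.  `x ∈ H0 ≤ F`, `H0` finite, `x ∉ Oq q H0`, `T` a
nontrivial normal elementary abelian `t`-subgroup of `H0 ⧸ Oq q H0`.

`lemG1`: `lemL` for `π = QuotientGroup.mk' (Oq q H0)`.  `lemG`: with `c` as in `lemG1` let `H1 = closure {x, u * c}`; it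
contains `c⁻¹ * x * c`, `c`, `u`; `x ∉ Oq q H1`, so `u ∈ Oq q H1` by `key`; `R` is the image of `Oq q H1`; `c0` is a power of
`c`; `q ∣ t - 1` by `dvd_of_cyc`, because a pair of rank 2 would lift to `H1` (`lift_rank2`, `no_rank2`).
-/

set_option autoImplicit false

namespace Pool.Agent.FRC

universe u

variable {G : Type u} [Group G] {F : Subgroup G} {a : G} {p : ℕ}

private theorem lg_map {S : Subgroup G} (y z : S) {w : S}
    (hw : w ∈ Subgroup.closure ({y, z} : Set S)) : (w : G) ∈ Subgroup.closure ({(y : G), (z : G)} : Set G) := by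
  have h := Subgroup.mem_map_of_mem S.subtype hw
  rw [MonoidHom.map_closure, Set.image_pair] at h
  exact h

theorem lemG1 (hE : EPF F) {q : ℕ} (hq : q.Prime) {x : G} (hxq : x ^ q = 1)
    {H0 : Subgroup G} (h0F : H0 ≤ F) (h0f : (H0 : Set G).Finite) (hxH : x ∈ H0)
    (hxO : (⟨x, hxH⟩ : H0) ∉ Oq q H0) {t : ℕ} (ht : t.Prime) (htq : t ≠ q) {T : Subgroup (H0 ⧸ Oq q H0)}
    (hTn : T.Normal) (hT1 : T ≠ ⊥) (hTt : ∀ v ∈ T, v ^ t = 1) :
    ∃ c : G, ∃ hc : c ∈ H0, (QuotientGroup.mk' (Oq q H0) ⟨c, hc⟩) ∈ T ∧ (QuotientGroup.mk' (Oq q H0) ⟨c, hc⟩) ≠ 1 ∧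
      c ∈ Subgroup.closure ({x, c⁻¹ * x * c} : Set G) := by
  have hfin : Finite H0 := h0f.to_subtype
  have hEq : EP (H0 ⧸ Oq q H0) := ep_quot (ep_of_epf hE h0F) (Oq q H0)
  have hx1 : (QuotientGroup.mk' (Oq q H0)) ⟨x, hxH⟩ ≠ 1 := by
    intro h
    exact hxO ((QuotientGroup.eq_one_iff _).1 h)
  have hxe : PE q ((QuotientGroup.mk' (Oq q H0)) ⟨x, hxH⟩) := by
    apply pe_of_pow
    rw [← map_pow]
    have : (⟨x, hxH⟩ : H0) ^ q = 1 := Subtype.ext hxq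
    rw [this, map_one]
  obtain ⟨⟨c, hc⟩, h1, h2, h3⟩ := lemL (QuotientGroup.mk' (Oq q H0)) (QuotientGroup.mk'_surjective _)
    (x := ⟨x, hxH⟩) hTn hT1 (fun v hv hcomm => by
      rcases ep_comm hEq hq ht htq.symm hxe (pe_of_pow (hTt v hv)) hcomm with h | h
      · exact absurd h hx1
      · exact h)
  have h4 := lg_map _ _ h3
  rw [Subgroup.coe_mul, Subgroup.coe_mul, Subgroup.coe_inv] at h4
  exact ⟨c, hc, h1, h2, h4⟩

theorem lemG (H : HG p F a) (hE : EPF F) {q : ℕ} (hq : q.Prime) {x g : G} (hx : x ∈ F) (hxq : x ^ q = 1) (hx1 : x ≠ 1)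
    (hg : g ∉ F) (hc : Commute x (g * x * g⁻¹)) {H0 : Subgroup G} (h0F : H0 ≤ F) (h0f : (H0 : Set G).Finite)
    (hxH : x ∈ H0) (hxO : (⟨x, hxH⟩ : H0) ∉ Oq q H0) {t : ℕ} (ht : t.Prime) (htq : t ≠ q)
    {T : Subgroup (H0 ⧸ Oq q H0)} (hTn : T.Normal) (hT1 : T ≠ ⊥) (hTc : ∀ v ∈ T, ∀ w ∈ T, Commute v w)
    (hTt : ∀ v ∈ T, v ^ t = 1) :
    q ∣ t - 1 ∧ ∃ H1 : Subgroup G, H1 ≤ F ∧ (H1 : Set G).Finite ∧ ∃ c0 ∈ H1, orderOf c0 = t ∧
      ∃ R : Subgroup G, R ≤ H1 ∧ R ≠ ⊥ ∧ PG q R ∧ ∀ h ∈ H1, ∀ y ∈ R, h * y * h⁻¹ ∈ R := by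
  have hfin0 : Finite H0 := h0f.to_subtype
  obtain ⟨c, hc0, hcT, hc1, hccl⟩ := lemG1 hE hq hxq h0F h0f hxH hxO ht htq hTn hT1 hTt
  set π : H0 →* H0 ⧸ Oq q H0 := QuotientGroup.mk' (Oq q H0) with hπ
  set u : G := g * x * g⁻¹ with hu
  have hcF : c ∈ F := h0F hc0
  have huF : u ∈ F := H.norm.conj_mem x hx g
  set H1 : Subgroup G := Subgroup.closure ({x, u * c} : Set G) with hH1
  have h1f : (H1 : Set G).Finite := H.fin x (u * c)
  have h1s : IsSolvable H1 := H.sol x (u * c)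
  have hfin1 : Finite H1 := h1f.to_subtype
  have h1F : H1 ≤ F := by
    rw [hH1, Subgroup.closure_le]
    rintro y (rfl | rfl)
    · exact hx
    · exact mul_mem huF hcF
  have hxH1 : x ∈ H1 := Subgroup.subset_closure (Or.inl rfl)
  have hucH1 : u * c ∈ H1 := Subgroup.subset_closure (Or.inr rfl)
  have hcxc : c⁻¹ * x * c ∈ H1 := by
    have h1 : (u * c)⁻¹ * x * (u * c) = c⁻¹ * x * c := by
      have h2 : u⁻¹ * x * u = x := by
        have h3 : x * u = u * x := hc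
        rw [mul_assoc, h3, inv_mul_cancel_left]
      calc (u * c)⁻¹ * x * (u * c) = c⁻¹ * (u⁻¹ * x * u) * c := by group
        _ = c⁻¹ * x * c := by rw [h2]
    rw [← h1]
    exact mul_mem (mul_mem (inv_mem hucH1) hxH1) hucH1
  have hM1 : Subgroup.closure ({x, c⁻¹ * x * c} : Set G) ≤ H1 := by
    rw [Subgroup.closure_le]
    rintro y (rfl | rfl)
    · exact hxH1
    · exact hcxc
  have hcH1 : c ∈ H1 := hM1 hccl
  have huH1 : u ∈ H1 := by
    have h1 : u = u * c * c⁻¹ := by group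
    rw [h1]
    exact mul_mem hucH1 (inv_mem hcH1)
  -- elementary facts in the quotient
  have hEq : EP (H0 ⧸ Oq q H0) := ep_quot (ep_of_epf hE h0F) (Oq q H0)
  have hπx1 : π ⟨x, hxH⟩ ≠ 1 := fun h => hxO ((QuotientGroup.eq_one_iff _).1 h)
  have hπxq : (π ⟨x, hxH⟩) ^ q = 1 := by
    rw [← map_pow]
    have : (⟨x, hxH⟩ : H0) ^ q = 1 := Subtype.ext hxq
    rw [this, map_one]
  have hπct : (π ⟨c, hc0⟩) ^ t = 1 := hTt _ hcT
  -- (1)
  have hR1 : (⟨x, hxH1⟩ : H1) ∉ Oq q H1 := by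
    intro hmem
    have hn : (Oq q H1).Normal := Oq_normal q H1
    have h1 : (⟨c⁻¹ * x * c, hcxc⟩ : H1) ∈ Oq q H1 := by
      have h2 := hn.conj_mem _ hmem ⟨c⁻¹, inv_mem hcH1⟩
      have h3 : (⟨c⁻¹, inv_mem hcH1⟩ : H1) * ⟨x, hxH1⟩ * (⟨c⁻¹, inv_mem hcH1⟩ : H1)⁻¹ =
          ⟨c⁻¹ * x * c, hcxc⟩ := by
        apply Subtype.ext
        show c⁻¹ * x * (c⁻¹)⁻¹ = c⁻¹ * x * c
        rw [inv_inv]
      rw [h3] at h2
      exact h2
    have h4 : Subgroup.closure ({x, c⁻¹ * x * c} : Set G) ≤ (Oq q H1).map H1.subtype := by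
      rw [Subgroup.closure_le]
      rintro y (rfl | rfl)
      · exact ⟨_, hmem, rfl⟩
      · exact ⟨_, h1, rfl⟩
    obtain ⟨c', hc', hcc'⟩ := h4 hccl
    have h5 : PE q c := by
      have h6 := Oq_pg q H1 c' hc'
      have h7 := h6.map H1.subtype
      rw [hcc'] at h7
      exact h7
    have h6 : PE q (⟨c, hc0⟩ : H0) := (pe_inj H0.subtype H0.subtype_injective).1 h5
    exact hc1 (PE.eq_one hq ht htq.symm (h6.map π) (pe_of_pow hπct))
  -- (2)
  have hR2 : (⟨u, huH1⟩ : H1) ∈ Oq q H1 := by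
    refine key h1s (ep_of_epf hE h1F) hq (x := ⟨x, hxH1⟩) (u := ⟨u, huH1⟩) (Subtype.ext hxq) ?_ ?_ ?_ hR1
    · apply Subtype.ext
      show (g * x * g⁻¹) ^ q = 1
      rw [conj_pow, hxq, mul_one, mul_inv_cancel]
    · exact Subtype.ext hc
    · intro h z hz
      have h2 : (h : G) * g ∉ F := fun h3 => hg ((Subgroup.mul_mem_cancel_left F (h1F h.2)).1 h3)
      have h3 := cross H hq hx (pe_of_pow hxq) (u := 1) (v := (h : G) * g) (by simpa using h2)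
      have h4 := lg_map _ _ hz
      refine (pe_inj H1.subtype H1.subtype_injective).1 (h3 _ ?_)
      have e1 : (1 : G) * x * 1⁻¹ = x := by group
      have e2 : (h : G) * g * x * ((h : G) * g)⁻¹ = h * u * (h : G)⁻¹ := by
        rw [hu]; group
      rw [e1, e2]
      exact h4
  have hu1 : u ≠ 1 := by
    intro h
    apply hx1
    have h2 : x = g⁻¹ * u * g := by rw [hu]; group
    rw [h2, h]
    group
  -- (4)
  refine ⟨?_, H1, h1F, h1f, ?_⟩
  · have hnc : ¬ Commute (π ⟨x, hxH⟩) (π ⟨c, hc0⟩) := by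
      intro h
      rcases ep_comm hEq hq ht htq.symm (pe_of_pow hπxq) (pe_of_pow hπct) h with h' | h'
      · exact hπx1 h'
      · exact hc1 h'
    refine dvd_of_cyc ht hq (v := π ⟨c, hc0⟩) (x := π ⟨x, hxH⟩) hπct hc1 hπxq ?_ hnc
    by_contra hnz
    set w : H0 ⧸ Oq q H0 := π ⟨x, hxH⟩ * π ⟨c, hc0⟩ * (π ⟨x, hxH⟩)⁻¹ with hw
    have hwT : w ∈ T := hTn.conj_mem _ hcT _
    have hM0 : Subgroup.closure ({x, c⁻¹ * x * c} : Set G) ≤ H0 := by
      rw [Subgroup.closure_le]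
      rintro y (rfl | rfl)
      · exact hxH
      · exact mul_mem (mul_mem (inv_mem hc0) hxH) hc0
    have hfinM : Finite (Subgroup.closure ({x, c⁻¹ * x * c} : Set G)) := (h0f.subset hM0).to_subtype
    have hxM : x ∈ Subgroup.closure ({x, c⁻¹ * x * c} : Set G) := Subgroup.subset_closure (Or.inl rfl)
    set ψ := π.comp (Subgroup.inclusion hM0) with hψ
    have hψc : ψ ⟨c, hccl⟩ = π ⟨c, hc0⟩ := rfl
    have hψx : ψ ⟨x, hxM⟩ = π ⟨x, hxH⟩ := rfl
    have hker : PG q ψ.ker := by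
      intro m hm
      have h1 : π (Subgroup.inclusion hM0 m) = 1 := hm
      have h2 : Subgroup.inclusion hM0 m ∈ Oq q H0 := (QuotientGroup.eq_one_iff _).1 h1
      exact (pe_inj (Subgroup.inclusion hM0) (Subgroup.inclusion_injective hM0)).1 (Oq_pg q H0 _ h2)
    obtain ⟨v', w', hv't, hw't, hvw', hv1', hwv'⟩ := lift_rank2 ψ hq ht htq.symm hker
      (v := π ⟨c, hc0⟩) (w := w) ⟨⟨c, hccl⟩, hψc⟩
      ⟨⟨x, hxM⟩ * ⟨c, hccl⟩ * (⟨x, hxM⟩)⁻¹, by rw [map_mul, map_mul, map_inv, hψc, hψx]⟩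
      hπct (hTt w hwT) (hTc _ hcT _ hwT) hc1 hnz
    have hinj := Subgroup.inclusion_injective hM1
    have hbot := no_rank2 (ep_of_epf hE h1F) ht hq htq (u := Subgroup.inclusion hM1 v')
      (w := Subgroup.inclusion hM1 w') (by rw [← map_pow, hv't, map_one])
      (by rw [← map_pow, hw't, map_one]) (hvw'.map (Subgroup.inclusion hM1))
      (fun h => hv1' (hinj (by rw [h, map_one])))
      (by
        intro h
        obtain ⟨n, hn⟩ := Subgroup.mem_zpowers_iff.1 h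
        refine hwv' (Subgroup.mem_zpowers_iff.2 ⟨n, hinj ?_⟩)
        rw [map_zpow]
        exact hn)
      (Oq_normal q H1) (Oq_pg q H1)
    rw [hbot, Subgroup.mem_bot] at hR2
    exact hu1 (congrArg Subtype.val hR2)
  · -- (3)
    have : Fact t.Prime := ⟨ht⟩
    have hord : orderOf (π ⟨c, hc0⟩) = t := orderOf_eq_prime hπct hc1
    have hdvd : t ∣ orderOf c := by
      have h1 : orderOf (π ⟨c, hc0⟩) ∣ orderOf (⟨c, hc0⟩ : H0) := orderOf_map_dvd π _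
      rw [hord, Subgroup.orderOf_mk] at h1
      exact h1
    have hpos : orderOf c ≠ 0 := by
      have h1 : 0 < orderOf (⟨c, hc0⟩ : H0) := orderOf_pos _
      rw [Subgroup.orderOf_mk] at h1
      exact h1.ne'
    refine ⟨c ^ (orderOf c / t), pow_mem hcH1 _, orderOf_pow_orderOf_div hpos hdvd,
      (Oq q H1).map H1.subtype, ?_, ?_, ?_, ?_⟩
    · rintro y ⟨z, _, rfl⟩
      exact z.2
    · intro hbot
      have h1 : u ∈ (Oq q H1).map H1.subtype := ⟨_, hR2, rfl⟩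
      rw [hbot, Subgroup.mem_bot] at h1
      exact hu1 h1
    · rintro y ⟨z, hz, rfl⟩
      exact (Oq_pg q H1 z hz).map H1.subtype
    · rintro h hh y ⟨z, hz, rfl⟩
      have hn : (Oq q H1).Normal := Oq_normal q H1
      exact ⟨_, hn.conj_mem z hz ⟨h, hh⟩, rfl⟩

end Pool.Agent.FRC
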