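import Pool.Agent.FRC.ZornG
import Pool.Agent.FRB.LFx

/-!
# FRC/MainA: the kernel is the direct product of its primary components

* `comm_cop`: strong induction on `orderOf x + orderOf y` (or first `x`, then `y`): if `orderOf x` is not a prime power, it
  is `u * v` with `u, v > 1` coprime, and `x` is a product of a power of `x^u` and a power of `x^v` (Bezout), elements of
  smaller orders `v`, `u`, both coprime to `orderOf y`.  If both orders are prime powers (or 1), the primes are
  different (or one element is 1): `comm_rs`.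
* `lf_of_primary`: if for every prime `r` the subgroup `closure {x ∈ F | PE r x}` is locally finite then `F` is: these
  subgroups are normal in `F` and generate `F` (every `x ∈ F` is a product of powers of itself of prime power order);
  `FRB.lf_sSup` with `Y = F`.
-/

set_option autoImplicit false

namespace Pool.Agent.FRC

open Pool.Agent.FRB

universe u

variable {G : Type u} [Group G] {F : Subgroup G} {a : G} {p : ℕ}

private theorem fin_ord (H : HG p F a) (x : G) : 0 < orderOf x := by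
  have h1 : ((Subgroup.zpowers x : Subgroup G) : Set G).Finite := by
    refine (H.fin x x).subset ?_
    have h2 : Subgroup.zpowers x ≤ Subgroup.closure ({x, x} : Set G) := by
      rw [Subgroup.zpowers_le]
      exact Subgroup.subset_closure (Or.inl rfl)
    exact h2
  exact (finite_zpowers.1 h1).orderOf_pos

/-- an element of finite order is a product of powers of itself of prime power order -/
private theorem dec : ∀ n : ℕ, ∀ x : G, orderOf x = n → 0 < n →
    x ∈ Subgroup.closure {y : G | y ∈ Subgroup.zpowers x ∧ ∃ r : ℕ, r.Prime ∧ r ∣ orderOf x ∧ PE r y} := by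
  intro n
  induction n using Nat.strong_induction_on with
  | _ n ih =>
    intro x hx hn
    by_cases h1 : n = 1
    · rw [h1, orderOf_eq_one_iff] at hx
      rw [hx]
      exact Subgroup.one_mem _
    obtain ⟨r, hr, hrn⟩ := Nat.exists_prime_and_dvd h1
    obtain ⟨k, m, hm, hnm⟩ := Nat.exists_eq_pow_mul_and_not_dvd hn.ne' r hr.ne_one
    have hk : k ≠ 0 := by
      rintro rfl
      rw [pow_zero, one_mul] at hnm
      exact hm (hnm ▸ hrn)
    have hm0 : 0 < m := by
      rcases Nat.eq_zero_or_pos m with h | h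
      · rw [h, mul_zero] at hnm
        omega
      · exact h
    have hcop : Nat.Coprime (r ^ k) m := Nat.Coprime.pow_left k ((Nat.Prime.coprime_iff_not_dvd hr).2 hm)
    have hmn : m < n := by
      rw [hnm]
      have h2 : 2 ≤ r ^ k := hr.two_le.trans (Nat.le_self_pow hk r)
      nlinarith
    -- Bezout
    have hb := Nat.gcd_eq_gcd_ab (r ^ k) m
    rw [hcop.gcd_eq_one] at hb
    have hxe : x = (x ^ (r ^ k)) ^ (Nat.gcdA (r ^ k) m) * (x ^ m) ^ (Nat.gcdB (r ^ k) m) := by
      rw [← zpow_natCast, ← zpow_natCast, ← zpow_mul, ← zpow_mul, ← zpow_add]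
      conv_lhs => rw [← zpow_one x]
      congr 1
    have hord : orderOf (x ^ (r ^ k)) ∣ m := by
      apply orderOf_dvd_of_pow_eq_one
      rw [← pow_mul, ← hnm, ← hx, pow_orderOf_eq_one]
    have hpos : 0 < orderOf (x ^ (r ^ k)) := Nat.pos_of_dvd_of_pos hord hm0
    have hlt : orderOf (x ^ (r ^ k)) < n := (Nat.le_of_dvd hm0 hord).trans_lt hmn
    have h2 := ih _ hlt (x ^ (r ^ k)) rfl hpos
    have hle : Subgroup.closure {y : G | y ∈ Subgroup.zpowers (x ^ (r ^ k)) ∧
        ∃ r' : ℕ, r'.Prime ∧ r' ∣ orderOf (x ^ (r ^ k)) ∧ PE r' y} ≤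
        Subgroup.closure {y : G | y ∈ Subgroup.zpowers x ∧ ∃ r : ℕ, r.Prime ∧ r ∣ orderOf x ∧ PE r y} := by
      apply Subgroup.closure_mono
      rintro y ⟨hy, r', hr', hd, hp⟩
      refine ⟨?_, r', hr', ?_, hp⟩
      · have h3 : Subgroup.zpowers (x ^ (r ^ k)) ≤ Subgroup.zpowers x := by
          rw [Subgroup.zpowers_le]
          exact Subgroup.pow_mem _ (Subgroup.mem_zpowers x) _
        exact h3 hy
      · exact hd.trans (hord.trans (by rw [hx, hnm]; exact Dvd.intro_left _ rfl))
    have h4 : x ^ m ∈ Subgroup.closure {y : G | y ∈ Subgroup.zpowers x ∧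
        ∃ r : ℕ, r.Prime ∧ r ∣ orderOf x ∧ PE r y} := by
      apply Subgroup.subset_closure
      refine ⟨Subgroup.pow_mem _ (Subgroup.mem_zpowers x) _, r, hr, ?_, k, ?_⟩
      · rw [hx]; exact hrn
      · rw [← pow_mul, mul_comm m, ← hnm, ← hx, pow_orderOf_eq_one]
    have h5 : (x ^ (r ^ k)) ^ (Nat.gcdA (r ^ k) m) * (x ^ m) ^ (Nat.gcdB (r ^ k) m) ∈
        Subgroup.closure {y : G | y ∈ Subgroup.zpowers x ∧
        ∃ r : ℕ, r.Prime ∧ r ∣ orderOf x ∧ PE r y} :=
      Subgroup.mul_mem _ (Subgroup.zpow_mem _ (hle h2) _) (Subgroup.zpow_mem _ h4 _)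
    rw [← hxe] at h5
    exact h5

theorem comm_cop (H : HG p F a) {x y : G} (hx : x ∈ F) (hy : y ∈ F) (hc : (orderOf x).Coprime (orderOf y)) :
    Commute x y := by
  have dx := dec _ x rfl (fin_ord H x)
  have dy := dec _ y rfl (fin_ord H y)
  have h1 : Subgroup.closure {z : G | z ∈ Subgroup.zpowers x ∧ ∃ r : ℕ, r.Prime ∧ r ∣ orderOf x ∧ PE r z} ≤
      Subgroup.centralizer {z : G | z ∈ Subgroup.zpowers y ∧ ∃ r : ℕ, r.Prime ∧ r ∣ orderOf y ∧ PE r z} := by
    rw [Subgroup.closure_le]
    rintro z ⟨hz, r, hr, hrx, hzr⟩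
    rw [SetLike.mem_coe, Subgroup.mem_centralizer_iff]
    rintro w ⟨hw, t, ht, hty, hwt⟩
    have hne : r ≠ t := by
      rintro rfl
      have h2 := Nat.dvd_gcd hrx hty
      rw [hc.gcd_eq_one] at h2
      exact hr.one_lt.ne' (Nat.dvd_one.1 h2)
    have hzF : z ∈ F := (Subgroup.zpowers_le.2 hx) hz
    have hwF : w ∈ F := (Subgroup.zpowers_le.2 hy) hw
    exact (comm_rs H hr ht hne hzF hwF hzr hwt).symm
  have h2 := h1 dx
  rw [Subgroup.mem_centralizer_iff] at h2
  have h3 : Subgroup.closure {z : G | z ∈ Subgroup.zpowers y ∧ ∃ r : ℕ, r.Prime ∧ r ∣ orderOf y ∧ PE r z} ≤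
      Subgroup.centralizer {x} := by
    rw [Subgroup.closure_le]
    intro w hw
    rw [SetLike.mem_coe, Subgroup.mem_centralizer_iff]
    intro h hh
    rw [Set.mem_singleton_iff] at hh
    subst hh
    exact (h2 w hw).symm
  have h4 := h3 dy
  rw [Subgroup.mem_centralizer_iff] at h4
  exact h4 x rfl

theorem lf_of_primary (H : HG p F a)
    (h : ∀ r : ℕ, r.Prime → LF (Subgroup.closure {x : G | x ∈ F ∧ PE r x})) : LF F := by
  have key : LF (sSup {L : Subgroup G | ∃ r : ℕ, r.Prime ∧ L = Subgroup.closure {x : G | x ∈ F ∧ PE r x}}) := by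
    refine lf_sSup (Y := F) ?_ ?_ ?_
    · rintro L ⟨r, _, rfl⟩
      rw [Subgroup.closure_le]
      intro x hx
      exact hx.1
    · rintro L ⟨r, _, rfl⟩ y hy x hx
      have hle : Subgroup.closure {x : G | x ∈ F ∧ PE r x} ≤
          (Subgroup.closure {x : G | x ∈ F ∧ PE r x}).comap (MulAut.conj y⁻¹ : G →* G) := by
        rw [Subgroup.closure_le]
        rintro z ⟨hz, n, hn⟩
        rw [SetLike.mem_coe, Subgroup.mem_comap]
        apply Subgroup.subset_closure
        have e : (MulAut.conj y⁻¹ : G →* G) z = y⁻¹ * z * y⁻¹⁻¹ := rfl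
        rw [e]
        refine ⟨?_, n, ?_⟩
        · exact F.mul_mem (F.mul_mem (F.inv_mem hy) hz) (F.inv_mem (F.inv_mem hy))
        · rw [conj_pow, hn]
          group
      have h4 := hle hx
      rw [Subgroup.mem_comap] at h4
      have e : (MulAut.conj y⁻¹ : G →* G) x = y⁻¹ * x * y⁻¹⁻¹ := rfl
      rw [e, inv_inv] at h4
      exact h4
    · rintro L ⟨r, hr, rfl⟩
      exact h r hr
  refine lf_mono ?_ key
  intro x hx
  have dx := dec _ x rfl (fin_ord H x)
  refine (?_ : Subgroup.closure _ ≤ _) dx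
  rw [Subgroup.closure_le]
  rintro z ⟨hz, r, hr, _, hzr⟩
  have hzF : z ∈ F := (Subgroup.zpowers_le.2 hx) hz
  have h5 : Subgroup.closure {x : G | x ∈ F ∧ PE r x} ≤
      sSup {L : Subgroup G | ∃ r : ℕ, r.Prime ∧ L = Subgroup.closure {x : G | x ∈ F ∧ PE r x}} :=
    le_sSup ⟨r, hr, rfl⟩
  exact h5 (Subgroup.subset_closure ⟨hzF, hzr⟩)

end Pool.Agent.FRC
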