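import Pool.Agent.FRC.Contra

/-!
# FRC/MainM: good elements lie in normal `q`-subgroups; their normal closures are `q`-groups

* `mainM`: if `x = 1` clear.  Otherwise suppose `x ∉ Oq q H0`; `Oq_min` gives `t ≠ q`, `T`; `lemG` gives `q ∣ t - 1`
  (so `q < t`, as `t - 1 > 0`), `H1`, `c0`, `R`; contradiction by `contra` (with `s := t`).
* `ncl`: the conjugates `h * x * h⁻¹` of `x` are good: they commute with `g' * (h x h⁻¹) * g'⁻¹`, `g' = h * a * h⁻¹ ∉ F`.
  `Subgroup.closure_induction_right` (or similar) for `normalClosure {x} = closure (conjugatesOfSet {x})` and the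
  property `z ∈ F ∧ PE q z`.  Step: `z ∈ F`, `PE q z`, `y` a conjugate of `x` or the inverse of one; let
  `L = closure {z, y}` (`≤ F`, finite, soluble).  `y ∈ Oq q L` by `mainM`.  The quotient `L ⧸ Oq q L` is generated by
  the class of `z`, so every element of it is a power of this class and has `q`-power order, so every element of `L`, in
  particular `z * y`, has `q`-power order (`PE.ext`, `Oq_pg`).
-/

set_option autoImplicit false

namespace Pool.Agent.FRC

universe u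

variable {G : Type u} [Group G] {F : Subgroup G} {a : G} {p : ℕ}

theorem mainM (H : HG p F a) (hE : EPF F) {q : ℕ} (hq : q.Prime) {x g : G} (hx : x ∈ F) (hxq : x ^ q = 1)
    (hg : g ∉ F) (hc : Commute x (g * x * g⁻¹)) {H0 : Subgroup G} (h0F : H0 ≤ F) (h0f : (H0 : Set G).Finite)
    (h0s : IsSolvable H0) (hxH : x ∈ H0) : (⟨x, hxH⟩ : H0) ∈ Oq q H0 := by
  by_cases hx1 : x = 1
  · subst hx1
    exact (Oq q H0).one_mem
  by_contra hxO
  have : Finite H0 := h0f.to_subtype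
  obtain ⟨t, ht, htq, T, hTn, hT1, hTc, hTt⟩ := Oq_min h0s hxO
  obtain ⟨hd, H1, h1F, h1f, c0, hc0, hoc, R, hRH, hR1, hRq, hRn⟩ :=
    lemG H hE hq hx hxq hx1 hg hc h0F h0f hxH hxO ht htq hTn hT1 hTc hTt
  have hqt : q < t := by
    have h2 := ht.two_le
    have := Nat.le_of_dvd (by omega) hd
    omega
  exact contra H hE hq ht hqt (h1F hc0) hoc (hRH.trans h1F) (h1f.subset hRH) hR1 hRq
    (fun y hy => hRn c0 hc0 y hy)

private theorem ncl_step (H : HG p F a) (hE : EPF F) {q : ℕ} (hq : q.Prime) {z y g : G} (hz : z ∈ F)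
    (hzq : PE q z) (hy : y ∈ F) (hyq : y ^ q = 1) (hg : g ∉ F) (hc : Commute y (g * y * g⁻¹)) :
    PE q (z * y) := by
  have mz : z ∈ Subgroup.closure ({z, y} : Set G) := Subgroup.subset_closure (by simp)
  have my : y ∈ Subgroup.closure ({z, y} : Set G) := Subgroup.subset_closure (by simp)
  have hLF : Subgroup.closure ({z, y} : Set G) ≤ F := by
    rw [Subgroup.closure_le]
    intro w hw
    rcases hw with rfl | hw
    · exact hz
    · rw [Set.mem_singleton_iff] at hw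
      rw [hw]
      exact hy
  have h1 := mainM H hE hq hy hyq hg hc hLF (H.fin z y) (H.sol z y) my
  obtain ⟨n, hn⟩ := hzq
  have h2 : ((⟨z, mz⟩ : Subgroup.closure ({z, y} : Set G)) * ⟨y, my⟩) ^ (q ^ n) ∈
      Oq q (Subgroup.closure ({z, y} : Set G)) := by
    rw [← QuotientGroup.eq_one_iff, QuotientGroup.mk_pow, QuotientGroup.mk_mul,
      (QuotientGroup.eq_one_iff _).mpr h1, mul_one, ← QuotientGroup.mk_pow, QuotientGroup.eq_one_iff]
    have h3 : (⟨z, mz⟩ : Subgroup.closure ({z, y} : Set G)) ^ (q ^ n) = 1 := by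
      apply Subtype.ext
      simpa using hn
    rw [h3]
    exact Subgroup.one_mem _
  have h4 : PE q ((⟨z, mz⟩ : Subgroup.closure ({z, y} : Set G)) * ⟨y, my⟩) := PE.ext (Oq_pg q _ _ h2)
  exact h4.map (Subgroup.closure ({z, y} : Set G)).subtype

theorem ncl (H : HG p F a) (hE : EPF F) {q : ℕ} (hq : q.Prime) {x : G} (hx : x ∈ F) (hxq : x ^ q = 1)
    (hc : Commute x (a * x * a⁻¹)) : PG q (Subgroup.normalClosure ({x} : Set G)) := by
  have hN : F.Normal := H.norm
  have key : ∀ y ∈ Group.conjugatesOfSet ({x} : Set G),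
      y ∈ F ∧ y ^ q = 1 ∧ ∃ g : G, g ∉ F ∧ Commute y (g * y * g⁻¹) := by
    intro y hy
    obtain ⟨y0, hy0, hyc⟩ := Group.mem_conjugatesOfSet_iff.mp hy
    rw [Set.mem_singleton_iff] at hy0
    rw [hy0] at hyc
    obtain ⟨h, rfl⟩ := isConj_iff.mp hyc
    refine ⟨hN.conj_mem x hx h, ?_, h * a * h⁻¹, ?_, ?_⟩
    · rw [conj_pow, hxq]
      group
    · intro hmem
      apply H.nmem
      have := hN.conj_mem _ hmem h⁻¹
      have e : h⁻¹ * (h * a * h⁻¹) * h⁻¹⁻¹ = a := by group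
      rwa [e] at this
    · have e : h * a * h⁻¹ * (h * x * h⁻¹) * (h * a * h⁻¹)⁻¹ = h * (a * x * a⁻¹) * h⁻¹ := by group
      rw [e]
      show h * x * h⁻¹ * (h * (a * x * a⁻¹) * h⁻¹) = h * (a * x * a⁻¹) * h⁻¹ * (h * x * h⁻¹)
      calc h * x * h⁻¹ * (h * (a * x * a⁻¹) * h⁻¹) = h * (x * (a * x * a⁻¹)) * h⁻¹ := by group
        _ = h * (a * x * a⁻¹ * x) * h⁻¹ := by rw [hc.eq]
        _ = h * (a * x * a⁻¹) * h⁻¹ * (h * x * h⁻¹) := by group
  have main : ∀ z, z ∈ Subgroup.closure (Group.conjugatesOfSet ({x} : Set G)) → z ∈ F ∧ PE q z := by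
    intro z hz
    refine Subgroup.closure_induction_right (p := fun z _ => z ∈ F ∧ PE q z) ⟨F.one_mem, pe_one q⟩ ?_ ?_ hz
    · rintro z _ y hy ⟨hzF, hzq⟩
      obtain ⟨k1, k2, g, k3, k4⟩ := key y hy
      exact ⟨F.mul_mem hzF k1, ncl_step H hE hq hzF hzq k1 k2 k3 k4⟩
    · rintro z _ y hy ⟨hzF, hzq⟩
      obtain ⟨k1, k2, g, k3, k4⟩ := key y hy
      refine ⟨F.mul_mem hzF (F.inv_mem k1), ncl_step H hE hq hzF hzq (F.inv_mem k1) ?_ k3 ?_⟩
      · rw [inv_pow, k2, inv_one]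
      · have e : g * y⁻¹ * g⁻¹ = (g * y * g⁻¹)⁻¹ := by group
        rw [e]
        exact k4.inv_inv
  exact fun z hz => (main z hz).2

end Pool.Agent.FRC
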