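import Pool.Agent.FRC.PEa

/-!
# FRC/OqA: the largest normal `q`-subgroup

The product of two normal subgroups in which all elements have `q`-power order has the same property (if `x ∈ M N`, then
`x^(q^n) ∈ N` for some `n`, apply `PE.ext`), so the set `{P | P.Normal ∧ PG q P}` is directed (and nonempty: `⊥`) and
`Subgroup.mem_sSup_of_directedOn` gives `Oq_pg`.
`Oq_quot`: the preimage of `N` in `H` is normal and all its elements have `q`-power order, so it is `≤ Oq q H`.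
-/

set_option autoImplicit false

namespace Pool.Agent.FRC

universe u

variable {H : Type u} [Group H] {q : ℕ}

private theorem sup_pg {M N : Subgroup H} (hN : N.Normal) (h1 : PG q M) (h2 : PG q N) :
    PG q (M ⊔ N) := by
  intro x hx
  have hx' : x ∈ ((M ⊔ N : Subgroup H) : Set H) := hx
  rw [Subgroup.mul_normal M N] at hx'
  obtain ⟨m, hm, n, hn, rfl⟩ := Set.mem_mul.1 hx'
  obtain ⟨k, hk⟩ := h1 m hm
  have h3 : (m * n) ^ (q ^ k) ∈ N := by
    rw [← QuotientGroup.eq_one_iff, QuotientGroup.mk_pow, QuotientGroup.mk_mul,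
      (QuotientGroup.eq_one_iff n).2 hn, mul_one, ← QuotientGroup.mk_pow, hk, QuotientGroup.mk_one]
  exact PE.ext (h2 _ h3)

private theorem mem_Oq (q : ℕ) (H : Type u) [Group H] (x : H) :
    x ∈ Oq q H ↔ ∃ P : Subgroup H, (P.Normal ∧ PG q P) ∧ x ∈ P := by
  unfold Oq
  rw [Subgroup.mem_sSup_of_directedOn]
  · rfl
  · refine ⟨⊥, Subgroup.normal_bot, ?_⟩
    intro y hy
    rw [Subgroup.mem_bot.1 hy]
    exact pe_one q
  · rintro M ⟨hM, hM'⟩ N ⟨hN, hN'⟩
    exact ⟨M ⊔ N, ⟨Subgroup.sup_normal M N, sup_pg hN hM' hN'⟩, le_sup_left, le_sup_right⟩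

instance Oq_normal (q : ℕ) (H : Type u) [Group H] : (Oq q H).Normal := by
  constructor
  intro x hx g
  obtain ⟨P, ⟨h1, h2⟩, h3⟩ := (mem_Oq q H x).1 hx
  exact (mem_Oq q H _).2 ⟨P, ⟨h1, h2⟩, h1.conj_mem x h3 g⟩

theorem Oq_pg (q : ℕ) (H : Type u) [Group H] : PG q (Oq q H) := by
  intro x hx
  obtain ⟨P, ⟨_, h2⟩, h3⟩ := (mem_Oq q H x).1 hx
  exact h2 x h3

theorem Oq_max {P : Subgroup H} (hP : P.Normal) (h : PG q P) : P ≤ Oq q H := by
  exact le_sSup ⟨hP, h⟩

theorem Oq_quot {N : Subgroup (H ⧸ Oq q H)} (hN : N.Normal) (h : PG q N) : N = ⊥ := by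
  have hP : N.comap (QuotientGroup.mk' (Oq q H)) ≤ Oq q H := by
    apply Oq_max (hN.comap _)
    intro x hx
    obtain ⟨n, hn⟩ := h _ (Subgroup.mem_comap.1 hx)
    have h1 : x ^ (q ^ n) ∈ Oq q H := by
      rw [← QuotientGroup.eq_one_iff, QuotientGroup.mk_pow]
      exact hn
    exact PE.ext (Oq_pg q H _ h1)
  rw [eq_bot_iff]
  intro y hy
  obtain ⟨x, rfl⟩ := QuotientGroup.mk'_surjective (Oq q H) y
  rw [Subgroup.mem_bot]
  exact (QuotientGroup.eq_one_iff x).2 (hP hy)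

end Pool.Agent.FRC
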