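import Pool.Agent.FRC.OqA
import Pool.Agent.FRC.SolM

/-!
# FRC/OqB: if `x ∉ Oq q H` there is a normal elementary abelian `t`-subgroup of `H ⧸ Oq q H`, `t ≠ q`

`H ⧸ Oq q H` is finite, soluble and nontrivial (the class of `x`); `sol_min`; if `t = q` then `T = ⊥` by `Oq_quot`.
-/

set_option autoImplicit false

namespace Pool.Agent.FRC

universe u

theorem Oq_min {H : Type u} [Group H] [Finite H] (hs : IsSolvable H) {q : ℕ} {x : H} (hx : x ∉ Oq q H) :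
    ∃ t : ℕ, t.Prime ∧ t ≠ q ∧ ∃ T : Subgroup (H ⧸ Oq q H), T.Normal ∧ T ≠ ⊥ ∧
      (∀ v ∈ T, ∀ w ∈ T, Commute v w) ∧ ∀ v ∈ T, v ^ t = 1 := by
  have hnt : Nontrivial (H ⧸ Oq q H) := by
    refine ⟨⟨(x : H ⧸ Oq q H), 1, ?_⟩⟩
    intro h
    exact hx ((QuotientGroup.eq_one_iff x).1 h)
  have hsol : IsSolvable (H ⧸ Oq q H) := by
    haveI : Group.IsSolvable H := hs
    exact solvable_of_surjective (QuotientGroup.mk'_surjective (Oq q H))
  obtain ⟨t, ht, T, hT, hTb, hc, hp⟩ := sol_min hsol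
  refine ⟨t, ht, ?_, T, hT, hTb, hc, hp⟩
  intro htq
  apply hTb
  apply Oq_quot hT
  intro v hv
  refine ⟨1, ?_⟩
  have h1 : v ^ (q ^ 1) = v ^ t := by
    rw [htq, pow_one]
  rw [h1]
  exact hp v hv

end Pool.Agent.FRC
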