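import Pool.Agent.FRC.Defs2

/-!
# FRC/PEa: elements of prime power order (elementary facts)

`epf_comm`: if `x`, `y` commute, `PE r x`, `PE s y`, then `x * y ∈ F` has `t`-power order for a prime `t`:
`(x y)^(t^k) = 1`, so `x^(t^k) = (y^(t^k))⁻¹` has `r`-power and `s`-power order, so is `1` (`PE.eq_one`).  If `x ≠ 1` then
`t = r`, if `y ≠ 1` then `t = s`.
-/

set_option autoImplicit false

namespace Pool.Agent.FRC

universe u v

variable {G : Type u} [Group G] {K : Type v} [Group K] {F : Subgroup G} {r s : ℕ}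

theorem pe_one (r : ℕ) : PE r (1 : G) := ⟨0, by simp⟩

theorem pe_of_pow {x : G} (h : x ^ r = 1) : PE r x := ⟨1, by simpa using h⟩

theorem PE.conj {x : G} (h : PE r x) (g : G) : PE r (g * x * g⁻¹) := by
  obtain ⟨n, hn⟩ := h
  refine ⟨n, ?_⟩
  rw [conj_pow, hn, mul_one, mul_inv_cancel]

theorem PE.inv {x : G} (h : PE r x) : PE r x⁻¹ := by
  obtain ⟨n, hn⟩ := h
  exact ⟨n, by rw [inv_pow, hn, inv_one]⟩

theorem PE.zpow {x : G} (h : PE r x) (n : ℤ) : PE r (x ^ n) := by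
  obtain ⟨k, hk⟩ := h
  refine ⟨k, ?_⟩
  rw [← zpow_natCast, ← zpow_mul, mul_comm, zpow_mul, zpow_natCast, hk, one_zpow]

private theorem pow_mono {x : G} {m n : ℕ} (h : x ^ (r ^ m) = 1) (hmn : m ≤ n) :
    x ^ (r ^ n) = 1 := by
  obtain ⟨k, rfl⟩ := Nat.exists_eq_add_of_le hmn
  rw [pow_add, pow_mul, h, one_pow]

theorem PE.mul {x y : G} (hx : PE r x) (hy : PE r y) (hxy : Commute x y) : PE r (x * y) := by
  obtain ⟨m, hm⟩ := hx
  obtain ⟨n, hn⟩ := hy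
  refine ⟨max m n, ?_⟩
  rw [hxy.mul_pow, pow_mono hm (le_max_left m n), pow_mono hn (le_max_right m n), mul_one]

theorem PE.map {x : G} (h : PE r x) (f : G →* K) : PE r (f x) := by
  obtain ⟨n, hn⟩ := h
  exact ⟨n, by rw [← map_pow, hn, map_one]⟩

theorem pe_inj {x : G} (f : G →* K) (hf : Function.Injective f) : PE r (f x) ↔ PE r x := by
  refine ⟨fun h => ?_, fun h => h.map f⟩
  obtain ⟨n, hn⟩ := h
  refine ⟨n, hf ?_⟩
  rw [map_pow, hn, map_one]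

theorem PE.eq_one (hr : r.Prime) (hs : s.Prime) (hrs : r ≠ s) {x : G} (hx : PE r x) (hy : PE s x) : x = 1 := by
  obtain ⟨m, hm⟩ := hx
  obtain ⟨n, hn⟩ := hy
  rw [← orderOf_eq_one_iff]
  have h1 := orderOf_dvd_of_pow_eq_one hm
  have h2 := orderOf_dvd_of_pow_eq_one hn
  have h3 : Nat.Coprime (r ^ m) (s ^ n) :=
    Nat.Coprime.pow m n ((Nat.coprime_primes hr hs).2 hrs)
  exact Nat.dvd_one.1 (h3 ▸ Nat.dvd_gcd h1 h2)

theorem PE.ext {x : G} {n : ℕ} (h : PE r (x ^ (r ^ n))) : PE r x := by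
  obtain ⟨m, hm⟩ := h
  refine ⟨n + m, ?_⟩
  rw [pow_add, pow_mul, hm]

theorem pe_iff (hr : r.Prime) {x : G} : PE r x ↔ ∃ n : ℕ, orderOf x = r ^ n := by
  constructor
  · rintro ⟨n, hn⟩
    obtain ⟨k, -, hk⟩ := (Nat.dvd_prime_pow hr).1 (orderOf_dvd_of_pow_eq_one hn)
    exact ⟨k, hk⟩
  · rintro ⟨n, hn⟩
    exact ⟨n, by rw [← hn, pow_orderOf_eq_one]⟩

theorem PE.cop (hr : r.Prime) (hs : s.Prime) (hrs : r ≠ s) {x y : G} (hx : PE r x) (hy : PE s y) :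
    (orderOf x).Coprime (orderOf y) := by
  obtain ⟨m, hm⟩ := (pe_iff hr).1 hx
  obtain ⟨n, hn⟩ := (pe_iff hs).1 hy
  rw [hm, hn]
  exact Nat.Coprime.pow m n ((Nat.coprime_primes hr hs).2 hrs)

private theorem pe_npow {x : G} (h : PE r x) (n : ℕ) : PE r (x ^ n) := by
  rw [← zpow_natCast]
  exact h.zpow n

theorem epf_comm (hE : EPF F) (hr : r.Prime) (hs : s.Prime) (hrs : r ≠ s) {x y : G} (hxF : x ∈ F) (hyF : y ∈ F)
    (hx : PE r x) (hy : PE s y) (hxy : Commute x y) : x = 1 ∨ y = 1 := by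
  obtain ⟨t, ht, k, hk⟩ := hE (x * y) (F.mul_mem hxF hyF)
  rw [hxy.mul_pow] at hk
  have h1 : x ^ (t ^ k) = (y ^ (t ^ k))⁻¹ := eq_inv_of_mul_eq_one_left hk
  have h2 : x ^ (t ^ k) = 1 := by
    refine PE.eq_one hr hs hrs (pe_npow hx _) ?_
    rw [h1]
    exact (pe_npow hy _).inv
  have h3 : y ^ (t ^ k) = 1 := by
    rw [h2, one_mul] at hk
    exact hk
  by_cases h4 : t = r
  · right
    exact PE.eq_one ht hs (by rw [h4]; exact hrs) ⟨k, h3⟩ hy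
  · left
    exact PE.eq_one ht hr h4 ⟨k, h2⟩ hx

theorem ep_comm (hE : EP G) (hr : r.Prime) (hs : s.Prime) (hrs : r ≠ s) {x y : G}
    (hx : PE r x) (hy : PE s y) (hxy : Commute x y) : x = 1 ∨ y = 1 :=
  epf_comm (F := ⊤) (fun z _ => hE z) hr hs hrs (Subgroup.mem_top x) (Subgroup.mem_top y) hx hy hxy

theorem ep_quot (hE : EP G) (N : Subgroup G) [N.Normal] : EP (G ⧸ N) := by
  intro x
  obtain ⟨y, rfl⟩ := QuotientGroup.mk'_surjective N x
  obtain ⟨t, ht, h⟩ := hE y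
  exact ⟨t, ht, h.map (QuotientGroup.mk' N)⟩

theorem ep_of_epf (hE : EPF F) {H : Subgroup G} (hH : H ≤ F) : EP H := by
  intro x
  obtain ⟨t, ht, h⟩ := hE x.1 (hH x.2)
  exact ⟨t, ht, (pe_inj H.subtype (Subgroup.subtype_injective H)).1 h⟩

end Pool.Agent.FRC
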