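import Pool.Agent.FRC.Conj2
import Pool.Agent.FRC.PEa
import Pool.Agent.FRC.STc

/-!
# FRC/Orb2: orbits generate nilpotent subgroups; cross pairs

* `HG.nilp`: `nilp` (STc.lean) for the automorphism of the type `K` induced by conjugation by `a` (its `p`-th power is `1`
  since `a^p = 1`; its inverse is conjugation by `a^(p-1) = a⁻¹`, so it is an automorphism of `K`).
* `Orb_le_closure`: `Orb a x ≤ closure {x, a}`; finite, soluble (`solvable_of_solvable_injective` for the inclusion).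
* `Orb_cop`: `cop_of_nilp` in the type `Orb a x`.  `Orb_pg`: `pgroup_of_nilp` in the type `Orb a x` (the generators
  are conjugates of `x`).
* `cross`: put `x' = u * x * u⁻¹ ∈ F` and `g = v * u⁻¹ ∉ F` (`F` is normal).  `v * x * v⁻¹ = g * x' * g⁻¹`, so the closure is
  contained in `Orb g x'`; use `H.of_nmem` for `g` and `Orb_pg`.
-/

set_option autoImplicit false

namespace Pool.Agent.FRC

universe u

variable {G : Type u} [Group G] {F : Subgroup G} {a : G} {p : ℕ}

private theorem orb2_pow {K : Subgroup G} (hK : ∀ k ∈ K, a * k * a⁻¹ ∈ K) (n : ℕ) :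
    ∀ k ∈ K, a ^ n * k * (a ^ n)⁻¹ ∈ K := by
  induction n with
  | zero => intro k hk; simpa using hk
  | succ n ih =>
    intro k hk
    have h1 := hK _ (ih k hk)
    have h2 : a ^ (n + 1) * k * (a ^ (n + 1))⁻¹ = a * (a ^ n * k * (a ^ n)⁻¹) * a⁻¹ := by
      rw [pow_succ']; group
    rwa [h2]

private theorem orb2_inv (H : HG p F a) : a⁻¹ = a ^ (p - 1) := by
  have hp := H.prime.one_lt
  apply inv_eq_of_mul_eq_one_right
  rw [← pow_succ']
  have : p - 1 + 1 = p := by omega
  rw [this, H.pow]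

theorem HG.nilp (H : HG p F a) {K : Subgroup G} (hKF : K ≤ F) (hK : ∀ k ∈ K, a * k * a⁻¹ ∈ K)
    (hf : (K : Set G).Finite) (hs : IsSolvable K) : Group.IsNilpotent K := by
  have hK' : ∀ k ∈ K, a⁻¹ * k * a ∈ K := by
    intro k hk
    have h1 := orb2_pow hK (p - 1) k hk
    rw [← orb2_inv H, inv_inv] at h1
    exact h1
  let φ : MulAut K :=
    { toFun := fun k => ⟨a * k * a⁻¹, hK k k.2⟩
      invFun := fun k => ⟨a⁻¹ * k * a, hK' k k.2⟩
      left_inv := fun k => by
        apply Subtype.ext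
        show a⁻¹ * (a * (k : G) * a⁻¹) * a = k
        group
      right_inv := fun k => by
        apply Subtype.ext
        show a * (a⁻¹ * (k : G) * a) * a⁻¹ = k
        group
      map_mul' := fun k l => by
        apply Subtype.ext
        show a * ((k : G) * l) * a⁻¹ = (a * k * a⁻¹) * (a * l * a⁻¹)
        group }
  have hφ : ∀ (n : ℕ) (k : K), (((φ ^ n) k : K) : G) = a ^ n * k * (a ^ n)⁻¹ := by
    intro n
    induction n with
    | zero => intro k; simp
    | succ n ih =>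
      intro k
      rw [pow_succ', MulAut.mul_apply]
      show a * (((φ ^ n) k : K) : G) * a⁻¹ = _
      rw [ih k, pow_succ']
      group
  have : Finite K := hf.to_subtype
  refine _root_.Pool.Agent.FRC.nilp H.prime (Nat.card K) K hs φ ?_ ?_ rfl
  · apply MulEquiv.ext
    intro k
    apply Subtype.ext
    rw [hφ, H.pow]
    simp
  · intro k hk
    apply Subtype.ext
    apply H.fpf k (hKF k.2)
    exact congrArg Subtype.val hk

theorem Orb_mem (a x : G) : x ∈ Orb a x := by
  exact Subgroup.subset_closure ⟨0, by simp⟩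

theorem Orb_conj_mem (a x : G) : a * x * a⁻¹ ∈ Orb a x := by
  exact Subgroup.subset_closure ⟨1, by simp⟩

theorem Orb_inv (a x : G) {y : G} (hy : y ∈ Orb a x) : a * y * a⁻¹ ∈ Orb a x := by
  have hmem : ∀ i : ℕ, a ^ i * x * (a ^ i)⁻¹ ∈ Orb a x := fun i => Subgroup.subset_closure ⟨i, rfl⟩
  have h : Orb a x ≤ (Orb a x).comap (MulAut.conj a).toMonoidHom := by
    refine (Subgroup.closure_le _).2 ?_
    rintro _ ⟨i, rfl⟩
    show a * (a ^ i * x * (a ^ i)⁻¹) * a⁻¹ ∈ Orb a x
    have h1 : a * (a ^ i * x * (a ^ i)⁻¹) * a⁻¹ = a ^ (i + 1) * x * (a ^ (i + 1))⁻¹ := by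
      rw [pow_succ']
      group
    rw [h1]
    exact hmem (i + 1)
  exact h hy

theorem Orb_le_closure (a x : G) : Orb a x ≤ Subgroup.closure {x, a} := by
  unfold Orb
  rw [Subgroup.closure_le]
  rintro _ ⟨i, rfl⟩
  have hx : x ∈ Subgroup.closure ({x, a} : Set G) := Subgroup.subset_closure (by simp)
  have ha : a ∈ Subgroup.closure ({x, a} : Set G) := Subgroup.subset_closure (by simp)
  exact mul_mem (mul_mem (pow_mem ha i) hx) (inv_mem (pow_mem ha i))

theorem Orb_le (H : HG p F a) {x : G} (hx : x ∈ F) : Orb a x ≤ F := by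
  unfold Orb
  rw [Subgroup.closure_le]
  rintro _ ⟨i, rfl⟩
  exact H.norm.conj_mem x hx (a ^ i)

theorem Orb_fin (H : HG p F a) (x : G) : ((Orb a x : Subgroup G) : Set G).Finite := by
  exact (H.fin x a).subset (Orb_le_closure a x)

theorem Orb_sol (H : HG p F a) (x : G) : IsSolvable (Orb a x) := by
  have h : Group.IsSolvable (Subgroup.closure ({x, a} : Set G)) := H.sol x a
  exact Group.isSolvable_of_isSolvable_injective (Subgroup.inclusion_injective (Orb_le_closure a x))

theorem Orb_cop (H : HG p F a) {x y z : G} (hx : x ∈ F) (hy : y ∈ Orb a x) (hz : z ∈ Orb a x)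
    (hc : (orderOf y).Coprime (orderOf z)) : Commute y z := by
  have hf := Orb_fin H x
  have : Finite (Orb a x) := hf.to_subtype
  have hn := H.nilp (Orb_le H hx) (fun k hk => Orb_inv a x hk) hf (Orb_sol H x)
  have h := cop_of_nilp hn (x := (⟨y, hy⟩ : Orb a x)) (y := ⟨z, hz⟩) (by
    rw [Subgroup.orderOf_mk, Subgroup.orderOf_mk]; exact hc)
  exact congrArg Subtype.val h.eq

theorem Orb_pg (H : HG p F a) {r : ℕ} (hr : r.Prime) {x : G} (hx : x ∈ F) (hxr : PE r x) : PG r (Orb a x) := by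
  have hf := Orb_fin H x
  have : Finite (Orb a x) := hf.to_subtype
  have hn := H.nilp (Orb_le H hx) (fun k hk => Orb_inv a x hk) hf (Orb_sol H x)
  let S : Set (Orb a x) := {y | ∃ i : ℕ, (y : G) = a ^ i * x * (a ^ i)⁻¹}
  have hS : Subgroup.closure S = ⊤ := Subgroup.closure_closure_coe_preimage
  intro y hy
  obtain ⟨n, hn⟩ := pgroup_of_nilp hn hr hS (fun z hz => by
    obtain ⟨i, hi⟩ := hz
    obtain ⟨n, hn⟩ := hxr.conj (a ^ i)
    refine ⟨n, Subtype.ext ?_⟩
    rw [Subgroup.coe_pow, hi, hn, Subgroup.coe_one]) ⟨y, hy⟩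
  exact ⟨n, congrArg Subtype.val hn⟩

theorem cross (H : HG p F a) {r : ℕ} (hr : r.Prime) {x : G} (hx : x ∈ F) (hxr : PE r x) {u v : G}
    (huv : u⁻¹ * v ∉ F) : PG r (Subgroup.closure ({u * x * u⁻¹, v * x * v⁻¹} : Set G)) := by
  have hg : v * u⁻¹ ∉ F := by
    intro h
    apply huv
    have h1 := H.norm.conj_mem _ h u⁻¹
    have h2 : u⁻¹ * (v * u⁻¹) * u⁻¹⁻¹ = u⁻¹ * v := by group
    rwa [h2] at h1
  have hx' : u * x * u⁻¹ ∈ F := H.norm.conj_mem x hx u
  have Hg := H.of_nmem hg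
  have h1 := Orb_pg Hg hr hx' (hxr.conj u)
  have h2 : Subgroup.closure ({u * x * u⁻¹, v * x * v⁻¹} : Set G) ≤ Orb (v * u⁻¹) (u * x * u⁻¹) := by
    rw [Subgroup.closure_le]
    rintro y (rfl | rfl)
    · exact Orb_mem _ _
    · have h3 := Orb_conj_mem (v * u⁻¹) (u * x * u⁻¹)
      have h4 : v * u⁻¹ * (u * x * u⁻¹) * (v * u⁻¹)⁻¹ = v * x * v⁻¹ := by group
      rw [h4] at h3
      exact h3
  intro y hy
  exact h1 y (h2 hy)

end Pool.Agent.FRC
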