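import Pool.Agent.FRC.MainA
import Pool.Agent.FRC.STc

/-!
# FRC/PrimG: the elements of `F` of `r`-power order form a subgroup

Elements of `K = ⟨x, y⟩` of order prime to `r` are central in `K`, so `K` is nilpotent, and an `r`-group.
-/

set_option autoImplicit false

namespace Pool.Agent.FRC

universe u

variable {G : Type u} [Group G] {F : Subgroup G} {a : G} {p : ℕ}

theorem prim_mul (H : HG p F a) {r : ℕ} (hr : r.Prime) {x y : G} (hx : x ∈ F) (hy : y ∈ F) (hxr : PE r x)
    (hyr : PE r y) : PE r (x * y) := by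
  classical
  set K : Subgroup G := Subgroup.closure ({x, y} : Set G) with hK
  have hKf : Finite K := (H.fin x y).to_subtype
  have hKF : K ≤ F := by
    rw [hK, Subgroup.closure_le]
    rintro z (rfl | rfl)
    · exact hx
    · exact hy
  have hxK : x ∈ K := Subgroup.subset_closure (Set.mem_insert _ _)
  have hyK : y ∈ K := Subgroup.subset_closure (Set.mem_insert_of_mem _ rfl)
  have hcen : ∀ h : K, ∃ n : ℕ, h ^ (r ^ n) ∈ Subgroup.center K := by
    intro h
    have ho : orderOf (h : G) ≠ 0 := (H.fo (h : G)).ne'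
    refine ⟨(orderOf (h : G)).factorization r, ?_⟩
    have hcop : ∀ z : G, PE r z → (orderOf ((h : G) ^ (r ^ (orderOf (h : G)).factorization r))).Coprime (orderOf z) := by
      intro z hz
      obtain ⟨m, hm⟩ := (pe_iff hr).1 hz
      rw [hm, orderOf_pow' _ (pow_ne_zero _ hr.ne_zero), Nat.gcd_eq_right (Nat.ordProj_dvd _ _)]
      exact (Nat.coprime_ordCompl hr ho).symm.pow_right m
    have hhF : (h : G) ^ (r ^ (orderOf (h : G)).factorization r) ∈ F := F.pow_mem (hKF h.2) _
    have h1 : Commute ((h : G) ^ (r ^ (orderOf (h : G)).factorization r)) x :=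
      comm_cop H hhF hx (hcop x hxr)
    have h2 : Commute ((h : G) ^ (r ^ (orderOf (h : G)).factorization r)) y :=
      comm_cop H hhF hy (hcop y hyr)
    rw [Subgroup.mem_center_iff]
    intro k
    apply Subtype.ext
    have h3 : (k : G) ∈ Subgroup.centralizer ({(h : G) ^ (r ^ (orderOf (h : G)).factorization r)} : Set G) := by
      have h4 : K ≤ Subgroup.centralizer ({(h : G) ^ (r ^ (orderOf (h : G)).factorization r)} : Set G) := by
        refine (Subgroup.closure_le _).2 ?_
        rintro z (rfl | rfl)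
        · rw [SetLike.mem_coe, Subgroup.mem_centralizer_singleton_iff]
          exact h1.symm.eq
        · rw [SetLike.mem_coe, Subgroup.mem_centralizer_singleton_iff]
          exact h2.symm.eq
      exact h4 k.2
    rw [Subgroup.mem_centralizer_singleton_iff] at h3
    simpa using h3
  have hq : IsPGroup r (K ⧸ Subgroup.center K) := by
    intro z
    induction z using QuotientGroup.induction_on with
    | H h =>
      obtain ⟨n, hn⟩ := hcen h
      refine ⟨n, ?_⟩
      rw [← QuotientGroup.mk_pow, QuotientGroup.eq_one_iff]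
      exact hn
  have : Fact r.Prime := ⟨hr⟩
  have hn1 : Group.IsNilpotent (K ⧸ Subgroup.center K) := hq.isNilpotent
  have hn2 : Group.IsNilpotent K := Group.of_quotient_center_nilpotent hn1
  have hS : Subgroup.closure ({⟨x, hxK⟩, ⟨y, hyK⟩} : Set K) = ⊤ := by
    have h5 : (Subgroup.closure ({⟨x, hxK⟩, ⟨y, hyK⟩} : Set K)).map K.subtype = (⊤ : Subgroup K).map K.subtype := by
      rw [MonoidHom.map_closure, ← MonoidHom.range_eq_map, Subgroup.range_subtype, Set.image_pair]
      rfl
    exact Subgroup.map_injective K.subtype_injective h5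
  obtain ⟨n, hn⟩ := pgroup_of_nilp hn2 hr hS (by
    rintro z (rfl | rfl)
    · obtain ⟨n, hn⟩ := hxr
      exact ⟨n, Subtype.ext hn⟩
    · obtain ⟨n, hn⟩ := hyr
      exact ⟨n, Subtype.ext hn⟩) (⟨x, hxK⟩ * ⟨y, hyK⟩ : K)
  exact ⟨n, congrArg Subtype.val hn⟩

end Pool.Agent.FRC
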