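import Pool.Agent.FRC.Orb2

/-!
# FRC/QuoG: the hypotheses pass to quotients by normal subgroups contained in `F`

`nmem`: if `a N ∈ F N / N` then `a ∈ F` (`N ≤ F`).  `fpf`: let `f ∈ F` with `a f a⁻¹ N = f N`, i.e.
`n0 = f⁻¹ * (a * f * a⁻¹) ∈ N`.  `K = Orb a f` (finite, contained in `F`, invariant under conjugation by `a`); the map
`z ↦ z⁻¹ * (a * z * a⁻¹)` is injective on `F` (`H.fpf`), maps the finite set `N ∩ K` into itself (`N` normal), so onto;
`n0 ∈ N ∩ K`, so `n0 = z⁻¹ * (a * z * a⁻¹)` with `z ∈ N ∩ K`, and `f = z ∈ N` by injectivity.  `fin`, `sol`: the closure of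
two classes is the image of the closure of two representatives (`MonoidHom.map_closure`; `solvable_of_surjective`).
-/

set_option autoImplicit false

namespace Pool.Agent.FRC

universe u

variable {G : Type u} [Group G] {F : Subgroup G} {a : G} {p : ℕ}

theorem HG.quo (H : HG p F a) {N : Subgroup G} [N.Normal] (hN : N ≤ F) :
    HG p (F.map (QuotientGroup.mk' N)) (QuotientGroup.mk' N a) := by
  have hinj : ∀ z ∈ F, ∀ w ∈ F, z⁻¹ * (a * z * a⁻¹) = w⁻¹ * (a * w * a⁻¹) → z = w := by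
    intro z hz w hw h
    have h1 : a * (w * z⁻¹) * a⁻¹ = w * z⁻¹ := by
      have h2 : a * w * a⁻¹ = w * (z⁻¹ * (a * z * a⁻¹)) := by rw [h]; group
      have h3 : a * (w * z⁻¹) * a⁻¹ = (a * w * a⁻¹) * (a * z * a⁻¹)⁻¹ := by group
      rw [h3, h2]
      group
    have h4 := H.fpf _ (F.mul_mem hw (F.inv_mem hz)) h1
    exact (mul_inv_eq_one.1 h4).symm
  have hcl : ∀ x y : G, Subgroup.closure ({(QuotientGroup.mk' N) x, (QuotientGroup.mk' N) y} : Set (G ⧸ N)) =
      (Subgroup.closure ({x, y} : Set G)).map (QuotientGroup.mk' N) := by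
    intro x y
    rw [MonoidHom.map_closure, Set.image_pair]
  refine ⟨H.prime, ?_, ?_, ?_, ?_, ?_, ?_, ?_⟩
  · exact H.norm.map _ (QuotientGroup.mk'_surjective N)
  · rw [← map_pow, H.pow, map_one]
  · rintro ⟨f, hf, h⟩
    have h1 : f⁻¹ * a ∈ N := QuotientGroup.eq.1 h
    have h2 : a ∈ F := by
      have h3 := F.mul_mem hf (hN h1)
      rwa [mul_inv_cancel_left] at h3
    exact H.nmem h2
  · intro g
    obtain ⟨g, rfl⟩ := QuotientGroup.mk'_surjective N g
    obtain ⟨f, hf, k, rfl⟩ := H.gen g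
    exact ⟨_, Subgroup.mem_map_of_mem _ hf, k, by rw [map_mul, map_pow]⟩
  · rintro _ ⟨f, hf, rfl⟩ h
    have h1 : f⁻¹ * (a * f * a⁻¹) ∈ N := by
      have h2 : (QuotientGroup.mk' N) f = (QuotientGroup.mk' N) (a * f * a⁻¹) := by
        rw [map_mul, map_mul, map_inv]
        exact h.symm
      exact QuotientGroup.eq.1 h2
    have hK := Orb_fin H f
    have hfin : ({z : G | z ∈ N ∧ z ∈ Orb a f} : Set G).Finite :=
      hK.subset fun z hz => hz.2
    have hmaps : Set.MapsTo (fun z : G => z⁻¹ * (a * z * a⁻¹)) {z : G | z ∈ N ∧ z ∈ Orb a f}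
        {z : G | z ∈ N ∧ z ∈ Orb a f} := by
      intro z hz
      refine ⟨N.mul_mem (N.inv_mem hz.1) (‹N.Normal›.conj_mem z hz.1 a), ?_⟩
      exact (Orb a f).mul_mem ((Orb a f).inv_mem hz.2) (Orb_inv a f hz.2)
    have hinj' : Set.InjOn (fun z : G => z⁻¹ * (a * z * a⁻¹)) {z : G | z ∈ N ∧ z ∈ Orb a f} := by
      intro z hz w hw h
      exact hinj z (hN hz.1) w (hN hw.1) h
    have hsurj : Set.SurjOn (fun z : G => z⁻¹ * (a * z * a⁻¹)) {z : G | z ∈ N ∧ z ∈ Orb a f}
        {z : G | z ∈ N ∧ z ∈ Orb a f} := by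
      exact ((hfin.injOn_iff_bijOn_of_mapsTo hmaps).1 hinj').surjOn
    obtain ⟨z, hz, hz'⟩ := hsurj (a := f⁻¹ * (a * f * a⁻¹))
      ⟨h1, (Orb a f).mul_mem ((Orb a f).inv_mem (Orb_mem a f)) (Orb_conj_mem a f)⟩
    have h3 := hinj z (hN hz.1) f hf hz'
    rw [← h3]
    exact (QuotientGroup.eq_one_iff z).2 hz.1
  · intro x y
    obtain ⟨x, rfl⟩ := QuotientGroup.mk'_surjective N x
    obtain ⟨y, rfl⟩ := QuotientGroup.mk'_surjective N y
    rw [hcl, Subgroup.coe_map]
    exact (H.fin x y).image _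
  · intro x y
    obtain ⟨x, rfl⟩ := QuotientGroup.mk'_surjective N x
    obtain ⟨y, rfl⟩ := QuotientGroup.mk'_surjective N y
    rw [hcl]
    have : Group.IsSolvable (Subgroup.closure ({x, y} : Set G)) := H.sol x y
    exact Group.isSolvable_of_surjective ((QuotientGroup.mk' N).subgroupMap_surjective _)

end Pool.Agent.FRC
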