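import Pool.Agent.FRC.EEa

/-!
# FRC/RpQ: the quotient by the part prime to `r`

`Rp r a` is the subgroup generated by `EE s a`, `s ≠ r` prime.
* `Rp_inv`: `inv_closure` (`a x ∈ zpowers x`).
* `Rp_normal`: `X` is generated by the sets `EE t a` (`all_gen`); those with `t ≠ r` lie in `Rp r a`, those with `t = r`
  commute with all generators of `Rp r a` (`EE_comm`).
* `Rp_comm`: elements of `closure (EE r a)` commute with elements of `Rp r a` (`EE_comm`).
* `Rp_quo`: every element of `X ⧸ Rp r a` has `r`-power order: `x = y z` with `y`, `z` powers of `x`, `y` of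
  `r`-power order and `z` of order prime to `r`; `z ∈ Rp r a` (it is a product of powers of itself of prime power order,
  `t_gen`).  And `FRB.Hyp r (quo a (Rp r a) ..)`: fixed points: if `x⁻¹ * a x ∈ Rp r a`, the map `z ↦ z⁻¹ a z` on
  the finite closure `O` of the orbit of `x` is injective and maps `Rp r a ⊓ O` into, so onto, itself, so
  `x ∈ Rp r a` (same proof as `FRB.fix`); `two`, `orb`: images of finite closures.
-/

set_option autoImplicit false

namespace Pool.Agent.FRC

open Pool.Agent.FRB

universe u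

variable {X : Type u} [Group X] {a : MulAut X}

theorem Rp_inv (r : ℕ) : Inv a (Rp r a) := by
  refine inv_closure fun x hx => ?_
  obtain ⟨s, hs, hsr, h1, h2⟩ := hx
  have hmem : x ∈ Subgroup.closure {x | ∃ s : ℕ, s.Prime ∧ s ≠ r ∧ x ∈ EE s a} :=
    Subgroup.subset_closure ⟨s, hs, hsr, h1, h2⟩
  exact (Subgroup.zpowers_le.2 hmem) h2

theorem Rp_comm (H : Hyp5 a) {r : ℕ} (hr : r.Prime) {x y : X} (hx : x ∈ Subgroup.closure (EE r a))
    (hy : y ∈ Rp r a) : Commute x y := by
  unfold Rp at hy
  induction hy using Subgroup.closure_induction with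
  | mem y hy =>
    obtain ⟨s, hs, hsr, hy⟩ := hy
    induction hx using Subgroup.closure_induction with
    | mem x hx => exact EE_comm H hr hs (fun h => hsr h.symm) hx hy
    | one => exact Commute.one_left y
    | mul x x' _ _ h1 h2 => exact h1.mul_left h2
    | inv x _ h1 => exact h1.inv_left
  | one => exact Commute.one_right x
  | mul y y' _ _ h1 h2 => exact h1.mul_right h2
  | inv y _ h1 => exact h1.inv_right

theorem Rp_normal (H : Hyp5 a) {r : ℕ} (hr : r.Prime) : (Rp r a).Normal := by
  have hmain : ∀ g : X, ∀ n ∈ Rp r a, g * n * g⁻¹ ∈ Rp r a ∧ g⁻¹ * n * g ∈ Rp r a := by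
    intro g
    have hg := all_gen H g
    induction hg using Subgroup.closure_induction with
    | mem g hg =>
      obtain ⟨t, ht, hg⟩ := hg
      intro n hn
      by_cases htr : t = r
      · subst htr
        have hc := Rp_comm H ht (Subgroup.subset_closure hg) hn
        have h1 : g * n * g⁻¹ = n := by rw [hc.eq, mul_inv_cancel_right]
        have h2 : g⁻¹ * n * g = n := by rw [mul_assoc, ← hc.eq, inv_mul_cancel_left]
        rw [h1, h2]
        exact ⟨hn, hn⟩
      · have hgm : g ∈ Rp r a := Subgroup.subset_closure ⟨t, ht, htr, hg⟩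
        exact ⟨(Rp r a).mul_mem ((Rp r a).mul_mem hgm hn) ((Rp r a).inv_mem hgm),
          (Rp r a).mul_mem ((Rp r a).mul_mem ((Rp r a).inv_mem hgm) hn) hgm⟩
    | one =>
      intro n hn
      simp only [one_mul, inv_one, mul_one]
      exact ⟨hn, hn⟩
    | mul g g' _ _ h1 h2 =>
      intro n hn
      have e1 : g * g' * n * (g * g')⁻¹ = g * (g' * n * g'⁻¹) * g⁻¹ := by group
      have e2 : (g * g')⁻¹ * n * (g * g') = g'⁻¹ * (g⁻¹ * n * g) * g' := by group
      rw [e1, e2]
      exact ⟨(h1 _ (h2 n hn).1).1, (h2 _ (h1 n hn).2).2⟩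
    | inv g _ h1 =>
      intro n hn
      rw [inv_inv]
      exact ⟨(h1 n hn).2, (h1 n hn).1⟩
  exact ⟨fun n hn g => (hmain g n hn).1⟩

private theorem EE_le {r s : ℕ} (hs : s.Prime) (hsr : s ≠ r) : Subgroup.closure (EE s a) ≤ Rp r a :=
  Subgroup.closure_mono fun _ hx => ⟨s, hs, hsr, hx⟩

private theorem mem_Rp (H : Hyp5 a) {r : ℕ} (hr : r.Prime) (n : ℕ) :
    ∀ z : X, orderOf z = n → ¬ r ∣ n → z ∈ Rp r a := by
  induction n using Nat.strong_induction_on with
  | _ n ih =>
    intro z hz hrn
    have hn : 0 < n := hz ▸ H.tors z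
    by_cases h1 : n = 1
    · rw [h1, orderOf_eq_one_iff] at hz
      rw [hz]
      exact Subgroup.one_mem _
    · obtain ⟨s, hs, hsn⟩ := Nat.exists_prime_and_dvd h1
      have hsr : s ≠ r := fun h => hrn (h ▸ hsn)
      obtain ⟨f, m, hsm, hfm⟩ := Nat.exists_eq_pow_mul_and_not_dvd hn.ne' s hs.ne_one
      have hf : f ≠ 0 := by
        rintro rfl
        rw [pow_zero, one_mul] at hfm
        exact hsm (hfm ▸ hsn)
      have hm0 : 0 < m := by
        rcases Nat.eq_zero_or_pos m with h | h
        · rw [h, mul_zero] at hfm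
          omega
        · exact h
      have hz1 : z ^ (s ^ f * m) = 1 := by rw [← hfm, ← hz]; exact pow_orderOf_eq_one z
      have hA : z ^ m ∈ Rp r a := by
        refine EE_le hs hsr (t_gen H hs ⟨f, ?_⟩)
        rw [← pow_mul, mul_comm m, hz1]
      have hB : z ^ (s ^ f) ∈ Rp r a := by
        have ho : orderOf (z ^ (s ^ f)) = m := by
          rw [orderOf_pow_of_dvd (pow_ne_zero _ hs.ne_zero) (by rw [hz, hfm]; exact dvd_mul_right _ _), hz, hfm]
          exact Nat.mul_div_cancel_left m (pow_pos hs.pos f)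
        refine ih m ?_ _ ho ?_
        · rw [hfm]
          have h2 : 1 < s ^ f := Nat.one_lt_pow hf hs.one_lt
          exact lt_mul_of_one_lt_left hm0 h2
        · intro h
          exact hrn (hfm ▸ dvd_mul_of_dvd_right h _)
      have hcop : Nat.Coprime (s ^ f) m := (Nat.Prime.coprime_pow_of_not_dvd hs hsm).symm
      have hbez : ((s ^ f : ℕ) : ℤ) * Nat.gcdA (s ^ f) m + (m : ℤ) * Nat.gcdB (s ^ f) m = 1 := by
        rw [← Nat.gcd_eq_gcd_ab, hcop.gcd_eq_one]
        rfl
      have hz2 : z = (z ^ (s ^ f)) ^ (Nat.gcdA (s ^ f) m) * (z ^ m) ^ (Nat.gcdB (s ^ f) m) := by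
        rw [← zpow_natCast z (s ^ f), ← zpow_natCast z m, ← zpow_mul, ← zpow_mul, ← zpow_add, hbez, zpow_one]
      rw [hz2]
      exact (Rp r a).mul_mem ((Rp r a).zpow_mem hB _) ((Rp r a).zpow_mem hA _)

private theorem inv_orb5 (H : Hyp5 a) (x : X) :
    Inv a (Subgroup.closure ({x, a x, a (a x), a (a (a x)), a (a (a (a x)))} : Set X)) := by
  refine inv_closure fun z hz => Subgroup.subset_closure ?_
  simp only [Set.mem_insert_iff, Set.mem_singleton_iff] at hz ⊢
  rcases hz with rfl | rfl | rfl | rfl | rfl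
  · simp
  · simp
  · simp
  · simp
  · left
    exact H.pow5 x

private theorem fix5 (H : Hyp5 a) {N : Subgroup X} (hN : Inv a N) {x : X} (hx : x⁻¹ * a x ∈ N) : x ∈ N := by
  have hinj : ∀ z w : X, z⁻¹ * a z = w⁻¹ * a w → z = w := by
    intro z w h
    have h1 : a (w * z⁻¹) = w * z⁻¹ := by
      rw [map_mul, map_inv]
      have h2 : a w = w * (z⁻¹ * a z) := by
        rw [h]
        group
      rw [h2]
      group
    have h3 := H.fpf _ h1
    exact (mul_inv_eq_one.mp h3).symm
  have hO := inv_orb5 H x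
  have hfin := H.orb x
  set O : Subgroup X := Subgroup.closure ({x, a x, a (a x), a (a (a x)), a (a (a (a x)))} : Set X)
    with hOdef
  have hxO : x ∈ O := Subgroup.subset_closure (by simp)
  have haxO : a x ∈ O := hO x hxO
  have hfin2 : Finite ↥(N ⊓ O) := by
    have h1 : ((N ⊓ O : Subgroup X) : Set X).Finite := hfin.subset (fun z hz => hz.2)
    exact h1.to_subtype
  let g : ↥(N ⊓ O) → ↥(N ⊓ O) := fun z =>
    ⟨(z : X)⁻¹ * a (z : X), N.mul_mem (N.inv_mem z.2.1) (hN _ z.2.1),
      O.mul_mem (O.inv_mem z.2.2) (hO _ z.2.2)⟩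
  have hg : Function.Injective g := by
    intro z w h
    exact Subtype.ext (hinj z w (congrArg Subtype.val h))
  have hs := Finite.surjective_of_injective hg
  obtain ⟨m, hm⟩ := hs ⟨x⁻¹ * a x, hx, O.mul_mem (O.inv_mem hxO) haxO⟩
  have h4 : (m : X)⁻¹ * a (m : X) = x⁻¹ * a x := congrArg Subtype.val hm
  have h5 := hinj _ _ h4
  rw [← h5]
  exact m.2.1

private theorem fin_image5 {N : Subgroup X} [N.Normal] {s : Set X}
    (h : ((Subgroup.closure s : Subgroup X) : Set X).Finite) :
    ((Subgroup.closure ((QuotientGroup.mk' N) '' s) : Subgroup (X ⧸ N)) : Set (X ⧸ N)).Finite := by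
  rw [← MonoidHom.map_closure, Subgroup.coe_map]
  exact h.image _

theorem Rp_quo (H : Hyp5 a) {r : ℕ} (hr : r.Prime) [(Rp r a).Normal] :
    Hyp r (quo a (Rp r a) (Rp_inv r) H.pow5) := by
  refine ⟨fun q => ?_, fun q => ?_, fun q hq => ?_, fun q q' => ?_, fun q => ?_⟩
  · induction q using QuotientGroup.induction_on with
    | H x =>
      obtain ⟨e, m, hrm, hem⟩ := Nat.exists_eq_pow_mul_and_not_dvd (H.tors x).ne' r hr.ne_one
      refine ⟨e, ?_⟩
      rw [← QuotientGroup.mk_pow, QuotientGroup.eq_one_iff]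
      refine mem_Rp H hr m _ ?_ hrm
      rw [orderOf_pow_of_dvd (pow_ne_zero _ hr.ne_zero) (by rw [hem]; exact dvd_mul_right _ _), hem]
      exact Nat.mul_div_cancel_left m (pow_pos hr.pos e)
  · induction q using QuotientGroup.induction_on with
    | H x =>
      rw [quo_mk, quo_mk, quo_mk, quo_mk, quo_mk, H.pow5]
  · induction q using QuotientGroup.induction_on with
    | H x =>
      rw [quo_mk] at hq
      exact (QuotientGroup.eq_one_iff x).2 (fix5 H (Rp_inv r) (QuotientGroup.eq.1 hq.symm))
  · induction q using QuotientGroup.induction_on with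
    | H x =>
      induction q' using QuotientGroup.induction_on with
      | H y =>
        have h := fin_image5 (N := Rp r a) (H.two x y)
        rw [Set.image_pair] at h
        exact h
  · induction q using QuotientGroup.induction_on with
    | H x =>
      have h := fin_image5 (N := Rp r a) (H.orb x)
      rw [Set.image_insert_eq, Set.image_insert_eq, Set.image_insert_eq, Set.image_insert_eq,
        Set.image_singleton] at h
      rw [quo_mk, quo_mk, quo_mk, quo_mk]
      exact h

end Pool.Agent.FRC
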