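import Mathlib

/-!
# FRC/STa: an automorphism of prime order without fixed points; coprime invariant subgroups

`K` is a finite group, `a` an automorphism with `a^p = 1`, `p` prime, `a x = x → x = 1`.
`cop_comm`: if `V` is a commutative `a`-invariant subgroup with `v^s = 1` for `v ∈ V`, normalised by the `a`-invariant
subgroup `R`, and `|R|` is coprime to `s`, then `R` centralises `V`.
Proof.  Fix `v ∈ V`.  For `ρ ∈ R` and `i < p` put `t ρ i = ρ * (a^i) (ρ⁻¹ * v * ρ) * ρ⁻¹ ∈ V`; this equals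
`σ * (a^i) v * σ⁻¹` with `σ = ρ * ((a^i) ρ)⁻¹ ∈ R`.
(1) For fixed `ρ` the product over `i < p` (in the commutative group `V`) is `ρ (∏ (a^i) v') ρ⁻¹`, `v' = ρ⁻¹ v ρ`, and
`∏_{i<p} (a^i) v'` is fixed by `a` (cyclic shift, `a^p = 1`), so it is `1`.
(2) For `i = 0` the product over `ρ ∈ R` is `v^|R|`.  For `0 < i < p` the map `ρ ↦ ρ * ((a^i) ρ)⁻¹` is injective on the
finite set `R` (`a^i` has no fixed points because `a` is a power of `a^i`), so the product over `ρ` equals
`∏_{σ ∈ R} σ * ((a^i) v) * σ⁻¹`, which is centralised by `R` (reindex by `σ ↦ τ σ`).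
(3) Exchange the products: `v^|R| * (element centralised by R) = 1`.  So `v^|R|` is centralised by `R`, and so is `v`,
which is a power of `v^|R|` (`|R|` coprime to `s`).
In Lean: work with the commutative group `V` (make an instance from `hVab`, e.g. `Subgroup.closureCommGroupOfComm`-like or
`CommGroup` structure on `V`), `Finset.prod_comm`, `Finset.prod_bij`/`Equiv.prod_comp`.
-/

set_option autoImplicit false

namespace Pool.Agent.FRC

universe u

private theorem sta_fix {K : Type u} [Group K] {p : ℕ} (hp : p.Prime) (a : MulAut K) (hap : a ^ p = 1)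
    (hfpf : ∀ x : K, a x = x → x = 1) {i : ℕ} (h0 : 0 < i) (hi : i < p) (z : K)
    (hz : (a ^ i) z = z) : z = 1 := by
  apply hfpf
  have hc : Nat.Coprime i p := (Nat.coprime_of_lt_prime h0.ne' hi hp).symm
  have hg := Nat.gcd_eq_gcd_ab i p
  rw [hc] at hg
  have h1 : a = (a ^ i) ^ (Nat.gcdA i p) := by
    have : a ^ ((1 : ℕ) : ℤ) = a ^ ((i : ℤ) * Nat.gcdA i p + (p : ℤ) * Nat.gcdB i p) := by rw [hg]
    rw [zpow_add, zpow_mul, zpow_mul, zpow_natCast, zpow_natCast, zpow_natCast, hap, one_zpow,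
      mul_one, pow_one] at this
    exact this
  have h2 : a ^ i ∈ MulAction.stabilizer (MulAut K) z := by
    rw [MulAction.mem_stabilizer_iff, MulAut.smul_def]
    exact hz
  have h3 := Subgroup.zpow_mem _ h2 (Nat.gcdA i p)
  rw [← h1, MulAction.mem_stabilizer_iff, MulAut.smul_def] at h3
  exact h3

private theorem sta_shift {M : Type u} [CommGroup M] (f : ℕ → M) (p : ℕ) (h : f p = f 0) :
    ∏ i ∈ Finset.range p, f (i + 1) = ∏ i ∈ Finset.range p, f i := by
  have h1 := Finset.prod_range_succ f p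
  have h2 := Finset.prod_range_succ' f p
  rw [h2, h] at h1
  exact mul_right_cancel h1

private theorem sta_core {K : Type u} [Group K] [Finite K] {p : ℕ} (hp : p.Prime) (a : MulAut K) (hap : a ^ p = 1)
    (hfpf : ∀ x : K, a x = x → x = 1) {M : Type u} [CommGroup M] (ι : M →* K) (hι : Function.Injective ι)
    (R : Subgroup K) (hR : ∀ ρ ∈ R, a ρ ∈ R) (al : M →* M) (hal : ∀ m, ι (al m) = a (ι m))
    (cj : R → M →* M) (hcj : ∀ ρ m, ι (cj ρ m) = ρ * ι m * (ρ : K)⁻¹) (v : M) (τ : R) :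
    cj τ (v ^ Nat.card R) = v ^ Nat.card R := by
  classical
  have : Fintype R := Fintype.ofFinite R
  let ai : ℕ → M →* M := fun i => Nat.rec (MonoidHom.id M) (fun _ f => f.comp al) i
  have hali : ∀ (i : ℕ) (m : M), ι (ai i m) = (a ^ i) (ι m) := by
    intro i
    induction i with
    | zero => intro m; rfl
    | succ i ih =>
      intro m
      rw [pow_succ, MulAut.mul_apply, ← hal]
      exact ih (al m)
  have hRi : ∀ (i : ℕ) (ρ : K), ρ ∈ R → (a ^ i) ρ ∈ R := by
    intro i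
    induction i with
    | zero => intro ρ h; simpa using h
    | succ i ih =>
      intro ρ h
      rw [pow_succ, MulAut.mul_apply]
      exact ih _ (hR ρ h)
  let t : R → ℕ → M := fun ρ i => cj ρ (ai i (cj ρ⁻¹ v))
  -- (1)
  have h1 : ∀ ρ, ∏ i ∈ Finset.range p, t ρ i = 1 := by
    intro ρ
    have e1 : ∏ i ∈ Finset.range p, t ρ i =
        cj ρ (∏ i ∈ Finset.range p, ai i (cj ρ⁻¹ v)) := by
      rw [map_prod]
    have e2 : al (∏ i ∈ Finset.range p, ai i (cj ρ⁻¹ v)) =
        ∏ i ∈ Finset.range p, ai i (cj ρ⁻¹ v) := by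
      rw [map_prod, ← sta_shift (fun i => ai i (cj ρ⁻¹ v)) p]
      · refine Finset.prod_congr rfl fun i _ => ?_
        apply hι
        have e := hali (i + 1) (cj ρ⁻¹ v)
        rw [pow_succ', MulAut.mul_apply] at e
        rw [hal, hali]
        exact e.symm
      · apply hι
        rw [hali, hali, hap, pow_zero]
    have e3 : (∏ i ∈ Finset.range p, ai i (cj ρ⁻¹ v)) = 1 := by
      apply hι
      rw [map_one]
      apply hfpf
      rw [← hal, e2]
    rw [e1, e3, map_one]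
  -- (2)
  have h2 : ∀ i, 0 < i → i < p → ∏ ρ : R, t ρ i = ∏ σ : R, cj σ (ai i v) := by
    intro i hi0 hip
    let f : R → R := fun ρ => ρ * ⟨(a ^ i) ρ, hRi i ρ ρ.2⟩⁻¹
    have hf : Function.Injective f := by
      intro x y hxy
      have e1 : (x : K) * ((a ^ i) (x : K))⁻¹ = (y : K) * ((a ^ i) (y : K))⁻¹ := by
        have := congrArg Subtype.val hxy
        simpa [f] using this
      have e2 : (a ^ i) ((y : K)⁻¹ * x) = (y : K)⁻¹ * x := by
        rw [map_mul, map_inv]
        have e3 : (x : K) = (y : K) * ((a ^ i) (y : K))⁻¹ * (a ^ i) (x : K) := by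
          rw [← e1]; group
        have e4 : (y : K)⁻¹ * x = (y : K)⁻¹ * ((y : K) * ((a ^ i) (y : K))⁻¹ * (a ^ i) (x : K)) :=
          congrArg (fun z => (y : K)⁻¹ * z) e3
        rw [e4]; group
      have e5 := sta_fix hp a hap hfpf hi0 hip _ e2
      have e6 : (x : K) = y := by
        rw [inv_mul_eq_one] at e5
        exact e5.symm
      exact Subtype.ext e6
    have hfb : Function.Bijective f := Finite.injective_iff_bijective.mp hf
    have e1 : ∀ ρ : R, t ρ i = cj (f ρ) (ai i v) := by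
      intro ρ
      apply hι
      simp only [t]
      rw [hcj, hcj, hali, hali, hcj]
      simp only [f, map_mul, map_inv, Subgroup.coe_mul, InvMemClass.coe_inv,
        mul_inv_rev, inv_inv]
      group
    rw [← hfb.prod_comp (fun σ => cj σ (ai i v))]
    exact Finset.prod_congr rfl fun ρ _ => e1 ρ
  -- invariance
  have h3 : ∀ m : M, cj τ (∏ σ : R, cj σ m) = ∏ σ : R, cj σ m := by
    intro m
    rw [map_prod, ← Equiv.prod_comp (Equiv.mulLeft τ) (fun σ => cj σ m)]
    refine Finset.prod_congr rfl fun σ _ => ?_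
    apply hι
    rw [hcj, hcj, hcj]
    simp only [Equiv.coe_mulLeft, Subgroup.coe_mul, mul_inv_rev]
    group
  -- (3)
  have h4 : ∏ i ∈ Finset.range p, ∏ ρ : R, t ρ i = 1 := by
    rw [Finset.prod_comm]
    exact Finset.prod_eq_one fun ρ _ => h1 ρ
  obtain ⟨q, rfl⟩ : ∃ q, p = q + 1 := ⟨p - 1, by have := hp.pos; omega⟩
  rw [Finset.prod_range_succ'] at h4
  have h5 : ∏ ρ : R, t ρ 0 = v ^ Nat.card R := by
    have : ∀ ρ : R, t ρ 0 = v := by
      intro ρ
      apply hι
      simp only [t]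
      rw [hcj, hali, hcj]
      simp only [pow_zero, MulAut.one_apply, InvMemClass.coe_inv, inv_inv]
      group
    rw [Finset.prod_congr rfl fun ρ _ => this ρ, Finset.prod_const, Finset.card_univ,
      Nat.card_eq_fintype_card]
  rw [h5] at h4
  have h6 : cj τ (∏ i ∈ Finset.range q, ∏ ρ : R, t ρ (i + 1)) =
      ∏ i ∈ Finset.range q, ∏ ρ : R, t ρ (i + 1) := by
    rw [map_prod]
    refine Finset.prod_congr rfl fun i hi => ?_
    rw [h2 (i + 1) (Nat.succ_pos i) (by have := Finset.mem_range.mp hi; omega)]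
    exact h3 _
  have h7 : v ^ Nat.card R = (∏ i ∈ Finset.range q, ∏ ρ : R, t ρ (i + 1))⁻¹ :=
    eq_inv_of_mul_eq_one_right h4
  rw [h7, map_inv, h6]

theorem cop_comm {K : Type u} [Group K] [Finite K] {p : ℕ} (hp : p.Prime) (a : MulAut K) (hap : a ^ p = 1)
    (hfpf : ∀ x : K, a x = x → x = 1) (V R : Subgroup K) (hV : ∀ v ∈ V, a v ∈ V) (hR : ∀ ρ ∈ R, a ρ ∈ R)
    (hVab : ∀ v ∈ V, ∀ w ∈ V, Commute v w) (hRV : ∀ ρ ∈ R, ∀ v ∈ V, ρ * v * ρ⁻¹ ∈ V) (s : ℕ)
    (hs : ∀ v ∈ V, v ^ s = 1) (hcop : Nat.Coprime (Nat.card R) s) : ∀ ρ ∈ R, ∀ v ∈ V, Commute ρ v := by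
  intro τ hτ v hv
  letI : CommGroup V := { (inferInstance : Group V) with
    mul_comm := fun x y => Subtype.ext (hVab x x.2 y y.2) }
  let al : V →* V :=
    { toFun := fun x => ⟨a x, hV x x.2⟩
      map_one' := Subtype.ext (map_one a)
      map_mul' := fun x y => Subtype.ext (map_mul a (x : K) (y : K)) }
  let cj : R → V →* V := fun ρ =>
    { toFun := fun x => ⟨ρ * x * (ρ : K)⁻¹, hRV ρ ρ.2 x x.2⟩
      map_one' := Subtype.ext (by show (ρ : K) * 1 * (ρ : K)⁻¹ = 1; group)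
      map_mul' := fun x y => Subtype.ext (by
        show (ρ : K) * ((x : K) * (y : K)) * (ρ : K)⁻¹ =
          ((ρ : K) * x * (ρ : K)⁻¹) * ((ρ : K) * y * (ρ : K)⁻¹)
        group) }
  have key := sta_core hp a hap hfpf V.subtype V.subtype_injective R hR al (fun m => rfl) cj
    (fun ρ m => rfl) ⟨v, hv⟩ ⟨τ, hτ⟩
  have hg := Nat.gcd_eq_gcd_ab (Nat.card R) s
  rw [hcop] at hg
  have hvx : (⟨v, hv⟩ : V) = ((⟨v, hv⟩ : V) ^ Nat.card R) ^ (Nat.gcdA (Nat.card R) s) := by
    have hs' : (⟨v, hv⟩ : V) ^ s = 1 := Subtype.ext (hs v hv)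
    have : (⟨v, hv⟩ : V) ^ ((1 : ℕ) : ℤ) = (⟨v, hv⟩ : V) ^
        (((Nat.card R : ℕ) : ℤ) * Nat.gcdA (Nat.card R) s + (s : ℤ) * Nat.gcdB (Nat.card R) s) := by
      rw [hg]
    rw [zpow_add, zpow_mul, zpow_mul, zpow_natCast, zpow_natCast, zpow_natCast, hs', one_zpow,
      mul_one, pow_one] at this
    exact this
  have h1 : cj ⟨τ, hτ⟩ ⟨v, hv⟩ = ⟨v, hv⟩ := by
    conv_lhs => rw [hvx]
    rw [map_zpow, key, ← hvx]
  have h2 : τ * v * τ⁻¹ = v := congrArg Subtype.val h1
  show τ * v = v * τ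
  exact mul_inv_eq_iff_eq_mul.mp h2

end Pool.Agent.FRC
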