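import Pool.Agent.FRC.Core2
import Pool.Agent.FRC.QuoG

/-!
# FRC/ZornG: elements of `F` of orders powers of different primes commute

* `exists_max`: Zorn (`zorn_le_nonempty₀` or `zorn_subset`): the union of a chain of normal subgroups of `G` contained in `F`
  not containing `w0` is again such a subgroup; `⊥` is one.
* `comm_rs`: suppose not; `w0 = x⁻¹ * y⁻¹ * x * y ≠ 1`, `N` from `exists_max`.  `core2` for `G ⧸ N` (`H.quo`) and the
  classes of `x`, `y`: `hmin`: let `M` be a normal nontrivial subgroup of `G ⧸ N` contained in the image of `F`; its preimage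
  `M'` is normal, contained in `F` (as `N ≤ F`), contains `N` and is `≠ N`, so contains `w0`.  So the classes of `x` and
  `y` commute and `w0 ∈ N`, contradiction.
-/

set_option autoImplicit false

namespace Pool.Agent.FRC

universe u

variable {G : Type u} [Group G] {F : Subgroup G} {a : G} {p : ℕ}

theorem exists_max (F : Subgroup G) {w0 : G} (hw0 : w0 ≠ 1) :
    ∃ N : Subgroup G, N.Normal ∧ N ≤ F ∧ w0 ∉ N ∧ ∀ M : Subgroup G, M.Normal → M ≤ F → N ≤ M → w0 ∉ M → M = N := by
  have hz := zorn_le_nonempty₀ {N : Subgroup G | N.Normal ∧ N ≤ F ∧ w0 ∉ N} (by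
    intro c hc hchain y hy
    have hdir : DirectedOn (· ≤ ·) c := hchain.directedOn
    have hne : c.Nonempty := ⟨y, hy⟩
    refine ⟨sSup c, ⟨⟨?_⟩, ?_, ?_⟩, fun z hz => le_sSup hz⟩
    · intro n hn g
      rw [Subgroup.mem_sSup_of_directedOn hne hdir] at hn ⊢
      obtain ⟨K, hK, hnK⟩ := hn
      exact ⟨K, hK, (hc hK).1.conj_mem n hnK g⟩
    · exact sSup_le fun K hK => (hc hK).2.1
    · intro hw
      rw [Subgroup.mem_sSup_of_directedOn hne hdir] at hw
      obtain ⟨K, hK, hwK⟩ := hw
      exact (hc hK).2.2 hwK) ⊥ ⟨inferInstance, bot_le, by simpa [Subgroup.mem_bot] using hw0⟩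
  obtain ⟨N, -, hN⟩ := hz
  refine ⟨N, hN.prop.1, hN.prop.2.1, hN.prop.2.2, ?_⟩
  intro M hM1 hM2 hM3 hM4
  exact le_antisymm (hN.le_of_ge ⟨hM1, hM2, hM4⟩ hM3) hM3

theorem comm_rs (H : HG p F a) {r s : ℕ} (hr : r.Prime) (hs : s.Prime) (hrs : r ≠ s) {x y : G} (hx : x ∈ F)
    (hy : y ∈ F) (hxr : PE r x) (hys : PE s y) : Commute x y := by
  by_contra hw
  have hw0 : x⁻¹ * y⁻¹ * x * y ≠ 1 := by
    intro h
    apply hw
    have h2 : x * y = y * x := by
      calc x * y = y * x * (x⁻¹ * y⁻¹ * x * y) := by group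
        _ = y * x := by rw [h, mul_one]
    exact h2
  obtain ⟨N, hNn, hNF, hwN, hmax⟩ := exists_max F hw0
  have HQ := H.quo hNF
  have hPx : PE r (QuotientGroup.mk' N x) := by
    obtain ⟨n, hn⟩ := hxr
    exact ⟨n, by rw [← map_pow, hn, map_one]⟩
  have hPy : PE s (QuotientGroup.mk' N y) := by
    obtain ⟨n, hn⟩ := hys
    exact ⟨n, by rw [← map_pow, hn, map_one]⟩
  have hc : Commute (QuotientGroup.mk' N x) (QuotientGroup.mk' N y) := by
    refine core2 HQ hr hs hrs (Subgroup.mem_map_of_mem _ hx) (Subgroup.mem_map_of_mem _ hy) hPx hPy ?_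
    intro M hM hMF hM0
    by_contra hwM
    have hM' : (M.comap (QuotientGroup.mk' N)).Normal := hM.comap _
    have h1 : M.comap (QuotientGroup.mk' N) ≤ F := by
      intro g hg
      obtain ⟨f, hf, hfg⟩ := hMF hg
      have h3 : f⁻¹ * g ∈ N := by
        rw [← QuotientGroup.eq]
        exact hfg
      have h4 : g = f * (f⁻¹ * g) := by group
      rw [h4]
      exact F.mul_mem hf (hNF h3)
    have h2 : N ≤ M.comap (QuotientGroup.mk' N) := by
      intro g hg
      have h3 : QuotientGroup.mk' N g = 1 := by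
        rw [QuotientGroup.mk'_apply]
        exact (QuotientGroup.eq_one_iff g).2 hg
      change QuotientGroup.mk' N g ∈ M
      rw [h3]
      exact M.one_mem
    have h5 := hmax _ hM' h1 h2 (by
      intro h
      apply hwM
      have h6 : QuotientGroup.mk' N (x⁻¹ * y⁻¹ * x * y) ∈ M := h
      rwa [map_mul, map_mul, map_mul, map_inv, map_inv] at h6)
    apply hM0
    rw [eq_bot_iff]
    intro q hq
    obtain ⟨g, rfl⟩ := QuotientGroup.mk'_surjective N q
    have h6 : g ∈ M.comap (QuotientGroup.mk' N) := hq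
    rw [h5] at h6
    rw [Subgroup.mem_bot, QuotientGroup.mk'_apply]
    exact (QuotientGroup.eq_one_iff g).2 h6
  apply hwN
  have h7 : QuotientGroup.mk' N (x⁻¹ * y⁻¹ * x * y) = 1 := by
    rw [map_mul, map_mul, map_mul, map_inv, map_inv]
    have h8 := hc.eq
    calc (QuotientGroup.mk' N x)⁻¹ * (QuotientGroup.mk' N y)⁻¹ * QuotientGroup.mk' N x * QuotientGroup.mk' N y
        = (QuotientGroup.mk' N x)⁻¹ * (QuotientGroup.mk' N y)⁻¹ * (QuotientGroup.mk' N x * QuotientGroup.mk' N y) := by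
          group
      _ = (QuotientGroup.mk' N x)⁻¹ * (QuotientGroup.mk' N y)⁻¹ * (QuotientGroup.mk' N y * QuotientGroup.mk' N x) := by
          rw [h8]
      _ = 1 := by group
  rw [QuotientGroup.mk'_apply] at h7
  exact (QuotientGroup.eq_one_iff _).1 h7

end Pool.Agent.FRC
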